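import Pool.Agent.Lib.MP_3cbb73_an.Slow.Path

set_option autoImplicit false

/-!
# Block systems and sweeps
-/

namespace Pool.Agent.Lib.MP_3cbb73_an.Slow

open scoped RealInnerProductSpace
open Finset

/-- The index type of the vectors: block `k < J` consists of `n k` vectors. -/
abbrev Idx (J : ℕ) (n : ℕ → ℕ) : Type := Σ k : Fin J, Fin (n k)

/-- The Gram matrix of a block system: blocks are orthonormal, and the inner product of a vector of
block `k` with a vector of block `l ≠ k` is `M k l / √(n k * n l)`. -/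
noncomputable def gram (J : ℕ) (n : ℕ → ℕ) (M : ℕ → ℕ → ℝ) : Matrix (Idx J n) (Idx J n) ℝ :=
  fun x y => if x = y then 1 else if x.1 = y.1 then 0 else
    M x.1 y.1 / (√(n x.1) * √(n y.1))

lemma gram_self (J : ℕ) (n : ℕ → ℕ) (M : ℕ → ℕ → ℝ) (x : Idx J n) : gram J n M x x = 1 := by
  simp [gram]

lemma gram_symm (J : ℕ) (n : ℕ → ℕ) (M : ℕ → ℕ → ℝ) (hM : ∀ k l, M k l = M l k)
    (x y : Idx J n) : gram J n M x y = gram J n M y x := by
  unfold gram
  by_cases h : x = y
  · simp [h]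
  · have h' : y ≠ x := fun h2 => h h2.symm
    by_cases h1 : x.1 = y.1
    · simp [h, h', h1]
    · have h1' : y.1 ≠ x.1 := fun h2 => h1 h2.symm
      simp only [h, h', h1, h1', if_false]
      rw [hM, mul_comm]

lemma gram_block (J : ℕ) (n : ℕ → ℕ) (M : ℕ → ℕ → ℝ) (k : Fin J) (i j : Fin (n k)) :
    gram J n M ⟨k, i⟩ ⟨k, j⟩ = if i = j then 1 else 0 := by
  unfold gram
  by_cases h : i = j
  · simp [h]
  · have : (⟨k, i⟩ : Idx J n) ≠ ⟨k, j⟩ := by
      intro h2
      apply h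
      simpa using h2
    simp [h, this]

lemma gram_ne (J : ℕ) (n : ℕ → ℕ) (M : ℕ → ℕ → ℝ) {k l : Fin J} (hkl : k ≠ l)
    (i : Fin (n k)) (j : Fin (n l)) :
    gram J n M ⟨k, i⟩ ⟨l, j⟩ = M k l / (√(n k) * √(n l)) := by
  unfold gram
  have : (⟨k, i⟩ : Idx J n) ≠ ⟨l, j⟩ := by
    intro h2
    exact hkl (by injection h2)
  simp [this, hkl]

/-- The quadratic form of the block Gram matrix. -/
lemma gram_quad (J : ℕ) (n : ℕ → ℕ) (M : ℕ → ℕ → ℝ) (hM1 : ∀ k, M k k = 1)
    (c : Idx J n → ℝ) :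
    ∑ x, ∑ y, c x * gram J n M x y * c y
      = (∑ x, c x ^ 2 - ∑ k : Fin J, ((∑ i, c ⟨k, i⟩) / √(n k)) ^ 2)
        + ∑ k : Fin J, ∑ l : Fin J, ((∑ i, c ⟨k, i⟩) / √(n k)) * M k l *
            ((∑ i, c ⟨l, i⟩) / √(n l)) := by
  have h1 : ∀ (k l : Fin J), ∑ i, ∑ j, c ⟨k, i⟩ * gram J n M ⟨k, i⟩ ⟨l, j⟩ * c ⟨l, j⟩
      = (if k = l then ∑ i, c ⟨k, i⟩ ^ 2 - ((∑ i, c ⟨k, i⟩) / √(n k)) ^ 2 else 0)
        + ((∑ i, c ⟨k, i⟩) / √(n k)) * M k l * ((∑ i, c ⟨l, i⟩) / √(n l)) := by
    intro k l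
    by_cases hkl : k = l
    · subst hkl
      simp only [gram_block, if_true, hM1]
      have : ∀ i, ∑ j, c ⟨k, i⟩ * (if i = j then (1 : ℝ) else 0) * c ⟨k, j⟩ = c ⟨k, i⟩ ^ 2 := by
        intro i
        simp [pow_two]
      simp only [this]
      ring
    · simp only [gram_ne J n M hkl, if_neg hkl, zero_add]
      rw [Finset.sum_div, Finset.sum_div, Finset.sum_mul, Finset.sum_mul]
      apply Finset.sum_congr rfl
      intro i _
      rw [Finset.mul_sum]
      apply Finset.sum_congr rfl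
      intro j _
      simp only [div_eq_mul_inv, mul_inv]
      ring
  rw [Fintype.sum_sigma]
  have h2 : ∀ k : Fin J, ∑ i, ∑ y, c ⟨k, i⟩ * gram J n M ⟨k, i⟩ y * c y
      = ∑ l : Fin J, ∑ i, ∑ j, c ⟨k, i⟩ * gram J n M ⟨k, i⟩ ⟨l, j⟩ * c ⟨l, j⟩ := by
    intro k
    rw [Finset.sum_comm]
    simp only [Fintype.sum_sigma]
    apply Finset.sum_congr rfl
    intro l _
    rw [Finset.sum_comm]
  simp only [h2, h1, Finset.sum_add_distrib]
  rw [Fintype.sum_sigma]
  simp [Finset.sum_sub_distrib]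

lemma gram_bounds (J : ℕ) (n : ℕ → ℕ) (hn : ∀ k, 0 < n k) (M : ℕ → ℕ → ℝ)
    (hM1 : ∀ k, M k k = 1) {t T : ℝ} (ht1 : t ≤ 1) (hT : 1 ≤ T)
    (hQ : ∀ u : Fin J → ℝ, t * ∑ k, u k ^ 2 ≤ ∑ k : Fin J, ∑ l : Fin J, u k * M k l * u l ∧
      ∑ k : Fin J, ∑ l : Fin J, u k * M k l * u l ≤ T * ∑ k, u k ^ 2)
    (c : Idx J n → ℝ) :
    t * ∑ x, c x ^ 2 ≤ ∑ x, ∑ y, c x * gram J n M x y * c y ∧
      ∑ x, ∑ y, c x * gram J n M x y * c y ≤ T * ∑ x, c x ^ 2 := by
  rw [gram_quad J n M hM1]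
  have h1 := hQ (fun k => (∑ i, c ⟨k, i⟩) / √(n k))
  have h2 : ∑ k : Fin J, ((∑ i, c ⟨k, i⟩) / √(n k)) ^ 2 ≤ ∑ x, c x ^ 2 := by
    rw [Fintype.sum_sigma]
    apply Finset.sum_le_sum
    intro k _
    have hk : (0 : ℝ) < n k := by exact_mod_cast hn k
    rw [div_pow, Real.sq_sqrt hk.le, div_le_iff₀ hk]
    have h3 := sq_sum_le_card_mul_sum_sq (s := (Finset.univ : Finset (Fin (n k))))
      (f := fun i => c ⟨k, i⟩)
    rw [Finset.card_univ, Fintype.card_fin] at h3
    linarith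
  constructor
  · nlinarith [h1.1]
  · nlinarith [h1.2]

variable {H : Type*} [NormedAddCommGroup H] [InnerProductSpace ℝ H]

/-- The vector with block coordinates `u`. -/
noncomputable def vec (J : ℕ) (n : ℕ → ℕ) (v : Idx J n → H) (u : ℕ → ℝ) : H :=
  ∑ k : Fin J, (u k / √(n k)) • ∑ i : Fin (n k), v ⟨k, i⟩

/-- The block residual. -/
noncomputable def res (J : ℕ) (M : ℕ → ℕ → ℝ) (u : ℕ → ℝ) (k : ℕ) : ℝ :=
  ∑ l : Fin J, M k l * u l

lemma inner_vec (J : ℕ) (n : ℕ → ℕ) (hn : ∀ k, 0 < n k) (M : ℕ → ℕ → ℝ)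
    (hM : ∀ k l, M k l = M l k) (hM1 : ∀ k, M k k = 1)
    (v : Idx J n → H) (hv : ∀ x y, ⟪v x, v y⟫ = gram J n M x y) (u : ℕ → ℝ) (k : Fin J)
    (i : Fin (n k)) : ⟪vec J n v u, v ⟨k, i⟩⟫ = res J M u k / √(n k) := by
  unfold vec res
  rw [sum_inner, Finset.sum_div]
  apply Finset.sum_congr rfl
  intro l _
  rw [real_inner_smul_left, sum_inner]
  simp only [hv]
  have hl : (0 : ℝ) < n l := by exact_mod_cast hn l
  by_cases hkl : l = k
  · subst hkl
    simp only [gram_block, hM1]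
    simp
  · simp only [gram_ne J n M hkl]
    rw [Finset.sum_const, Finset.card_univ, Fintype.card_fin, nsmul_eq_mul, hM k l]
    have hsl : 0 < √(n l : ℝ) := Real.sqrt_pos.mpr hl
    rw [show (n l : ℝ) = √(n l : ℝ) * √(n l : ℝ) from (Real.mul_self_sqrt hl.le).symm]
    rw [Real.sqrt_mul_self hsl.le]
    have hl' : √(n l : ℝ) ≠ 0 := hsl.ne'
    have hk : (0 : ℝ) < n k := by exact_mod_cast hn k
    have hk' : √(n k : ℝ) ≠ 0 := (Real.sqrt_pos.mpr hk).ne'
    field_simp

lemma res_update (J : ℕ) (M : ℕ → ℕ → ℝ) (u : ℕ → ℝ) (l : Fin J) (r : ℝ) (k : ℕ) :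
    res J M (Function.update u l (u l - r)) k = res J M u k - M k l * r := by
  unfold res
  have h : ∀ l' : Fin J, M k l' * Function.update u (l : ℕ) (u l - r) l'
      = M k l' * u l' - (if l' = l then M k l * r else 0) := by
    intro l'
    by_cases h : l' = l
    · subst h; simp; ring
    · have : (l' : ℕ) ≠ l := fun h2 => h (Fin.ext h2)
      simp [h, this]
  simp only [h, Finset.sum_sub_distrib]
  simp

/-- The sweep of a block is a legal path of the pure greedy algorithm. -/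
theorem sweep (J : ℕ) (n : ℕ → ℕ) (hn : ∀ k, 0 < n k) (M : ℕ → ℕ → ℝ)
    (hM : ∀ k l, M k l = M l k) (hM1 : ∀ k, M k k = 1)
    (v : Idx J n → H) (hv : ∀ x y, ⟪v x, v y⟫ = gram J n M x y) (D : Set H)
    (hvD : ∀ x, v x ∈ D) (hD : ∀ g ∈ D, (∃ x, g = v x) ∨ ∀ x, ⟪v x, g⟫ = 0)
    (u : ℕ → ℝ) (l : Fin J)
    (h1 : ∀ k : Fin J, |res J M u k| / √(n k) ≤ |res J M u l| / √(n l))
    (h2 : ∀ k : Fin J, k ≠ l →
      |res J M u k - M k l * res J M u l| / √(n k) ≤ |res J M u l| / √(n l)) :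
    Reach D (n l) (vec J n v u)
      (vec J n v (Function.update u l (u l - res J M u l))) := by
  classical
  set R := res J M u l with hR
  have hnl : (0 : ℝ) < n l := by exact_mod_cast hn l
  have hsl : 0 < √(n l : ℝ) := Real.sqrt_pos.mpr hnl
  let F : ℕ → H := fun j => vec J n v u -
    (R / √(n l)) • ∑ i ∈ Finset.univ.filter (fun i : Fin (n l) => (i : ℕ) < j), v ⟨l, i⟩
  have hF0 : F 0 = vec J n v u := by simp [F]
  have hFn : F (n l) = vec J n v (Function.update u l (u l - R)) := by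
    have e1 : (Finset.univ.filter (fun i : Fin (n l) => (i : ℕ) < n l)) = Finset.univ := by
      apply Finset.filter_true_of_mem
      intro i _; exact i.2
    simp only [F, e1]
    unfold vec
    have h : ∀ k : Fin J, ((Function.update u (l : ℕ) (u l - R) k) / √(n k)) •
        ∑ i : Fin (n k), v ⟨k, i⟩ = (u k / √(n k)) • ∑ i : Fin (n k), v ⟨k, i⟩
          - (if k = l then (R / √(n l)) • ∑ i : Fin (n l), v ⟨l, i⟩ else 0) := by
      intro k
      by_cases hk : k = l
      · subst hk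
        simp only [Function.update_self, if_true]
        rw [sub_div, sub_smul]
      · have : (k : ℕ) ≠ l := fun h2 => hk (Fin.ext h2)
        simp [hk, this]
    simp only [h, Finset.sum_sub_distrib]
    simp
  -- inner products along the sweep
  have hin_l : ∀ (j : ℕ) (i : Fin (n l)), ⟪F j, v ⟨l, i⟩⟫ = if (i : ℕ) < j then 0 else R / √(n l) := by
    intro j i
    simp only [F]
    rw [inner_sub_left, inner_vec J n hn M hM hM1 v hv, real_inner_smul_left, sum_inner]
    simp only [hv, gram_block]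
    rw [Finset.sum_ite_eq']
    by_cases h : (i : ℕ) < j
    · simp [h, hR]
    · simp [h, hR]
  have hin_k : ∀ (j : ℕ), j ≤ n l → ∀ (k : Fin J), k ≠ l → ∀ (i : Fin (n k)),
      ⟪F j, v ⟨k, i⟩⟫ = (res J M u k - (j / n l : ℝ) * (M k l * R)) / √(n k) := by
    intro j hj k hk i
    simp only [F]
    rw [inner_sub_left, inner_vec J n hn M hM hM1 v hv, real_inner_smul_left, sum_inner]
    simp only [hv, gram_ne J n M (Ne.symm hk)]
    rw [Finset.sum_const, nsmul_eq_mul]
    have hc : (Finset.univ.filter (fun i : Fin (n l) => (i : ℕ) < j)).card = j := by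
      rw [Fin.card_filter_val_lt, min_eq_right hj]
    rw [hc, hM k l, sub_div]
    congr 1
    have hk0 : (0 : ℝ) < n k := by exact_mod_cast hn k
    rw [show (n l : ℝ) = √(n l : ℝ) * √(n l : ℝ) from (Real.mul_self_sqrt hnl.le).symm]
    rw [Real.sqrt_mul_self hsl.le]
    have hk' : √(n k : ℝ) ≠ 0 := (Real.sqrt_pos.mpr hk0).ne'
    have hl' := hsl.ne'
    field_simp
  refine ⟨F, hF0, hFn, ?_⟩
  intro j hj
  have hle : ∀ g ∈ D, |⟪F j, g⟫| ≤ |R| / √(n l) := by
    intro g hg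
    rcases hD g hg with ⟨x, rfl⟩ | h0
    · obtain ⟨k, i⟩ := x
      by_cases hk : k = l
      · subst hk
        rw [hin_l]
        split_ifs
        · simp; positivity
        · rw [abs_div, abs_of_pos hsl]
      · rw [hin_k j hj.le k hk i]
        have hk0 : (0 : ℝ) < n k := by exact_mod_cast hn k
        have hks : 0 < √(n k : ℝ) := Real.sqrt_pos.mpr hk0
        have a1 := h1 k
        have a2 := h2 k hk
        rw [abs_div, abs_of_pos hks]
        set θ : ℝ := (j / n l : ℝ) with hθ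
        have hθ0 : 0 ≤ θ := by positivity
        have hθ1 : θ ≤ 1 := by
          rw [hθ, div_le_one hnl]; exact_mod_cast hj.le
        have e : res J M u k - θ * (M k l * R)
            = (1 - θ) * res J M u k + θ * (res J M u k - M k l * R) := by ring
        have b1 : |res J M u k - θ * (M k l * R)|
            ≤ (1 - θ) * |res J M u k| + θ * |res J M u k - M k l * R| := by
          rw [e]
          refine (abs_add_le _ _).trans ?_
          rw [abs_mul, abs_mul, abs_of_nonneg hθ0, abs_of_nonneg (by linarith : (0 : ℝ) ≤ 1 - θ)]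
        have b2 : |res J M u k - θ * (M k l * R)| / √(n k)
            ≤ (1 - θ) * (|res J M u k| / √(n k)) + θ * (|res J M u k - M k l * R| / √(n k)) := by
          calc |res J M u k - θ * (M k l * R)| / √(n k)
              ≤ ((1 - θ) * |res J M u k| + θ * |res J M u k - M k l * R|) / √(n k) := by
                gcongr
            _ = _ := by ring
        have c1 : (1 - θ) * (|res J M u k| / √(n k)) ≤ (1 - θ) * (|R| / √(n l)) :=
          mul_le_mul_of_nonneg_left a1 (by linarith)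
        have c2 : θ * (|res J M u k - M k l * R| / √(n k)) ≤ θ * (|R| / √(n l)) :=
          mul_le_mul_of_nonneg_left a2 hθ0
        linarith
    · have : ⟪F j, g⟫ = 0 := by
        simp only [F, vec, inner_sub_left, sum_inner, real_inner_smul_left, h0]
        simp
      rw [this]; simp; positivity
  refine ⟨v ⟨l, ⟨j, hj⟩⟩, hvD _, ?_, ?_⟩
  · intro g hg
    have : |⟪F j, v ⟨l, ⟨j, hj⟩⟩⟫| = |R| / √(n l) := by
      rw [hin_l]; simp [abs_div, abs_of_pos hsl]
    rw [this]
    exact hle g hg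
  · rw [hin_l]
    simp only [lt_self_iff_false, if_false]
    simp only [F]
    have : Finset.univ.filter (fun i : Fin (n l) => (i : ℕ) < j + 1)
        = insert (⟨j, hj⟩ : Fin (n l)) (Finset.univ.filter (fun i : Fin (n l) => (i : ℕ) < j)) := by
      ext i
      simp only [Finset.mem_filter, Finset.mem_univ, true_and, Finset.mem_insert, Fin.ext_iff]
      omega
    rw [this, Finset.sum_insert (by simp), smul_add]
    abel

end Pool.Agent.Lib.MP_3cbb73_an.Slow
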