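import Mathlib

set_option autoImplicit false

/-!
# Toeplitz quadratic forms: lower bounds from an approximate spectral factor
-/

namespace Pool.Agent.Lib.MP_3cbb73_an.Slow

open Finset

/-- autocorrelation of a finitely supported sequence -/
noncomputable def acf (L : ℕ) (p : ℕ → ℝ) (k : ℕ) : ℝ := ∑ j ∈ range (L + 1), p j * p (j + k)

/-- The Toeplitz form of an autocorrelation is nonnegative. -/
lemma acf_form_nonneg (L : ℕ) (p : ℕ → ℝ) (hp : ∀ j, L < j → p j = 0) (J : ℕ) (u : Fin J → ℝ) :
    0 ≤ ∑ k : Fin J, ∑ l : Fin J, u k * acf L p ((k : ℤ) - l).natAbs * u l := by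
  -- `P k m = p (m - k)` for `m ≥ k`
  let P : ℕ → ℕ → ℝ := fun k m => if k ≤ m then p (m - k) else 0
  have key : ∀ k l : ℕ, k < J → l < J → acf L p ((k : ℤ) - l).natAbs
      = ∑ m ∈ range (J + L + 1), P k m * P l m := by
    have aux : ∀ k l : ℕ, k < J → l < J → l ≤ k → acf L p (k - l)
        = ∑ m ∈ range (J + L + 1), P k m * P l m := by
      intro k l hk hl hlk
      unfold acf
      -- m = k + j
      have h1 : ∑ m ∈ range (J + L + 1), P k m * P l m
          = ∑ m ∈ Finset.Ico k (J + L + 1), P k m * P l m := by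
        symm
        apply Finset.sum_subset
        · intro x hx
          rw [Finset.mem_Ico] at hx
          rw [Finset.mem_range]; exact hx.2
        · intro x _ hx
          have : ¬ k ≤ x ∨ ¬ x < J + L + 1 := by
            rw [Finset.mem_Ico] at hx; tauto
          rcases this with h | h
          · simp [P, h]
          · rw [Finset.mem_range] at *; omega
      rw [h1, Finset.sum_Ico_eq_sum_range]
      have h2 : range (L + 1) ⊆ range (J + L + 1 - k) := by
        intro x hx; rw [Finset.mem_range] at *; omega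
      rw [← Finset.sum_subset h2]
      · apply Finset.sum_congr rfl
        intro j _
        simp only [P]
        rw [if_pos (by omega), if_pos (by omega)]
        congr 2 <;> omega
      · intro x _ hx
        rw [Finset.mem_range, not_lt] at hx
        simp only [P]
        rw [if_pos (by omega), hp _ (by omega), zero_mul]
    intro k l hk hl
    rcases le_total l k with h | h
    · rw [← aux k l hk hl h]
      congr 1; omega
    · have := aux l k hl hk h
      rw [show (∑ m ∈ range (J + L + 1), P k m * P l m)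
        = ∑ m ∈ range (J + L + 1), P l m * P k m from
          Finset.sum_congr rfl (fun _ _ => mul_comm _ _), ← this]
      congr 1; omega
  have h : ∑ k : Fin J, ∑ l : Fin J, u k * acf L p ((k : ℤ) - l).natAbs * u l
      = ∑ m ∈ range (J + L + 1), (∑ k : Fin J, u k * P k m) ^ 2 := by
    have e1 : ∀ m, (∑ k : Fin J, u k * P k m) ^ 2
        = ∑ k : Fin J, ∑ l : Fin J, u k * (P k m * P l m) * u l := by
      intro m
      rw [pow_two, Finset.sum_mul]
      apply Finset.sum_congr rfl
      intro k _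
      rw [Finset.mul_sum]
      apply Finset.sum_congr rfl
      intro l _
      ring
    simp only [e1]
    rw [Finset.sum_comm (s := range (J + L + 1))]
    apply Finset.sum_congr rfl
    intro k _
    rw [Finset.sum_comm (s := range (J + L + 1))]
    apply Finset.sum_congr rfl
    intro l _
    rw [key k l k.2 l.2, Finset.mul_sum, Finset.sum_mul]
  rw [h]
  exact Finset.sum_nonneg (fun _ _ => sq_nonneg _)

/-- Schur test for a finitely supported Toeplitz matrix. -/
lemma toeplitz_abs_le (L : ℕ) (h : ℕ → ℝ) (hh : ∀ k, L < k → h k = 0) (J : ℕ) (u : Fin J → ℝ) :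
    |∑ k : Fin J, ∑ l : Fin J, u k * h ((k : ℤ) - l).natAbs * u l|
      ≤ (|h 0| + 2 * ∑ d ∈ range L, |h (d + 1)|) * ∑ k, u k ^ 2 := by
  set B := |h 0| + 2 * ∑ d ∈ range L, |h (d + 1)| with hB
  have hB0 : 0 ≤ B := by positivity
  -- row sums
  have row : ∀ k : ℕ, k < J → ∑ l : Fin J, |h ((k : ℤ) - l).natAbs| ≤ B := by
    intro k _
    rw [Fin.sum_univ_eq_sum_range (fun l => |h ((k : ℤ) - l).natAbs|) J]
    have e1 : ∀ l ∈ range J, |h ((k : ℤ) - l).natAbs|
        = ∑ d ∈ range (L + 1), if ((k : ℤ) - l).natAbs = d then |h d| else 0 := by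
      intro l _
      rw [Finset.sum_ite_eq]
      split_ifs with hd
      · rfl
      · rw [Finset.mem_range, not_lt] at hd
        rw [hh _ (by omega)]; simp
    rw [Finset.sum_congr rfl e1, Finset.sum_comm, Finset.sum_range_succ', hB]
    have e2 : ∀ d, ∑ l ∈ range J, (if ((k : ℤ) - l).natAbs = d then |h d| else 0)
        = ((range J).filter (fun l : ℕ => ((k : ℤ) - l).natAbs = d)).card * |h d| := by
      intro d
      rw [← Finset.sum_filter, Finset.sum_const, nsmul_eq_mul]
    simp only [e2]
    have c0 : ((range J).filter (fun l : ℕ => ((k : ℤ) - l).natAbs = 0)).card ≤ 1 := by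
      rw [Finset.card_le_one]
      intro x hx y hy
      simp only [Finset.mem_filter] at hx hy
      omega
    have c1 : ∀ d, ((range J).filter (fun l : ℕ => ((k : ℤ) - l).natAbs = d + 1)).card ≤ 2 := by
      intro d
      have hsub : (range J).filter (fun l : ℕ => ((k : ℤ) - l).natAbs = d + 1)
          ⊆ {k - (d + 1), k + (d + 1)} := by
        intro x hx
        simp only [Finset.mem_filter, Finset.mem_insert, Finset.mem_singleton] at *
        omega
      exact (Finset.card_le_card hsub).trans Finset.card_le_two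
    have f0 : (((range J).filter (fun l : ℕ => ((k : ℤ) - l).natAbs = 0)).card : ℝ) * |h 0|
        ≤ |h 0| := by
      have : (((range J).filter (fun l : ℕ => ((k : ℤ) - l).natAbs = 0)).card : ℝ) ≤ 1 := by
        exact_mod_cast c0
      nlinarith [abs_nonneg (h 0)]
    have f1 : ∑ d ∈ range L, (((range J).filter
        (fun l : ℕ => ((k : ℤ) - l).natAbs = d + 1)).card : ℝ) * |h (d + 1)|
        ≤ 2 * ∑ d ∈ range L, |h (d + 1)| := by
      rw [Finset.mul_sum]
      apply Finset.sum_le_sum
      intro d _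
      have : (((range J).filter (fun l : ℕ => ((k : ℤ) - l).natAbs = d + 1)).card : ℝ) ≤ 2 := by
        exact_mod_cast c1 d
      exact mul_le_mul_of_nonneg_right this (abs_nonneg _)
    linarith
  -- Schur test
  have h1 : |∑ k : Fin J, ∑ l : Fin J, u k * h ((k : ℤ) - l).natAbs * u l|
      ≤ ∑ k : Fin J, ∑ l : Fin J, (|h ((k : ℤ) - l).natAbs| * (u k ^ 2 / 2)
        + |h ((k : ℤ) - l).natAbs| * (u l ^ 2 / 2)) := by
    refine (Finset.abs_sum_le_sum_abs _ _).trans ?_
    apply Finset.sum_le_sum
    intro k _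
    refine (Finset.abs_sum_le_sum_abs _ _).trans ?_
    apply Finset.sum_le_sum
    intro l _
    rw [abs_mul, abs_mul]
    have h2 : |u k| * |u l| ≤ u k ^ 2 / 2 + u l ^ 2 / 2 := by
      nlinarith [sq_nonneg (|u k| - |u l|), sq_abs (u k), sq_abs (u l)]
    have h3 := abs_nonneg (h ((k : ℤ) - l).natAbs)
    calc |u k| * |h ((k : ℤ) - l).natAbs| * |u l|
        = |h ((k : ℤ) - l).natAbs| * (|u k| * |u l|) := by ring
      _ ≤ |h ((k : ℤ) - l).natAbs| * (u k ^ 2 / 2 + u l ^ 2 / 2) :=
          mul_le_mul_of_nonneg_left h2 h3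
      _ = _ := by ring
  refine h1.trans ?_
  simp only [Finset.sum_add_distrib]
  have h2 : ∑ k : Fin J, ∑ l : Fin J, |h ((k : ℤ) - l).natAbs| * (u k ^ 2 / 2)
      ≤ B * ∑ k, u k ^ 2 / 2 := by
    rw [Finset.mul_sum]
    apply Finset.sum_le_sum
    intro k _
    rw [← Finset.sum_mul]
    exact mul_le_mul_of_nonneg_right (row k k.2) (by positivity)
  have h3 : ∑ k : Fin J, ∑ l : Fin J, |h ((k : ℤ) - l).natAbs| * (u l ^ 2 / 2)
      ≤ B * ∑ k, u k ^ 2 / 2 := by
    rw [Finset.sum_comm, Finset.mul_sum]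
    apply Finset.sum_le_sum
    intro l _
    rw [← Finset.sum_mul]
    apply mul_le_mul_of_nonneg_right _ (by positivity)
    refine le_trans (le_of_eq ?_) (row l l.2)
    apply Finset.sum_congr rfl
    intro k _
    congr 2
    omega
  have h4 : ∑ k : Fin J, u k ^ 2 / 2 = (∑ k, u k ^ 2) / 2 := by rw [Finset.sum_div]
  rw [h4] at h2 h3
  linarith

/-- Lower bound of a Toeplitz form by an approximate spectral factor. -/
lemma toeplitz_lower (L : ℕ) (g p : ℕ → ℝ) (hp : ∀ j, L < j → p j = 0)
    (hg : ∀ k, L < k → g k = 0) {t : ℝ}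
    (ht : t + acf L p 0 + 2 * ∑ d ∈ range L, |g (d + 1) - acf L p (d + 1)| ≤ g 0)
    (J : ℕ) (u : Fin J → ℝ) :
    t * ∑ k, u k ^ 2 ≤ ∑ k : Fin J, ∑ l : Fin J, u k * g ((k : ℤ) - l).natAbs * u l := by
  have hA : ∀ k, L < k → acf L p k = 0 := by
    intro k hk
    unfold acf
    apply Finset.sum_eq_zero
    intro j _
    rw [hp (j + k) (by omega), mul_zero]
  -- h = g - acf - (g 0 - acf 0) δ₀
  let h : ℕ → ℝ := fun k => if k = 0 then 0 else g k - acf L p k
  have h1 := toeplitz_abs_le L h (fun k hk => by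
    simp only [h]; rw [if_neg (by omega), hg k hk, hA k hk, sub_zero]) J u
  have h2 := acf_form_nonneg L p hp J u
  have e0 : |h 0| = 0 := by simp [h]
  have e1 : ∀ d, |h (d + 1)| = |g (d + 1) - acf L p (d + 1)| := by intro d; simp [h]
  rw [e0] at h1
  simp only [e1] at h1
  have h3 : ∑ k : Fin J, ∑ l : Fin J, u k * g ((k : ℤ) - l).natAbs * u l
      = (g 0 - acf L p 0) * ∑ k, u k ^ 2
        + ∑ k : Fin J, ∑ l : Fin J, u k * acf L p ((k : ℤ) - l).natAbs * u l
        + ∑ k : Fin J, ∑ l : Fin J, u k * h ((k : ℤ) - l).natAbs * u l := by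
    have e2 : (g 0 - acf L p 0) * ∑ k : Fin J, u k ^ 2
        = ∑ k : Fin J, ∑ l : Fin J, if k = l then (g 0 - acf L p 0) * (u k * u l) else 0 := by
      rw [Finset.mul_sum]
      apply Finset.sum_congr rfl
      intro k _
      rw [Finset.sum_ite_eq, if_pos (Finset.mem_univ _)]
      ring
    rw [e2, ← Finset.sum_add_distrib, ← Finset.sum_add_distrib]
    apply Finset.sum_congr rfl
    intro k _
    rw [← Finset.sum_add_distrib, ← Finset.sum_add_distrib]
    apply Finset.sum_congr rfl
    intro l _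
    by_cases hkl : k = l
    · subst hkl
      simp [h]
      ring
    · have : ((k : ℤ) - l).natAbs ≠ 0 := by
        intro h4
        apply hkl
        apply Fin.ext
        omega
      simp only [h, if_neg hkl, if_neg this]
      ring
  rw [h3]
  have hs : 0 ≤ ∑ k, u k ^ 2 := Finset.sum_nonneg (fun _ _ => sq_nonneg _)
  have h4 := (abs_le.mp h1).1
  nlinarith [mul_le_mul_of_nonneg_right ht hs]

/-- Diagonally dominant systems. -/
lemma exists_solution {n : ℕ} (C : Fin n → Fin n → ℝ) {κ β : ℝ} (hκ : 0 < κ)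
    (hC : ∀ s, ∑ j, |C s j - if s = j then κ else 0| ≤ κ / 2) (b : Fin n → ℝ)
    (hb : ∀ s, |b s| ≤ β) (hβ : 0 ≤ β) :
    ∃ z : Fin n → ℝ, (∀ s, ∑ j, C s j * z j = b s) ∧ ∀ j, |z j| ≤ 2 * β / κ := by
  classical
  let M : Matrix (Fin n) (Fin n) ℝ := fun s j => C s j
  have hdiag : ∀ s, ∑ j ∈ Finset.univ.erase s, |C s j| + κ / 2 ≤ |C s s| := by
    intro s
    have h1 := hC s
    rw [← Finset.add_sum_erase _ _ (Finset.mem_univ s)] at h1
    rw [if_pos rfl] at h1
    have h2 : ∑ j ∈ Finset.univ.erase s, |C s j - if s = j then κ else 0|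
        = ∑ j ∈ Finset.univ.erase s, |C s j| := by
      apply Finset.sum_congr rfl
      intro j hj
      rw [if_neg (Ne.symm (Finset.ne_of_mem_erase hj)), sub_zero]
    rw [h2] at h1
    have h3 : κ - |C s s - κ| ≤ |C s s| := by
      have := abs_sub_abs_le_abs_sub κ (C s s)
      rw [abs_of_pos hκ, abs_sub_comm] at this
      linarith
    linarith
  have hdet : M.det ≠ 0 := by
    apply det_ne_zero_of_sum_row_lt_diag
    intro k
    simp only [Real.norm_eq_abs]
    have := hdiag k
    simp only [M]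
    linarith
  have hU : IsUnit M.det := isUnit_iff_ne_zero.mpr hdet
  refine ⟨M⁻¹.mulVec b, ?_, ?_⟩
  · intro s
    have h1 : M.mulVec (M⁻¹.mulVec b) = b := by
      rw [Matrix.mulVec_mulVec, Matrix.mul_nonsing_inv M hU, Matrix.one_mulVec]
    have := congrFun h1 s
    simpa [Matrix.mulVec, dotProduct, M] using this
  · set z := M⁻¹.mulVec b with hz
    have h1 : ∀ s, ∑ j, C s j * z j = b s := by
      intro s
      have h1 : M.mulVec z = b := by
        rw [hz, Matrix.mulVec_mulVec, Matrix.mul_nonsing_inv M hU, Matrix.one_mulVec]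
      have := congrFun h1 s
      simpa [Matrix.mulVec, dotProduct, M] using this
    intro j
    have : Nonempty (Fin n) := ⟨j⟩
    obtain ⟨i, hi⟩ := Finite.exists_max (fun j => |z j|)
    refine (hi j).trans ?_
    have h2 := h1 i
    rw [← Finset.add_sum_erase _ _ (Finset.mem_univ i)] at h2
    have h3 : |∑ j ∈ Finset.univ.erase i, C i j * z j|
        ≤ (∑ j ∈ Finset.univ.erase i, |C i j|) * |z i| := by
      refine (Finset.abs_sum_le_sum_abs _ _).trans ?_
      rw [Finset.sum_mul]
      apply Finset.sum_le_sum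
      intro j _
      rw [abs_mul]
      exact mul_le_mul_of_nonneg_left (hi j) (abs_nonneg _)
    have h4 : |C i i * z i| ≤ |b i| + |∑ j ∈ Finset.univ.erase i, C i j * z j| := by
      have : C i i * z i = b i - ∑ j ∈ Finset.univ.erase i, C i j * z j := by linarith
      rw [this]
      exact abs_sub _ _
    rw [abs_mul] at h4
    have h5 := hdiag i
    have h6 := hb i
    rw [le_div_iff₀ hκ]
    nlinarith [abs_nonneg (z i)]

end Pool.Agent.Lib.MP_3cbb73_an.Slow
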