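import Pool.Agent.Lib.MP_3cbb73_an.Slow.Table
import Pool.Agent.Lib.MP_3cbb73_an.Slow.Quad

set_option autoImplicit false

/-!
# From checked data to a self-similar schedule
-/

namespace Pool.Agent.Lib.MP_3cbb73_an.Slow

open Finset

/-- scalar product of lists -/
def dot : List ℤ → List ℤ → ℤ
  | x :: xs, y :: ys => x * y + dot xs ys
  | _, _ => 0

/-- list of autocorrelations -/
def acs (p : List ℤ) : List ℤ → List ℤ
  | [] => []
  | x :: xs => dot p (x :: xs) :: acs p xs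

/-- sum of absolute differences -/
def sad : List ℤ → List ℤ → ℕ
  | x :: xs, y :: ys => (x - y).natAbs + sad xs ys
  | _, _ => 0

/-- sum of absolute sums -/
def sas : List ℤ → List ℤ → ℕ
  | x :: xs, y :: ys => (x + y).natAbs + sas xs ys
  | _, _ => 0

/-- row sums of the deviation from `κ0 • 1` -/
def rowS (κ0 : ℤ) (s : ℕ) : ℕ → List (List ℤ) → ℕ
  | _, [] => 0
  | j, W :: Ws => (W.getD s 0 - if s = j then κ0 else 0).natAbs + rowS κ0 s (j + 1) Ws

/-- strictly decreasing thresholds -/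
def chkDec (dd : ℕ) : List (ℕ × ℤ) → Bool
  | x :: y :: rest => Nat.ble ((y.2.natAbs + 1) * dd) ((dd - 1) * (x.2.natAbs - 1)) &&
      chkDec dd (y :: rest)
  | _ => true

/-- scaled sum `∑ sg_s p^{a_s} q^{I - a_s}` -/
def sumRule (p q I : ℕ) : List (ℕ × ℤ) → ℤ
  | [] => 0
  | x :: rest => x.2 * ((p ^ x.1 * q ^ (I - x.1) : ℕ) : ℤ) + sumRule p q I rest

/-- all data of the certificate -/
structure Dat extends Sch where
  G : List ℤ
  dirs : List (List ℤ)
  pf : List ℤ
  pf' : List ℤ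
  r : ℕ
  sx : ℕ
  dd : ℕ
  tol : ℕ
  bs : ℕ
  eY : ℕ
  κ0 : ℕ
  zd : ℕ
  cD : ℕ
  eG : ℕ
  tC : ℕ
  TC : ℕ
  kn : ℕ
  kd : ℕ

namespace Dat

variable (D : Dat)

/-- total error -/
def eT : ℕ := D.eY + D.st.length * (D.c * (1 + D.Vm))

/-- check of the parameters -/
def chkPar : Bool :=
  Nat.blt 0 D.Q && Nat.blt D.Q D.P && Nat.blt 0 D.p && Nat.blt D.p D.q && Nat.blt 1 D.dd &&
  (D.c == D.r * D.r) && Nat.blt 0 D.r &&
  Nat.ble (D.P ^ D.L) (D.Vm * D.Q ^ D.L) &&
  D.st.all (fun x => Nat.ble x.1 D.I && Nat.ble x.2.natAbs D.c && Nat.blt 1 x.2.natAbs) &&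
  Nat.blt 0 D.st.length && Nat.blt D.sx D.st.length &&
  ((D.st.getD 0 (0, 0)).1 == 0) && ((D.st.getD 0 (0, 0)).2.natAbs == D.c) &&
  D.st.tail.all (fun x => Nat.ble 1 x.1) &&
  chkDec D.dd D.st &&
  Nat.ble (D.p * (D.c + 1) * D.dd)
    (D.q * (D.dd - 1) * ((D.st.getD (D.st.length - 1) (0, 0)).2.natAbs - 1)) &&
  Nat.ble (sumRule D.p D.q D.I D.st).natAbs
    (D.p ^ (D.st.getD D.sx (0, 0)).1 * D.q ^ (D.I - (D.st.getD D.sx (0, 0)).1)) &&
  Nat.blt 0 D.kd &&
  Nat.ble (D.Q ^ (D.kd + 2 * D.kn) * D.q ^ D.kd) (D.p ^ D.kd * D.P ^ (D.kd + 2 * D.kn))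

/-- check of a kernel list -/
def okKer (G : List ℤ) : Bool :=
  (G.length == D.L + 1) && G.all (fun x => Nat.ble x.natAbs D.c)

/-- check of the main table -/
def chkMain : Bool :=
  D.okKer D.G && (D.G.getD 0 0 == (D.c : ℤ)) &&
  ((D.toSch.R0 D.G).length == D.I + 2 * D.L + 1) &&
  Sch.chkSt D.L (vlist D.P D.Q D.G) D.c D.tol D.bs D.st (D.toSch.R0 D.G)

/-- the diagonal list of a direction -/
def Wl (G : List ℤ) : List ℤ := Sch.diagL D.L (vlist D.P D.Q G) D.st (D.toSch.R0 G)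

/-- check of the directions -/
def chkDirs : Bool :=
  (D.dirs.length == D.st.length) &&
  D.dirs.all (fun G => D.okKer G && (G.getD 0 0 == 0) &&
    ((D.toSch.R0 G).length == D.I + 2 * D.L + 1)) &&
  (let Ws := D.dirs.map D.Wl
   (List.range D.st.length).all (fun s =>
     Nat.ble (2 * (rowS D.κ0 s 0 Ws + D.st.length * D.eT)) D.κ0))

/-- check of the constants -/
def chkCst : Bool :=
  Nat.blt 0 D.zd && Nat.blt 0 D.κ0 &&
  Nat.ble (D.q * (1 + D.st.length * (D.c * (1 + D.Vm)))) ((D.q - D.p) * D.eY) &&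
  Nat.ble (2 * (D.c + D.tol + D.eT) * D.zd) D.κ0 &&
  Nat.ble (D.c * D.c * (D.st.length * ((D.I + 1) * (4 * D.st.length * D.Vm)))) (D.cD * D.zd) &&
  Nat.ble (D.st.length * D.c) (D.eG * D.zd) &&
  D.st.all (fun x => Nat.ble (D.dd * (x.2.natAbs * D.bs + D.eT + D.cD))
    ((D.dd - 1) * D.c * (x.2.natAbs - 1)))

/-- check of the quadratic form -/
def chkQuad : Bool :=
  (D.pf.length == D.L + 1) && (D.pf'.length == D.L + 1) && Nat.blt 0 D.tC &&
  Nat.ble D.tC D.c && Nat.ble D.c D.TC &&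
  decide ((D.tC : ℤ) + (acs D.pf D.pf).getD 0 0
    + 2 * (sad D.G.tail (acs D.pf D.pf).tail + D.L * D.eG : ℕ) ≤ D.c) &&
  decide ((acs D.pf' D.pf').getD 0 0
    + 2 * (sas D.G.tail (acs D.pf' D.pf').tail + D.L * D.eG : ℕ) + D.c ≤ D.TC)

/-- the real thresholds -/
noncomputable def σ (s : ℕ) : ℝ :=
  if s = D.sx then
    -(∑ s' ∈ (range D.N).erase D.sx, (D.sg s' : ℝ) / D.c * D.ρ ^ D.a s') / D.ρ ^ D.a D.sx
  else (D.sg s : ℝ) / D.c

lemma natAbs_cast (x : ℤ) : ((x.natAbs : ℕ) : ℝ) = |(x : ℝ)| := by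
  rw [← Int.cast_abs, Int.abs_eq_natAbs]; simp

lemma getD_all {α : Type*} (l : List α) (d : α) (f : α → Bool) (h : l.all f = true) (s : ℕ)
    (hs : s < l.length) : f (l.getD s d) = true := by
  rw [List.all_eq_true] at h
  apply h
  rw [List.getD_eq_getElem _ _ hs]
  exact List.getElem_mem hs

lemma sumRule_eq (p q I : ℕ) (hq : 0 < q) : ∀ (st : List (ℕ × ℤ)),
    (∀ s, s < st.length → (st.getD s (0, 0)).1 ≤ I) →
    ((sumRule p q I st : ℤ) : ℝ) = (q : ℝ) ^ I *
      ∑ s ∈ range st.length, ((st.getD s (0, 0)).2 : ℝ) * ((p : ℝ) / q) ^ (st.getD s (0, 0)).1 := by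
  intro st
  induction st with
  | nil => intro _; simp [sumRule]
  | cons x st ih =>
    intro h
    have h0 : x.1 ≤ I := by simpa using h 0 (by simp)
    have ih' := ih (fun s hs => by simpa using h (s + 1) (by simpa using hs))
    have hq' : (q : ℝ) ≠ 0 := by exact_mod_cast hq.ne'
    rw [List.length_cons, Finset.sum_range_succ', mul_add]
    simp only [List.getD_cons_succ, List.getD_cons_zero]
    rw [← ih']
    simp only [sumRule]
    push_cast
    have : (q : ℝ) ^ I * ((x.2 : ℝ) * ((p : ℝ) / q) ^ x.1)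
        = x.2 * ((p : ℝ) ^ x.1 * (q : ℝ) ^ (I - x.1)) := by
      rw [div_pow]
      have e : (q : ℝ) ^ I = (q : ℝ) ^ (I - x.1) * (q : ℝ) ^ x.1 := by
        rw [← pow_add]; congr 1; omega
      rw [e]
      field_simp
    rw [this]
    ring

/-- unpacked parameter check -/
structure Par : Prop where
  hQ : 0 < D.Q
  hQP : D.Q < D.P
  hp : 0 < D.p
  hpq : D.p < D.q
  hdd : 1 < D.dd
  hr : D.c = D.r * D.r
  hr0 : 0 < D.r
  hVm : D.P ^ D.L ≤ D.Vm * D.Q ^ D.L
  hst : ∀ s, s < D.N → D.a s ≤ D.I ∧ (D.sg s).natAbs ≤ D.c ∧ 1 < (D.sg s).natAbs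
  hN : 0 < D.N
  hsx : D.sx < D.N
  ha0 : D.a 0 = 0
  hs0 : (D.sg 0).natAbs = D.c
  ha1 : ∀ s, s + 1 < D.N → 1 ≤ D.a (s + 1)
  hdec : chkDec D.dd D.st = true
  hlast : D.p * (D.c + 1) * D.dd ≤ D.q * (D.dd - 1) * ((D.sg (D.N - 1)).natAbs - 1)
  hsum : (sumRule D.p D.q D.I D.st).natAbs ≤ D.p ^ D.a D.sx * D.q ^ (D.I - D.a D.sx)
  hkd : 0 < D.kd
  hk : D.Q ^ (D.kd + 2 * D.kn) * D.q ^ D.kd ≤ D.p ^ D.kd * D.P ^ (D.kd + 2 * D.kn)

lemma blt_iff (a b : ℕ) (h : Nat.blt a b = true) : a < b := by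
  unfold Nat.blt at h
  exact Nat.le_of_ble_eq_true h

lemma par_of (h : D.chkPar = true) : D.Par := by
  simp only [chkPar, Bool.and_eq_true] at h
  obtain ⟨⟨⟨⟨⟨⟨⟨⟨⟨⟨⟨⟨⟨⟨⟨⟨⟨⟨h1, h2⟩, h3⟩, h4⟩, h5⟩, h6⟩, h7⟩, h8⟩, h9⟩, h10⟩, h11⟩, h12⟩, h13⟩,
    h14⟩, h15⟩, h16⟩, h17⟩, h18⟩, h19⟩ := h
  refine ⟨blt_iff _ _ h1, blt_iff _ _ h2, blt_iff _ _ h3, blt_iff _ _ h4, blt_iff _ _ h5,
    by simpa using h6, blt_iff _ _ h7, Nat.le_of_ble_eq_true h8, ?_, blt_iff _ _ h10,
    blt_iff _ _ h11, eq_of_beq h12, eq_of_beq h13, ?_, h15, Nat.le_of_ble_eq_true h16,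
    Nat.le_of_ble_eq_true h17, blt_iff _ _ h18, Nat.le_of_ble_eq_true h19⟩
  · intro s hs
    have := getD_all D.st (0, 0) _ h9 s hs
    simp only [Bool.and_eq_true] at this
    exact ⟨Nat.le_of_ble_eq_true this.1.1, Nat.le_of_ble_eq_true this.1.2, blt_iff _ _ this.2⟩
  · intro s hs
    have h20 := getD_all D.st.tail (0, 0) _ h14 s (by
      rw [List.length_tail]
      have : D.N = D.st.length := rfl
      omega)
    have e : D.st.tail.getD s (0, 0) = D.st.getD (s + 1) (0, 0) := by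
      cases hst : D.st with
      | nil => simp
      | cons x xs => simp
    rw [e] at h20
    exact Nat.le_of_ble_eq_true h20

variable {D}

lemma Par.c_pos (h : D.Par) : 0 < D.c := by rw [h.hr]; exact Nat.mul_pos h.hr0 h.hr0

lemma Par.valid (h : D.Par) : D.toSch.Valid D.σ := by
  have hc : (0 : ℝ) < D.c := by exact_mod_cast h.c_pos
  have hq : 0 < D.q := h.hp.trans h.hpq
  have hqr : (0 : ℝ) < D.q := by exact_mod_cast hq
  have hpr : (0 : ℝ) < D.p := by exact_mod_cast h.hp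
  have hρ : 0 < D.ρ := by unfold Sch.ρ; positivity
  refine ⟨h.hQ, h.hQP, h.hp, h.hpq, h.c_pos, h.hVm, fun s hs => (h.hst s hs).1, ?_, ?_, ?_⟩
  · intro s hs
    unfold σ
    split_ifs with hsx
    · subst hsx
      have h1 := sumRule_eq D.p D.q D.I hq D.st (fun s hs => (h.hst s hs).1)
      have h2 : |((sumRule D.p D.q D.I D.st : ℤ) : ℝ)|
          ≤ (D.p : ℝ) ^ D.a D.sx * (D.q : ℝ) ^ (D.I - D.a D.sx) := by
        rw [← natAbs_cast]; exact_mod_cast h.hsum
      have h3 : ∑ s ∈ range D.st.length, ((D.st.getD s (0, 0)).2 : ℝ) *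
          ((D.p : ℝ) / D.q) ^ (D.st.getD s (0, 0)).1
          = ∑ s ∈ range D.N, (D.sg s : ℝ) * D.ρ ^ D.a s := rfl
      rw [h3] at h1
      rw [h1, abs_mul, abs_of_pos (by positivity)] at h2
      have h4 : |∑ s ∈ range D.N, (D.sg s : ℝ) * D.ρ ^ D.a s| ≤ D.ρ ^ D.a D.sx := by
        have hqI : (0 : ℝ) < (D.q : ℝ) ^ D.I := by positivity
        have e : (D.p : ℝ) ^ D.a D.sx * (D.q : ℝ) ^ (D.I - D.a D.sx)
            = (D.q : ℝ) ^ D.I * D.ρ ^ D.a D.sx := by
          unfold Sch.ρ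
          have ha := (h.hst _ hs).1
          have e1 : (D.q : ℝ) ^ D.I = (D.q : ℝ) ^ (D.I - D.a D.sx) * (D.q : ℝ) ^ D.a D.sx := by
            rw [← pow_add]; congr 1; omega
          rw [e1, div_pow]
          field_simp
        rw [e] at h2
        exact le_of_mul_le_mul_left h2 hqI
      rw [← Finset.add_sum_erase _ _ (Finset.mem_range.mpr hs)] at h4
      have hρa : 0 < D.ρ ^ D.a D.sx := by positivity
      have e5 : (D.sg D.sx : ℝ) - D.c * (-(∑ s' ∈ (range D.N).erase D.sx,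
          (D.sg s' : ℝ) / D.c * D.ρ ^ D.a s') / D.ρ ^ D.a D.sx)
          = ((D.sg D.sx : ℝ) * D.ρ ^ D.a D.sx + ∑ s' ∈ (range D.N).erase D.sx,
            (D.sg s' : ℝ) * D.ρ ^ D.a s') / D.ρ ^ D.a D.sx := by
        have e6 : ∑ s' ∈ (range D.N).erase D.sx, (D.sg s' : ℝ) / D.c * D.ρ ^ D.a s'
            = (∑ s' ∈ (range D.N).erase D.sx, (D.sg s' : ℝ) * D.ρ ^ D.a s') / D.c := by
          rw [Finset.sum_div]
          apply Finset.sum_congr rfl
          intro s' _
          ring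
        rw [e6]
        field_simp
        ring
      rw [e5, abs_div, abs_of_pos hρa, div_le_one hρa]
      exact h4
    · have : (D.c : ℝ) * ((D.sg s : ℝ) / D.c) = D.sg s := by field_simp
      rw [this]; simp
  · intro s hs
    have := (h.hst s hs).2.1
    rw [Int.abs_eq_natAbs]
    exact_mod_cast this
  · rw [← Finset.add_sum_erase _ _ (Finset.mem_range.mpr h.hsx)]
    have e1 : D.σ D.sx = -(∑ s' ∈ (range D.N).erase D.sx, (D.sg s' : ℝ) / D.c * D.ρ ^ D.a s')
        / D.ρ ^ D.a D.sx := by unfold σ; rw [if_pos rfl]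
    have e2 : ∑ s ∈ (range D.N).erase D.sx, D.σ s * D.ρ ^ D.a s
        = ∑ s' ∈ (range D.N).erase D.sx, (D.sg s' : ℝ) / D.c * D.ρ ^ D.a s' := by
      apply Finset.sum_congr rfl
      intro s hs
      unfold σ
      rw [if_neg (Finset.ne_of_mem_erase hs)]
    rw [e1, e2]
    have hρa : D.ρ ^ D.a D.sx ≠ 0 := by positivity
    field_simp
    ring

/-- comparison of the real and the integer thresholds -/
lemma Par.sig_bounds (h : D.Par) {s : ℕ} (hs : s < D.N) :
    ((D.sg s).natAbs : ℝ) - 1 ≤ D.c * |D.σ s| ∧ D.c * |D.σ s| ≤ ((D.sg s).natAbs : ℝ) + 1 := by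
  have h1 := h.valid.hsg s hs
  have hc : (0 : ℝ) < D.c := by exact_mod_cast h.c_pos
  have h2 : D.c * |D.σ s| = |D.c * D.σ s| := by rw [abs_mul, abs_of_pos hc]
  rw [h2, natAbs_cast]
  have h3 := abs_sub_abs_le_abs_sub (D.sg s : ℝ) (D.c * D.σ s)
  have h4 := abs_sub_abs_le_abs_sub (D.c * D.σ s) (D.sg s : ℝ)
  rw [abs_sub_comm] at h4
  constructor <;> linarith

lemma chkDec_spec (dd : ℕ) : ∀ (st : List (ℕ × ℤ)), chkDec dd st = true → ∀ s,
    s + 1 < st.length → ((st.getD (s + 1) (0, 0)).2.natAbs + 1) * dd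
      ≤ (dd - 1) * ((st.getD s (0, 0)).2.natAbs - 1) := by
  intro st
  induction st with
  | nil => intro _ s hs; simp at hs
  | cons x st ih =>
    cases st with
    | nil => intro _ s hs; simp at hs
    | cons y rest =>
      intro h s hs
      simp only [chkDec, Bool.and_eq_true] at h
      cases s with
      | zero =>
        simp only [Nat.zero_add, List.getD_cons_succ, List.getD_cons_zero]
        exact Nat.le_of_ble_eq_true h.1
      | succ s =>
        simp only [List.getD_cons_succ]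
        have := ih h.2 s (by simpa using hs)
        simpa using this

lemma Par.dec (h : D.Par) {s : ℕ} (hs : s + 1 < D.N) :
    |D.σ (s + 1)| ≤ (1 - 1 / (D.dd : ℝ)) * |D.σ s| := by
  have h1 := chkDec_spec D.dd D.st h.hdec s hs
  have h2 := (h.sig_bounds (show s < D.N by omega)).1
  have h3 := (h.sig_bounds hs).2
  have hc : (0 : ℝ) < D.c := by exact_mod_cast h.c_pos
  have hd : (1 : ℝ) < D.dd := by exact_mod_cast h.hdd
  have h4 : (((D.sg (s + 1)).natAbs : ℝ) + 1) * D.dd ≤ (D.dd - 1) * (((D.sg s).natAbs : ℝ) - 1) := by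
    have e1 : ((D.dd - 1 : ℕ) : ℝ) = D.dd - 1 := by
      have := h.hdd
      push_cast [show 1 ≤ D.dd by omega]; ring
    have e2 : (((D.sg s).natAbs - 1 : ℕ) : ℝ) = ((D.sg s).natAbs : ℝ) - 1 := by
      have := (h.hst s (by omega)).2.2
      push_cast [show 1 ≤ (D.sg s).natAbs by omega]; ring
    rw [← e1, ← e2]
    exact_mod_cast h1
  have h5 : D.c * |D.σ (s + 1)| * D.dd ≤ (D.dd - 1) * (D.c * |D.σ s|) := by
    calc D.c * |D.σ (s + 1)| * D.dd ≤ (((D.sg (s + 1)).natAbs : ℝ) + 1) * D.dd := by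
          apply mul_le_mul_of_nonneg_right h3 (by linarith)
      _ ≤ (D.dd - 1) * (((D.sg s).natAbs : ℝ) - 1) := h4
      _ ≤ _ := by apply mul_le_mul_of_nonneg_left h2 (by linarith)
  have h6 : |D.σ (s + 1)| * D.dd ≤ (D.dd - 1) * |D.σ s| := by
    have : D.c * (|D.σ (s + 1)| * D.dd) ≤ D.c * ((D.dd - 1) * |D.σ s|) := by linarith
    exact le_of_mul_le_mul_left this hc
  have hd0 : (0 : ℝ) < D.dd := by linarith
  have h7 : (1 - 1 / (D.dd : ℝ)) * |D.σ s| = ((D.dd - 1) * |D.σ s|) / D.dd := by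
    field_simp
  rw [h7, le_div_iff₀ hd0]
  exact h6

lemma Par.last (h : D.Par) :
    D.ρ * |D.σ 0| ≤ (1 - 1 / (D.dd : ℝ)) * |D.σ (D.N - 1)| := by
  have h2 := (h.sig_bounds (show D.N - 1 < D.N by have := h.hN; omega)).1
  have h3 := (h.sig_bounds h.hN).2
  rw [h.hs0] at h3
  have hc : (0 : ℝ) < D.c := by exact_mod_cast h.c_pos
  have hd : (1 : ℝ) < D.dd := by exact_mod_cast h.hdd
  have hq : (0 : ℝ) < D.q := by exact_mod_cast h.hp.trans h.hpq
  have hp : (0 : ℝ) < D.p := by exact_mod_cast h.hp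
  have h4 : (D.p : ℝ) * (D.c + 1) * D.dd
      ≤ D.q * (D.dd - 1) * (((D.sg (D.N - 1)).natAbs : ℝ) - 1) := by
    have e1 : ((D.dd - 1 : ℕ) : ℝ) = D.dd - 1 := by
      have := h.hdd
      push_cast [show 1 ≤ D.dd by omega]; ring
    have e2 : (((D.sg (D.N - 1)).natAbs - 1 : ℕ) : ℝ) = ((D.sg (D.N - 1)).natAbs : ℝ) - 1 := by
      have := (h.hst (D.N - 1) (by have := h.hN; omega)).2.2
      push_cast [show 1 ≤ (D.sg (D.N - 1)).natAbs by omega]; ring
    rw [← e1, ← e2]
    exact_mod_cast h.hlast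
  have h5 : (D.p : ℝ) * (D.c * |D.σ 0|) * D.dd ≤ D.q * (D.dd - 1) * (D.c * |D.σ (D.N - 1)|) := by
    calc (D.p : ℝ) * (D.c * |D.σ 0|) * D.dd ≤ (D.p : ℝ) * (D.c + 1) * D.dd := by
          apply mul_le_mul_of_nonneg_right _ (by linarith)
          apply mul_le_mul_of_nonneg_left h3 hp.le
      _ ≤ D.q * (D.dd - 1) * (((D.sg (D.N - 1)).natAbs : ℝ) - 1) := h4
      _ ≤ _ := by
          apply mul_le_mul_of_nonneg_left h2
          apply mul_nonneg hq.le (by linarith)
  have hd0 : (0 : ℝ) < D.dd := by linarith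
  have h7 : (1 - 1 / (D.dd : ℝ)) * |D.σ (D.N - 1)| = ((D.dd - 1) * |D.σ (D.N - 1)|) / D.dd := by
    field_simp
  have h8 : D.ρ * |D.σ 0| = (D.p * |D.σ 0|) / D.q := by unfold Sch.ρ; ring
  rw [h7, h8, div_le_div_iff₀ hq hd0]
  have : D.c * (D.p * |D.σ 0| * D.dd) ≤ D.c * ((D.dd - 1) * |D.σ (D.N - 1)| * D.q) := by linarith
  exact le_of_mul_le_mul_left this hc

lemma Par.kappa (h : D.Par) : D.μ ^ (-(1 + 2 * ((D.kn : ℝ) / D.kd))) ≤ D.ρ := by
  have hQ : (0 : ℝ) < D.Q := by exact_mod_cast h.hQ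
  have hP : (0 : ℝ) < D.P := by exact_mod_cast h.hQ.trans h.hQP
  have hμ : 0 < D.μ := by unfold Sch.μ; positivity
  have hq : (0 : ℝ) < D.q := by exact_mod_cast h.hp.trans h.hpq
  have hp : (0 : ℝ) < D.p := by exact_mod_cast h.hp
  have hρ : 0 < D.ρ := by unfold Sch.ρ; positivity
  have hkd : (0 : ℝ) < D.kd := by exact_mod_cast h.hkd
  have h1 : (D.μ ^ (-(1 + 2 * ((D.kn : ℝ) / D.kd)))) ^ D.kd ≤ D.ρ ^ D.kd := by
    rw [← Real.rpow_natCast, ← Real.rpow_mul hμ.le]
    have e : -(1 + 2 * ((D.kn : ℝ) / D.kd)) * (D.kd : ℝ) = -((D.kd + 2 * D.kn : ℕ) : ℝ) := by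
      push_cast; field_simp
    rw [e, Real.rpow_neg hμ.le, Real.rpow_natCast]
    unfold Sch.μ Sch.ρ
    rw [div_pow, div_pow, inv_div, div_le_div_iff₀ (by positivity) (by positivity)]
    have := h.hk
    exact_mod_cast this
  exact le_of_pow_le_pow_left₀ h.hkd.ne' hρ.le h1

/-! ### The kernels -/

variable (D) in
/-- the real kernel of a list -/
noncomputable def rk (G : List ℤ) (k : ℕ) : ℝ := (G.getD k 0 : ℝ) / D.c

lemma Par.ker (h : D.Par) {G : List ℤ} (hG : D.okKer G = true) : D.toSch.Ker G (D.rk G) := by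
  have hc : (0 : ℝ) < D.c := by exact_mod_cast h.c_pos
  simp only [okKer, Bool.and_eq_true] at hG
  refine ⟨eq_of_beq hG.1, fun k => ?_, fun k => ?_⟩
  · unfold rk; field_simp
  · unfold rk
    rw [abs_div, abs_of_pos hc, div_le_one hc]
    by_cases hk : k < G.length
    · have := getD_all G 0 _ hG.2 k hk
      rw [← natAbs_cast]
      exact_mod_cast Nat.le_of_ble_eq_true this
    · rw [List.getD_eq_default _ _ (by omega)]
      simp

/-- unpacked constants -/
structure Cst (D : Dat) : Prop where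
  hzd : 0 < D.zd
  hκ0 : 0 < D.κ0
  heY : D.q * (1 + D.st.length * (D.c * (1 + D.Vm))) ≤ (D.q - D.p) * D.eY
  hz : 2 * (D.c + D.tol + D.eT) * D.zd ≤ D.κ0
  hcD : D.c * D.c * (D.st.length * ((D.I + 1) * (4 * D.st.length * D.Vm))) ≤ D.cD * D.zd
  heG : D.st.length * D.c ≤ D.eG * D.zd
  hmar : ∀ s, s < D.N → D.dd * ((D.sg s).natAbs * D.bs + D.eT + D.cD)
    ≤ (D.dd - 1) * D.c * ((D.sg s).natAbs - 1)

lemma cst_of (h : D.chkCst = true) : D.Cst := by
  simp only [chkCst, Bool.and_eq_true] at h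
  obtain ⟨⟨⟨⟨⟨⟨h1, h2⟩, h3⟩, h4⟩, h5⟩, h6⟩, h7⟩ := h
  exact ⟨blt_iff _ _ h1, blt_iff _ _ h2, Nat.le_of_ble_eq_true h3, Nat.le_of_ble_eq_true h4,
    Nat.le_of_ble_eq_true h5, Nat.le_of_ble_eq_true h6, fun s hs =>
      Nat.le_of_ble_eq_true (getD_all D.st (0, 0) _ h7 s hs)⟩

lemma eT_cast : (D.eT : ℝ) = D.eY + D.N * (D.c * (1 + D.Vm)) := by
  unfold eT Sch.N; push_cast; ring

lemma Par.repY (h : D.Par) (hC : D.Cst) {G : List ℤ} (hG : D.okKer G = true)
    (hlen : (D.toSch.R0 G).length = D.I + 2 * D.L + 1) :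
    Rep (D.toSch.R0 G) ((D.c : ℝ) ^ 2) D.eY
      (fun j => Sch.rf D.toSch D.σ (D.rk G) 0 ((j : ℤ) - D.L)) := by
  refine Sch.rep_R0 h.valid (h.ker hG) hlen (by positivity) ?_
  have hq : (0 : ℝ) < D.q := by exact_mod_cast h.hp.trans h.hpq
  have h1 := hC.heY
  have h2 : (D.q : ℝ) * (1 + D.N * (D.c * (1 + D.Vm))) ≤ (D.q - D.p) * D.eY := by
    have e : ((D.q - D.p : ℕ) : ℝ) = D.q - D.p := by
      have := h.hpq
      push_cast [show D.p ≤ D.q by omega]; ring
    rw [← e]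
    exact_mod_cast h1
  unfold Sch.ρ
  have h3 : (1 - (D.p : ℝ) / D.q) * D.eY = ((D.q - D.p) * D.eY) / D.q := by field_simp
  rw [h3, le_div_iff₀ hq]
  linarith

/-- consequences of the main check -/
structure Main (D : Dat) : Prop where
  hG : D.okKer D.G = true
  hG0 : D.G.getD 0 0 = D.c
  h1 : ∀ s, s < D.N → |(D.c : ℝ) ^ 2 * Sch.rf D.toSch D.σ (D.rk D.G) s (D.a s) - D.c * D.sg s|
    ≤ D.tol + D.eT
  h2 : ∀ s, s < D.N → ∀ i : ℤ, i ≠ D.a s →
    (D.c : ℝ) ^ 2 * |Sch.rf D.toSch D.σ (D.rk D.G) s i| ≤ (D.sg s).natAbs * D.bs + D.eT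

lemma main_of (h : D.Par) (hC : D.Cst) (hm : D.chkMain = true) : D.Main := by
  simp only [chkMain, Bool.and_eq_true] at hm
  obtain ⟨⟨⟨h1, h2⟩, h3⟩, h4⟩ := hm
  have hR := h.repY hC h1 (eq_of_beq h3)
  have key := Sch.chkSt_spec h.valid (h.ker h1) D.tol D.bs D.st 0 (fun s _ => by simp)
    (by simp [Sch.N]) _ _ (by positivity) hR h4
  have hb : ∀ s, s < D.N → (D.eY : ℝ) + s * (D.c * (1 + D.Vm)) ≤ D.eT := by
    intro s hs
    rw [eT_cast]
    have : (s : ℝ) ≤ D.N := by exact_mod_cast hs.le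
    have hc : (0 : ℝ) ≤ D.c * (1 + D.Vm) := by positivity
    nlinarith
  refine ⟨h1, eq_of_beq h2, ?_, ?_⟩
  · intro s hs
    have := (key s hs).1
    rw [Nat.zero_add] at this
    linarith [hb s hs]
  · intro s hs i hi
    have := (key s hs).2 i (by rwa [Nat.zero_add])
    rw [Nat.zero_add] at this
    rw [natAbs_cast]
    linarith [hb s hs]

lemma rowS_eq (κ0 : ℤ) (s : ℕ) (Ws : List (List ℤ)) (j0 : ℕ) :
    ((rowS κ0 s j0 Ws : ℕ) : ℝ) = ∑ j ∈ range Ws.length,
      |(((Ws.getD j []).getD s 0 : ℤ) : ℝ) - if s = j0 + j then (κ0 : ℝ) else 0| := by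
  induction Ws generalizing j0 with
  | nil => simp [rowS]
  | cons W Ws ih =>
    simp only [rowS, List.length_cons]
    rw [Finset.sum_range_succ']
    simp only [List.getD_cons_succ, List.getD_cons_zero, Nat.add_zero]
    push_cast
    rw [ih (j0 + 1), add_comm]
    congr 1
    · apply Finset.sum_congr rfl
      intro j _
      have e : j0 + 1 + j = j0 + (j + 1) := by omega
      rw [e]
    · have : ((((W.getD s 0) - if s = j0 then κ0 else 0 : ℤ).natAbs : ℕ) : ℝ)
          = |(((W.getD s 0 : ℤ) : ℝ) - if s = j0 then (κ0 : ℝ) else 0)| := by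
        rw [natAbs_cast]; push_cast; rfl
      rw [← this]

/-- consequences of the check of the directions -/
structure Dirs (D : Dat) : Prop where
  hG : ∀ j, j < D.N → D.okKer (D.dirs.getD j []) = true
  hG0 : ∀ j, j < D.N → (D.dirs.getD j []).getD 0 0 = 0
  hrow : ∀ s, s < D.N → ∑ j : Fin D.N,
    |(D.c : ℝ) ^ 2 * Sch.rf D.toSch D.σ (D.rk (D.dirs.getD j [])) s (D.a s)
      - if s = j then (D.κ0 : ℝ) else 0| ≤ D.κ0 / 2

lemma dirs_of (h : D.Par) (hC : D.Cst) (hd : D.chkDirs = true) : D.Dirs := by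
  simp only [chkDirs, Bool.and_eq_true] at hd
  obtain ⟨⟨h1, h2⟩, h3⟩ := hd
  have hlen : D.dirs.length = D.N := eq_of_beq h1
  have hall : ∀ j, j < D.N → D.okKer (D.dirs.getD j []) = true ∧
      (D.dirs.getD j []).getD 0 0 = 0 ∧
      (D.toSch.R0 (D.dirs.getD j [])).length = D.I + 2 * D.L + 1 := by
    intro j hj
    have := getD_all D.dirs [] _ h2 j (by rw [hlen]; exact hj)
    simp only [Bool.and_eq_true] at this
    exact ⟨this.1.1, eq_of_beq this.1.2, eq_of_beq this.2⟩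
  refine ⟨fun j hj => (hall j hj).1, fun j hj => (hall j hj).2.1, ?_⟩
  intro s hs
  rw [List.all_eq_true] at h3
  have h4 := Nat.le_of_ble_eq_true (h3 s (List.mem_range.mpr hs))
  have h5 : 2 * (((rowS D.κ0 s 0 (D.dirs.map D.Wl) : ℕ) : ℝ) + D.N * D.eT) ≤ D.κ0 := by
    exact_mod_cast h4
  rw [rowS_eq, List.length_map, hlen] at h5
  rw [Fin.sum_univ_eq_sum_range (fun j =>
    |(D.c : ℝ) ^ 2 * Sch.rf D.toSch D.σ (D.rk (D.dirs.getD j [])) s (D.a s)
      - if s = j then (D.κ0 : ℝ) else 0|) D.N]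
  have h6 : ∀ j ∈ range D.N,
      |(D.c : ℝ) ^ 2 * Sch.rf D.toSch D.σ (D.rk (D.dirs.getD j [])) s (D.a s)
        - if s = j then (D.κ0 : ℝ) else 0|
      ≤ |((((D.dirs.map D.Wl).getD j []).getD s 0 : ℤ) : ℝ) - if s = 0 + j then (D.κ0 : ℝ) else 0|
        + D.eT := by
    intro j hj
    rw [Finset.mem_range] at hj
    obtain ⟨a1, a2, a3⟩ := hall j hj
    have hR := h.repY hC a1 a3
    have key := Sch.diagL_spec h.valid (h.ker a1) D.st 0 (fun s _ => by simp)
      (by simp [Sch.N]) _ _ hR s hs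
    rw [Nat.zero_add] at key
    have e1 : (D.dirs.map D.Wl).getD j [] = D.Wl (D.dirs.getD j []) := by
      rw [List.getD_eq_getElem _ _ (by rw [List.length_map, hlen]; exact hj),
        List.getD_eq_getElem _ _ (by rw [hlen]; exact hj), List.getElem_map]
    rw [e1, Nat.zero_add]
    have hb : (D.eY : ℝ) + s * (D.c * (1 + D.Vm)) ≤ D.eT := by
      rw [eT_cast]
      have : (s : ℝ) ≤ D.N := by exact_mod_cast hs.le
      have hc : (0 : ℝ) ≤ D.c * (1 + D.Vm) := by positivity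
      nlinarith
    have hw : ((D.Wl (D.dirs.getD j [])).getD s 0)
        = (Sch.diagL D.L (vlist D.P D.Q (D.dirs.getD j [])) D.st
          (D.toSch.R0 (D.dirs.getD j []))).getD s 0 := rfl
    rw [hw]
    set x := (D.c : ℝ) ^ 2 * Sch.rf D.toSch D.σ (D.rk (D.dirs.getD j [])) s (D.a s)
    set y := (((Sch.diagL D.L (vlist D.P D.Q (D.dirs.getD j [])) D.st
          (D.toSch.R0 (D.dirs.getD j []))).getD s 0 : ℤ) : ℝ)
    set w := (if s = j then (D.κ0 : ℝ) else 0)
    have e2 : x - w = (y - w) + (x - y) := by ring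
    rw [e2]
    refine (abs_add_le _ _).trans ?_
    have : |x - y| ≤ D.eT := by rw [abs_sub_comm]; exact key.trans hb
    linarith
  have h7 := Finset.sum_le_sum h6
  rw [Finset.sum_add_distrib, Finset.sum_const, Finset.card_range, nsmul_eq_mul] at h7
  push_cast at h5
  linarith

/-! ### The quadratic form -/

lemma dot_eq : ∀ (xs ys : List ℤ) (n : ℕ), xs.length ≤ n → ((dot xs ys : ℤ) : ℝ)
    = ∑ j ∈ range n, (xs.getD j 0 : ℝ) * (ys.getD j 0 : ℝ) := by
  intro xs
  induction xs with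
  | nil => intro ys n _; simp [dot]
  | cons x xs ih =>
    intro ys n hn
    cases ys with
    | nil => simp [dot]
    | cons y ys =>
      simp only [List.length_cons] at hn
      obtain ⟨m, rfl⟩ : ∃ m, n = m + 1 := ⟨n - 1, by omega⟩
      rw [Finset.sum_range_succ']
      simp only [List.getD_cons_succ, List.getD_cons_zero, dot]
      push_cast
      rw [ih ys m (by omega)]
      ring

lemma acs_eq (p : List ℤ) (L : ℕ) (hp : p.length = L + 1) : ∀ (xs : List ℤ) (k0 : ℕ),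
    (∀ j, xs.getD j 0 = p.getD (k0 + j) 0) → ∀ k, k < xs.length →
    (((acs p xs).getD k 0 : ℤ) : ℝ)
      = ∑ j ∈ range (L + 1), (p.getD j 0 : ℝ) * (p.getD (j + (k0 + k)) 0 : ℝ) := by
  intro xs
  induction xs with
  | nil => intro k0 _ k hk; simp at hk
  | cons x xs ih =>
    intro k0 h k hk
    cases k with
    | zero =>
      simp only [acs, List.getD_cons_zero, Nat.add_zero]
      rw [dot_eq p (x :: xs) (L + 1) (by omega)]
      apply Finset.sum_congr rfl
      intro j _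
      rw [h j, Nat.add_comm k0 j]
    | succ k =>
      simp only [acs, List.getD_cons_succ]
      rw [ih (k0 + 1) (fun j => by
        have := h (j + 1)
        rw [List.getD_cons_succ] at this
        rw [this]; congr 1; omega) k (by simpa using hk)]
      apply Finset.sum_congr rfl
      intro j _
      have : j + (k0 + 1 + k) = j + (k0 + (k + 1)) := by omega
      rw [this]

lemma length_acs (p xs : List ℤ) : (acs p xs).length = xs.length := by
  induction xs with
  | nil => simp [acs]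
  | cons x xs ih => simp [acs, ih]

lemma sad_eq : ∀ (xs ys : List ℤ), xs.length = ys.length → ((sad xs ys : ℕ) : ℝ)
    = ∑ j ∈ range xs.length, |(xs.getD j 0 : ℝ) - (ys.getD j 0 : ℝ)| := by
  intro xs
  induction xs with
  | nil => intro ys _; simp [sad]
  | cons x xs ih =>
    intro ys h
    cases ys with
    | nil => simp at h
    | cons y ys =>
      simp only [List.length_cons, Nat.add_right_cancel_iff] at h
      rw [List.length_cons, Finset.sum_range_succ']
      simp only [List.getD_cons_succ, List.getD_cons_zero, sad]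
      push_cast
      rw [ih ys h, natAbs_cast]
      push_cast
      ring

lemma sas_eq : ∀ (xs ys : List ℤ), xs.length = ys.length → ((sas xs ys : ℕ) : ℝ)
    = ∑ j ∈ range xs.length, |(xs.getD j 0 : ℝ) + (ys.getD j 0 : ℝ)| := by
  intro xs
  induction xs with
  | nil => intro ys _; simp [sas]
  | cons x xs ih =>
    intro ys h
    cases ys with
    | nil => simp at h
    | cons y ys =>
      simp only [List.length_cons, Nat.add_right_cancel_iff] at h
      rw [List.length_cons, Finset.sum_range_succ']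
      simp only [List.getD_cons_succ, List.getD_cons_zero, sas]
      push_cast
      rw [ih ys h, natAbs_cast]
      push_cast
      ring

lemma getD_tail (l : List ℤ) (j : ℕ) : l.tail.getD j 0 = l.getD (j + 1) 0 := by
  cases l <;> simp

/-- real autocorrelation of a list -/
lemma Par.acf_list (h : D.Par) {pf : List ℤ} (hp : pf.length = D.L + 1) (k : ℕ) (hk : k ≤ D.L) :
    (D.c : ℝ) * acf D.L (fun j => (pf.getD j 0 : ℝ) / D.r) k = ((acs pf pf).getD k 0 : ℤ) := by
  have h1 := acs_eq pf D.L hp pf 0 (fun j => by rw [Nat.zero_add]) k (by omega)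
  simp only [Nat.zero_add] at h1
  rw [h1]
  unfold acf
  have hr : (0 : ℝ) < D.r := by exact_mod_cast h.hr0
  have hc : (D.c : ℝ) = D.r * D.r := by exact_mod_cast h.hr
  rw [hc, Finset.mul_sum]
  apply Finset.sum_congr rfl
  intro j _
  field_simp

/-- the certificate -/
theorem exists_cert (D : Dat) (h1 : D.chkPar = true) (h2 : D.chkMain = true)
    (h3 : D.chkDirs = true) (h4 : D.chkCst = true) (h5 : D.chkQuad = true) :
    ∃ C : Cert, C.t = (D.tC : ℝ) / D.c ∧ C.T = (D.TC : ℝ) / D.c ∧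
      C.κ = (D.kn : ℝ) / D.kd := by
  have hP := par_of D h1
  have hC := cst_of h4
  have hM := main_of hP hC h2
  have hD := dirs_of hP hC h3
  have hV := hP.valid
  have hc : (0 : ℝ) < D.c := by exact_mod_cast hP.c_pos
  have hc1 : (1 : ℝ) ≤ D.c := by exact_mod_cast hP.c_pos
  have hκ0 : (0 : ℝ) < D.κ0 := by exact_mod_cast hC.hκ0
  have hzd : (0 : ℝ) < D.zd := by exact_mod_cast hC.hzd
  have hμ := hV.μ_gt
  have hρ := hV.ρ_pos
  have hρ1 := hV.ρ_lt
  set E := Ecf D.ρ D.N D.a D.σ with hE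
  -- solve the linear system
  obtain ⟨z, hz1, hz2⟩ := exists_solution
    (fun (s j : Fin D.N) => (D.c : ℝ) ^ 2 * Sch.rf D.toSch D.σ (D.rk (D.dirs.getD j [])) s (D.a s))
    hκ0 (fun s => by
      refine le_trans (le_of_eq ?_) (hD.hrow s s.2)
      apply Finset.sum_congr rfl
      intro j _
      have : (s = j) = ((s : ℕ) = j) := by rw [Fin.ext_iff]
      simp only [this])
    (fun s => (D.c : ℝ) ^ 2 * (D.σ s - Sch.rf D.toSch D.σ (D.rk D.G) s (D.a s)))
    (β := D.c + D.tol + D.eT) (fun s => by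
      have a1 := hM.h1 s s.2
      have a2 := hV.hsg s s.2
      have e : (D.c : ℝ) ^ 2 * (D.σ s - Sch.rf D.toSch D.σ (D.rk D.G) s (D.a s))
          = -(D.c * ((D.sg s : ℝ) - D.c * D.σ s))
            - ((D.c : ℝ) ^ 2 * Sch.rf D.toSch D.σ (D.rk D.G) s (D.a s) - D.c * D.sg s) := by ring
      rw [e]
      refine (abs_sub _ _).trans ?_
      rw [abs_neg, abs_mul, abs_of_pos hc]
      have : D.c * |(D.sg s : ℝ) - D.c * D.σ s| ≤ D.c * 1 := mul_le_mul_of_nonneg_left a2 hc.le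
      linarith) (by positivity)
  have hz3 : ∀ j, |z j| ≤ 1 / D.zd := by
    intro j
    refine (hz2 j).trans ?_
    rw [div_le_div_iff₀ hκ0 hzd, one_mul]
    have := hC.hz
    exact_mod_cast this
  -- the kernel
  set d : Fin D.N → ℕ → ℝ := fun j => D.rk (D.dirs.getD j []) with hd
  set g : ℕ → ℝ := fun k => D.rk D.G k + ∑ j, z j * d j k with hg
  have kG := hP.ker hM.hG
  have kd : ∀ j : Fin D.N, D.toSch.Ker (D.dirs.getD j []) (d j) := fun j => hP.ker (hD.hG j j.2)
  have hsup0 : ∀ k, D.L < k → D.rk D.G k = 0 := fun k hk => kG.supp hV k hk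
  have hsupd : ∀ j k, D.L < k → d j k = 0 := fun j k hk => (kd j).supp hV k hk
  have hsup : ∀ k, D.L < k → g k = 0 := by
    intro k hk
    simp only [hg]
    rw [hsup0 k hk, zero_add]
    apply Finset.sum_eq_zero
    intro j _
    rw [hsupd j k hk, mul_zero]
  have hlin : ∀ s i, rr D.I D.μ g D.a D.σ E s i
      = Sch.rf D.toSch D.σ (D.rk D.G) s i
        + ∑ j, z j * Sch.rf D.toSch D.σ (d j) s i := fun s i => rr_linear _ _ _ _ _ _ _ _ _ _
  have hg0 : g 0 = 1 := by
    simp only [hg, hd, rk]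
    rw [hM.hG0]
    have : ∀ j : Fin D.N, z j * (((D.dirs.getD j []).getD 0 0 : ℤ) / (D.c : ℝ)) = 0 := by
      intro j
      rw [hD.hG0 j j.2]; simp
    simp only [this, Finset.sum_const_zero, add_zero]
    push_cast
    field_simp
  have hdiff : ∀ k, |g k - D.rk D.G k| ≤ D.N / D.zd := by
    intro k
    have : g k - D.rk D.G k = ∑ j, z j * d j k := by simp only [hg]; ring
    rw [this]
    refine (Finset.abs_sum_le_sum_abs _ _).trans ?_
    have h6 : ∀ j ∈ (Finset.univ : Finset (Fin D.N)), |z j * d j k| ≤ 1 / D.zd := by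
      intro j _
      rw [abs_mul]
      have a1 := hz3 j
      have a2 := (kd j).hG1 k
      calc |z j| * |d j k| ≤ (1 / D.zd) * 1 :=
            mul_le_mul a1 a2 (abs_nonneg _) (by positivity)
        _ = _ := by ring
    refine (Finset.sum_le_sum h6).trans ?_
    rw [Finset.sum_const, Finset.card_univ, Fintype.card_fin, nsmul_eq_mul]
    apply le_of_eq; ring
  -- the thresholds
  have hσ2 : ∀ s, s < D.N → |D.σ s| ≤ 2 := by
    intro s hs
    have a1 := (hP.sig_bounds hs).2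
    have a2 : (((D.sg s).natAbs : ℕ) : ℝ) ≤ D.c := by exact_mod_cast (hP.hst s hs).2.1
    have a3 : D.c * |D.σ s| ≤ D.c * 2 := by linarith
    exact le_of_mul_le_mul_left a3 hc
  have hσ0 : ∀ s, s < D.N → D.σ s ≠ 0 := by
    intro s hs h0
    have a1 := (hP.sig_bounds hs).1
    have a2 : (1 : ℝ) < (((D.sg s).natAbs : ℕ) : ℝ) := by exact_mod_cast (hP.hst s hs).2.2
    rw [h0] at a1
    simp only [abs_zero, mul_zero] at a1
    linarith
  -- crude bound of the correction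
  have hcr : ∀ s, s ≤ D.N → ∀ i : ℤ, |∑ j, z j * Sch.rf D.toSch D.σ (d j) s i|
      ≤ D.N * (1 / D.zd * ((D.I + 1) * (4 * D.N * D.Vm))) := by
    intro s hs i
    refine (Finset.abs_sum_le_sum_abs _ _).trans ?_
    have h6 : ∀ j ∈ (Finset.univ : Finset (Fin D.N)), |z j * Sch.rf D.toSch D.σ (d j) s i|
        ≤ 1 / D.zd * ((D.I + 1) * (4 * D.N * D.Vm)) := by
      intro j _
      rw [abs_mul]
      have a1 := hz3 j
      have a2 : |Sch.rf D.toSch D.σ (d j) s i| ≤ (D.I + 1) * (4 * D.N * D.μ ^ D.L) :=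
        abs_rr_le D.I D.μ (d j) D.a D.σ E hμ.le D.L (hsupd j) (kd j).hG1 (by positivity) s
          (fun l => abs_Est_le D.ρ hρ.le hρ1.le D.N D.a D.σ hσ2 s hs l) i
      have a3 : D.μ ^ D.L ≤ D.Vm := hV.μL
      have a4 : |Sch.rf D.toSch D.σ (d j) s i| ≤ (D.I + 1) * (4 * D.N * D.Vm) := by
        refine a2.trans ?_
        gcongr
      exact mul_le_mul a1 a4 (abs_nonneg _) (by positivity)
    refine (Finset.sum_le_sum h6).trans ?_
    rw [Finset.sum_const, Finset.card_univ, Fintype.card_fin, nsmul_eq_mul]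
  have hcD : (D.c : ℝ) ^ 2 * (D.N * (1 / D.zd * ((D.I + 1) * (4 * D.N * D.Vm)))) ≤ D.cD := by
    have := hC.hcD
    have h7 : (D.c : ℝ) * D.c * (D.N * ((D.I + 1) * (4 * D.N * D.Vm))) ≤ D.cD * D.zd := by
      exact_mod_cast this
    have h8 : (D.c : ℝ) ^ 2 * (D.N * (1 / D.zd * ((D.I + 1) * (4 * D.N * D.Vm))))
        = ((D.c : ℝ) * D.c * (D.N * ((D.I + 1) * (4 * D.N * D.Vm)))) / D.zd := by
      field_simp
    rw [h8, div_le_iff₀ hzd]
    exact h7
  have hswp : ∀ s, s < D.N → rr D.I D.μ g D.a D.σ E s (D.a s) = D.σ s := by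
    intro s hs
    rw [hlin]
    have h6 := hz1 ⟨s, hs⟩
    simp only at h6
    have h7 : (D.c : ℝ) ^ 2 * ∑ j, z j * Sch.rf D.toSch D.σ (d j) s (D.a s)
        = (D.c : ℝ) ^ 2 * (D.σ s - Sch.rf D.toSch D.σ (D.rk D.G) s (D.a s)) := by
      rw [← h6, Finset.mul_sum]
      apply Finset.sum_congr rfl
      intro j _
      ring
    have h8 : (D.c : ℝ) ^ 2 ≠ 0 := by positivity
    have := mul_left_cancel₀ h8 h7
    linarith
  have hd0 : (1 : ℝ) < D.dd := by exact_mod_cast hP.hdd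
  have hbd : ∀ s, s < D.N → ∀ i : ℤ, i ≠ D.a s →
      |rr D.I D.μ g D.a D.σ E s i| ≤ (1 - 1 / (D.dd : ℝ)) * |D.σ s| := by
    intro s hs i hi
    rw [hlin]
    have a1 := hM.h2 s hs i hi
    have a2 := hcr s hs.le i
    have a3 := hC.hmar s hs
    have a4 := (hP.sig_bounds hs).1
    have e1 : ((D.dd - 1 : ℕ) : ℝ) = D.dd - 1 := by
      have := hP.hdd
      push_cast [show 1 ≤ D.dd by omega]; ring
    have e2 : (((D.sg s).natAbs - 1 : ℕ) : ℝ) = ((D.sg s).natAbs : ℝ) - 1 := by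
      have := (hP.hst s hs).2.2
      push_cast [show 1 ≤ (D.sg s).natAbs by omega]; ring
    have a5 : (D.dd : ℝ) * ((D.sg s).natAbs * D.bs + D.eT + D.cD)
        ≤ (D.dd - 1) * D.c * (((D.sg s).natAbs : ℝ) - 1) := by
      rw [← e1, ← e2]
      exact_mod_cast a3
    have a6 : (D.c : ℝ) ^ 2 * |Sch.rf D.toSch D.σ (D.rk D.G) s i
        + ∑ j, z j * Sch.rf D.toSch D.σ (d j) s i|
        ≤ (D.sg s).natAbs * D.bs + D.eT + D.cD := by
      have b1 := abs_add_le (Sch.rf D.toSch D.σ (D.rk D.G) s i)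
        (∑ j, z j * Sch.rf D.toSch D.σ (d j) s i)
      have b2 : (D.c : ℝ) ^ 2 * |∑ j, z j * Sch.rf D.toSch D.σ (d j) s i| ≤ D.cD :=
        (mul_le_mul_of_nonneg_left a2 (by positivity)).trans hcD
      have b3 := mul_le_mul_of_nonneg_left b1 (by positivity : (0 : ℝ) ≤ (D.c : ℝ) ^ 2)
      linarith
    have hd1 : (0 : ℝ) < D.dd := by linarith
    have a7 : (D.dd : ℝ) * ((D.c : ℝ) ^ 2 * |Sch.rf D.toSch D.σ (D.rk D.G) s i
        + ∑ j, z j * Sch.rf D.toSch D.σ (d j) s i|) ≤ (D.dd - 1) * D.c * (D.c * |D.σ s|) := by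
      refine (mul_le_mul_of_nonneg_left a6 hd1.le).trans (a5.trans ?_)
      apply mul_le_mul_of_nonneg_left a4
      apply mul_nonneg (by linarith) hc.le
    have h7 : (1 - 1 / (D.dd : ℝ)) * |D.σ s| = ((D.dd - 1) * |D.σ s|) / D.dd := by
      field_simp
    rw [h7, le_div_iff₀ hd1]
    have h8 : (0 : ℝ) < (D.c : ℝ) ^ 2 := by positivity
    refine le_of_mul_le_mul_left ?_ h8
    calc (D.c : ℝ) ^ 2 * (|Sch.rf D.toSch D.σ (D.rk D.G) s i
        + ∑ j, z j * Sch.rf D.toSch D.σ (d j) s i| * D.dd)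
        = (D.dd : ℝ) * ((D.c : ℝ) ^ 2 * |Sch.rf D.toSch D.σ (D.rk D.G) s i
        + ∑ j, z j * Sch.rf D.toSch D.σ (d j) s i|) := by ring
      _ ≤ (D.dd - 1) * D.c * (D.c * |D.σ s|) := a7
      _ = _ := by ring
  -- the quadratic form
  simp only [chkQuad, Bool.and_eq_true, decide_eq_true_eq] at h5
  obtain ⟨⟨⟨⟨⟨⟨q1, q2⟩, q3⟩, q4⟩, q5⟩, q6⟩, q7⟩ := h5
  have q1' : D.pf.length = D.L + 1 := eq_of_beq q1
  have q2' : D.pf'.length = D.L + 1 := eq_of_beq q2
  have q3' : (0 : ℝ) < D.tC := by exact_mod_cast blt_iff _ _ q3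
  have q4' : (D.tC : ℝ) ≤ D.c := by exact_mod_cast Nat.le_of_ble_eq_true q4
  have q5' : (D.c : ℝ) ≤ D.TC := by exact_mod_cast Nat.le_of_ble_eq_true q5
  have hGlen : D.G.length = D.L + 1 := kG.hlen
  have heG : (D.N : ℝ) * D.c / D.zd ≤ D.eG := by
    rw [div_le_iff₀ hzd]
    exact_mod_cast hC.heG
  have hdc : ∀ k, |(g k - D.rk D.G k) * D.c| ≤ D.eG := by
    intro k
    rw [abs_mul, abs_of_pos hc]
    have := mul_le_mul_of_nonneg_right (hdiff k) hc.le
    rw [div_mul_eq_mul_div] at this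
    exact this.trans heG
  have hlow : ∀ (J : ℕ) (u : Fin J → ℝ), (D.tC : ℝ) / D.c * ∑ k, u k ^ 2
      ≤ ∑ k : Fin J, ∑ l : Fin J, u k * g ((k : ℤ) - l).natAbs * u l := by
    intro J u
    refine toeplitz_lower D.L g (fun j => (D.pf.getD j 0 : ℝ) / D.r) ?_ hsup ?_ J u
    · intro j hj
      rw [List.getD_eq_default _ _ (by rw [q1']; omega)]; simp
    · rw [hg0]
      have e0 := hP.acf_list q1' 0 (by omega)
      have hsad : ((sad D.G.tail (acs D.pf D.pf).tail : ℕ) : ℝ)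
          = ∑ j ∈ range D.L, |(D.G.getD (j + 1) 0 : ℝ) - ((acs D.pf D.pf).getD (j + 1) 0 : ℝ)| := by
        rw [sad_eq _ _ (by rw [List.length_tail, List.length_tail, length_acs, hGlen, q1'])]
        have : D.G.tail.length = D.L := by rw [List.length_tail, hGlen]; omega
        rw [this]
        simp only [getD_tail]
      have q6' : (D.tC : ℝ) + ((acs D.pf D.pf).getD 0 0 : ℤ)
          + 2 * (((sad D.G.tail (acs D.pf D.pf).tail : ℕ) : ℝ) + D.L * D.eG) ≤ D.c := by
        exact_mod_cast q6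
      rw [hsad] at q6'
      have hs : ∀ j ∈ range D.L, |g (j + 1) - acf D.L (fun j => (D.pf.getD j 0 : ℝ) / D.r) (j + 1)|
          ≤ (|(D.G.getD (j + 1) 0 : ℝ) - ((acs D.pf D.pf).getD (j + 1) 0 : ℝ)| + D.eG) / D.c := by
        intro j hj
        rw [Finset.mem_range] at hj
        have e1 := hP.acf_list q1' (j + 1) (by omega)
        rw [le_div_iff₀ hc]
        set A := acf D.L (fun j => (D.pf.getD j 0 : ℝ) / D.r) (j + 1)
        have e2 : (g (j + 1) - A) * D.c = (D.G.getD (j + 1) 0 - ((acs D.pf D.pf).getD (j + 1) 0 : ℤ))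
            + (g (j + 1) - D.rk D.G (j + 1)) * D.c := by
          rw [← e1]
          unfold rk
          field_simp
          ring
        have e4 : |g (j + 1) - A| * D.c = |(g (j + 1) - A) * D.c| := by
          rw [abs_mul, abs_of_pos hc]
        rw [e4, e2]
        refine (abs_add_le _ _).trans ?_
        linarith [hdc (j + 1)]
      have hs2 := Finset.sum_le_sum hs
      rw [← Finset.sum_div, Finset.sum_add_distrib, Finset.sum_const, Finset.card_range,
        nsmul_eq_mul] at hs2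
      set A0 := acf D.L (fun j => (D.pf.getD j 0 : ℝ) / D.r) 0
      set SS := ∑ j ∈ range D.L, |g (j + 1) - acf D.L (fun j => (D.pf.getD j 0 : ℝ) / D.r) (j + 1)|
      rw [le_div_iff₀ hc] at hs2
      have h9 : ((D.tC : ℝ) / D.c + A0 + 2 * SS) * D.c ≤ 1 * D.c := by
        have e5 : ((D.tC : ℝ) / D.c + A0 + 2 * SS) * D.c = D.tC + D.c * A0 + 2 * (SS * D.c) := by
          field_simp
        rw [e5, e0]
        linarith
      exact le_of_mul_le_mul_right h9 hc
  have hup : ∀ (J : ℕ) (u : Fin J → ℝ), ∑ k : Fin J, ∑ l : Fin J, u k * g ((k : ℤ) - l).natAbs * u l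
      ≤ (D.TC : ℝ) / D.c * ∑ k, u k ^ 2 := by
    intro J u
    let g' : ℕ → ℝ := fun k => if k = 0 then (D.TC : ℝ) / D.c - 1 else -g k
    have hlow' := toeplitz_lower D.L g' (fun j => (D.pf'.getD j 0 : ℝ) / D.r) (t := 0)
      (by
        intro j hj
        rw [List.getD_eq_default _ _ (by rw [q2']; omega)]; simp)
      (by
        intro k hk
        simp only [g']
        rw [if_neg (by omega), hsup k hk, neg_zero])
      (by
        simp only [g', if_true]
        have e0 := hP.acf_list q2' 0 (by omega)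
        have hsad : ((sas D.G.tail (acs D.pf' D.pf').tail : ℕ) : ℝ)
            = ∑ j ∈ range D.L, |(D.G.getD (j + 1) 0 : ℝ) + ((acs D.pf' D.pf').getD (j + 1) 0 : ℝ)| := by
          rw [sas_eq _ _ (by rw [List.length_tail, List.length_tail, length_acs, hGlen, q2'])]
          have : D.G.tail.length = D.L := by rw [List.length_tail, hGlen]; omega
          rw [this]
          simp only [getD_tail]
        have q7' : (((acs D.pf' D.pf').getD 0 0 : ℤ) : ℝ)
            + 2 * (((sas D.G.tail (acs D.pf' D.pf').tail : ℕ) : ℝ) + D.L * D.eG) + D.c ≤ D.TC := by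
          exact_mod_cast q7
        rw [hsad] at q7'
        have hs : ∀ j ∈ range D.L,
            |(if j + 1 = 0 then (D.TC : ℝ) / D.c - 1 else -g (j + 1))
              - acf D.L (fun j => (D.pf'.getD j 0 : ℝ) / D.r) (j + 1)|
            ≤ (|(D.G.getD (j + 1) 0 : ℝ) + ((acs D.pf' D.pf').getD (j + 1) 0 : ℝ)| + D.eG) / D.c := by
          intro j hj
          rw [Finset.mem_range] at hj
          rw [if_neg (by omega)]
          have e1 := hP.acf_list q2' (j + 1) (by omega)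
          rw [le_div_iff₀ hc]
          set A := acf D.L (fun j => (D.pf'.getD j 0 : ℝ) / D.r) (j + 1)
          have e2 : (-g (j + 1) - A) * D.c
              = -(D.G.getD (j + 1) 0 + ((acs D.pf' D.pf').getD (j + 1) 0 : ℤ))
              - (g (j + 1) - D.rk D.G (j + 1)) * D.c := by
            rw [← e1]
            unfold rk
            field_simp
            ring
          have e4 : |-g (j + 1) - A| * D.c = |(-g (j + 1) - A) * D.c| := by
            rw [abs_mul, abs_of_pos hc]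
          rw [e4, e2]
          refine (abs_sub _ _).trans ?_
          rw [abs_neg]
          linarith [hdc (j + 1)]
        have hs2 := Finset.sum_le_sum hs
        rw [← Finset.sum_div, Finset.sum_add_distrib, Finset.sum_const, Finset.card_range,
          nsmul_eq_mul] at hs2
        set A0 := acf D.L (fun j => (D.pf'.getD j 0 : ℝ) / D.r) 0
        set SS := ∑ j ∈ range D.L, |(if j + 1 = 0 then (D.TC : ℝ) / D.c - 1 else -g (j + 1))
              - acf D.L (fun j => (D.pf'.getD j 0 : ℝ) / D.r) (j + 1)|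
        rw [le_div_iff₀ hc] at hs2
        have h9 : (0 + A0 + 2 * SS) * D.c ≤ ((D.TC : ℝ) / D.c - 1) * D.c := by
          have e5 : (0 + A0 + 2 * SS) * D.c = D.c * A0 + 2 * (SS * D.c) := by ring
          have e6 : ((D.TC : ℝ) / D.c - 1) * D.c = D.TC - D.c := by field_simp
          rw [e5, e6, e0]
          linarith
        exact le_of_mul_le_mul_right h9 hc) J u
    have e7 : ∑ k : Fin J, ∑ l : Fin J, u k * g' ((k : ℤ) - l).natAbs * u l
        = (D.TC : ℝ) / D.c * ∑ k, u k ^ 2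
          - ∑ k : Fin J, ∑ l : Fin J, u k * g ((k : ℤ) - l).natAbs * u l := by
      have e8 : (D.TC : ℝ) / D.c * ∑ k : Fin J, u k ^ 2
          = ∑ k : Fin J, ∑ l : Fin J, if k = l then (D.TC : ℝ) / D.c * (u k * u l) else 0 := by
        rw [Finset.mul_sum]
        apply Finset.sum_congr rfl
        intro k _
        rw [Finset.sum_ite_eq, if_pos (Finset.mem_univ _)]
        ring
      rw [e8, ← Finset.sum_sub_distrib]
      apply Finset.sum_congr rfl
      intro k _
      rw [← Finset.sum_sub_distrib]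
      apply Finset.sum_congr rfl
      intro l _
      by_cases hkl : k = l
      · subst hkl
        simp only [g', sub_self, Int.natAbs_zero, if_true, hg0]
        ring
      · have : ((k : ℤ) - l).natAbs ≠ 0 := by
          intro h4
          apply hkl
          apply Fin.ext
          omega
        simp only [g', if_neg this, if_neg hkl]
        ring
    rw [e7, zero_mul] at hlow'
    linarith
  have hE1 : E 1 ≠ 0 := by
    intro h0
    have h6 := Ecf_shift D.ρ D.N D.a D.σ hV.hsum 0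
    rw [Nat.zero_add, ← hE, h0, mul_zero] at h6
    have h7 : E 0 = 0 := Ecf_zero _ _ _ _
    rw [h7, zero_add] at h6
    have h8 : ∑ s ∈ range D.N, (if D.a s = 0 then D.σ s else 0) = D.σ 0 := by
      rw [Finset.sum_eq_single_of_mem 0 (Finset.mem_range.mpr hP.hN)]
      · rw [if_pos hP.ha0]
      · intro s hs hs0
        rw [Finset.mem_range] at hs
        obtain ⟨s', rfl⟩ : ∃ s', s = s' + 1 := ⟨s - 1, by omega⟩
        have := hP.ha1 s' hs
        rw [if_neg (by omega)]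
    rw [h8] at h6
    exact hσ0 0 hP.hN h6.symm
  have hd1 : (0 : ℝ) < D.dd := by linarith
  refine ⟨{
    I := D.I
    N := D.N
    μ := D.μ
    ρ := D.ρ
    δ := 1 / (D.dd : ℝ)
    t := (D.tC : ℝ) / D.c
    T := (D.TC : ℝ) / D.c
    κ := (D.kn : ℝ) / D.kd
    g := g
    a := D.a
    σ := D.σ
    E := E
    hN := hP.hN
    hμ := hμ
    hρ := hρ
    hρ1 := hρ1.le
    hρμ := hP.kappa
    hκ := by positivity
    hδ := by positivity
    hδ1 := by rw [div_lt_one hd1]; exact hd0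
    ht := by positivity
    ht1 := by rw [div_le_one hc]; exact q4'
    hT := by rw [one_le_div hc]; exact q5'
    hg0 := hg0
    hQ := fun J u => ⟨hlow J u, hup J u⟩
    hE0 := Ecf_zero _ _ _ _
    hE1 := hE1
    hEI := Ecf_big _ _ _ _ _ hV.ha
    ha := hV.ha
    hshift := Ecf_shift _ _ _ _ hV.hsum
    hσ := hσ0
    hsw := hswp
    hbd := hbd
    hdec := fun s hs => hP.dec hs
    hlast := hP.last }, rfl, rfl, rfl⟩

end Dat

end Pool.Agent.Lib.MP_3cbb73_an.Slow
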