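import Pool.Agent.Lib.MP_3cbb73_an.Transfer
import Pool.Agent.Lib.MP_3cbb73_an.Slow.Final

set_option autoImplicit false

/-!
# From a certificate to a lower bound for `γ`
-/

namespace Pool.Agent.Lib.MP_3cbb73_an.Slow

open scoped RealInnerProductSpace

universe u

/-- A certificate gives a lower bound for `γ`. -/
theorem Cert.gamma (C : Cert) {C₁ C₂ : ℝ} (h1 : C₁ ^ 2 ≤ C.t) (h2 : 0 ≤ C₂)
    (h2' : C.T ≤ C₂ ^ 2) : ∃ c : ℝ, 0 < c ∧
    ∀ (H : Type u) [NormedAddCommGroup H] [InnerProductSpace ℝ H] [CompleteSpace H],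
      ¬ FiniteDimensional ℝ H → ∀ m : ℕ, 1 ≤ m →
      BddAbove (errors H C₁ C₂ m) ∧ c * (m : ℝ) ^ (-C.κ) ≤ γ H C₁ C₂ m := by
  classical
  obtain ⟨c, hc, h⟩ := C.slow
  refine ⟨c, hc, ?_⟩
  intro H _ _ _ hinf m hm
  refine ⟨bddAbove_errors, ?_⟩
  obtain ⟨ι, V, hV, hn, hd, hR, s, b, hb, F, hF0, hF, hm2⟩ := h H hinf m hm
  refine hm2.trans (le_csSup bddAbove_errors ?_)
  refine ⟨Set.range V, ⟨⟨?_, hd⟩, ?_⟩, F 0, ?_, F, ⟨rfl, ?_⟩, rfl⟩
  · rintro g ⟨x, rfl⟩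
    exact hn x
  · intro s' b' hs'
    have key : ∃ s0 : Finset ι, s' = s0.image V := by
      obtain ⟨s0, hs0⟩ := Finset.subset_set_image_iff.mp
        (show (↑s' : Set H) ⊆ V '' Set.univ by rw [Set.image_univ]; exact hs')
      exact ⟨s0, hs0.2.symm⟩
    obtain ⟨s0, rfl⟩ := key
    have e1 : ∑ g ∈ s0.image V, b' g ^ 2 = ∑ x ∈ s0, b' (V x) ^ 2 :=
      Finset.sum_image (fun x _ y _ h => hV h)
    have e2 : ∑ g ∈ s0.image V, b' g • g = ∑ x ∈ s0, b' (V x) • V x :=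
      Finset.sum_image (fun x _ y _ h => hV h)
    rw [e1, e2]
    obtain ⟨r1, r2⟩ := hR s0 (fun x => b' (V x))
    have hS : 0 ≤ ∑ x ∈ s0, b' (V x) ^ 2 := Finset.sum_nonneg (fun i _ => sq_nonneg _)
    constructor
    · apply le_of_sq_le_sq _ (norm_nonneg _)
      rw [mul_pow, Real.sq_sqrt hS]
      exact (mul_le_mul_of_nonneg_right h1 hS).trans r1
    · apply le_of_sq_le_sq _ (by positivity)
      rw [mul_pow, Real.sq_sqrt hS]
      exact r2.trans (mul_le_mul_of_nonneg_right h2' hS)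
  · apply subset_closure
    refine ⟨s.image V, fun g => ∑ x ∈ s, if V x = g then b x else 0, ?_, ?_, ?_⟩
    · intro g hg
      simp only [Finset.coe_image, Set.mem_image] at hg
      obtain ⟨x, _, rfl⟩ := hg
      exact ⟨x, rfl⟩
    · rw [Finset.sum_image (fun x _ y _ h => hV h)]
      refine le_trans (le_of_eq (Finset.sum_congr rfl ?_)) hb
      intro x hx
      simp only [hV.eq_iff]
      rw [Finset.sum_ite_eq' s x, if_pos hx]
    · rw [hF0, Finset.sum_image (fun x _ y _ h => hV h)]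
      apply Finset.sum_congr rfl
      intro x hx
      simp only [hV.eq_iff]
      rw [Finset.sum_ite_eq' s x, if_pos hx]
  · intro k
    obtain ⟨φ, hφ, h3, h4⟩ := hF k
    exact ⟨φ, hφ, h3, h4⟩

end Pool.Agent.Lib.MP_3cbb73_an.Slow
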