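import Pool.Agent.Lib.MP_3cbb73_an.Slow.DataC
import Pool.Agent.Lib.MP_3cbb73_an.Slow.Gamma

set_option autoImplicit false
set_option maxRecDepth 100000

/-!
# Kernel checks of the data
-/

namespace Pool.Agent.Lib.MP_3cbb73_an.Slow.DataC

theorem ok1 : D.chkPar = true := by decide +kernel
theorem ok2 : D.chkMain = true := by decide +kernel
theorem ok3 : D.chkDirs = true := by decide +kernel
theorem ok4 : D.chkCst = true := by decide +kernel
theorem ok5 : D.chkQuad = true := by decide +kernel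

/-- the certificate -/
theorem cert : ∃ C : Cert, C.t = (0.2098 : ℝ) ∧ C.T = (4.98 : ℝ) ∧ C.κ = (9 / 20 : ℝ) := by
  obtain ⟨C, h1, h2, h3⟩ := Dat.exists_cert D ok1 ok2 ok3 ok4 ok5
  refine ⟨C, ?_, ?_, ?_⟩
  · rw [h1]; simp only [D]; norm_num
  · rw [h2]; simp only [D]; norm_num
  · rw [h3]; simp only [D]; norm_num

end Pool.Agent.Lib.MP_3cbb73_an.Slow.DataC
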