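import Mathlib

set_option autoImplicit false

/-!
# Riesz bases of a given infinite-dimensional Hilbert space containing a finite system with a
prescribed Gram matrix
-/

namespace Pool.Agent.Lib.MP_3cbb73_an.Slow

open scoped RealInnerProductSpace MatrixOrder
open Finset

universe u

variable {H : Type u} [NormedAddCommGroup H] [InnerProductSpace ℝ H]

lemma norm_sum_sq {κ : Type*} (V : κ → H) (s : Finset κ) (c : κ → ℝ) :
    ‖∑ x ∈ s, c x • V x‖ ^ 2 = ∑ x ∈ s, ∑ y ∈ s, c x * ⟪V x, V y⟫ * c y := by
  rw [← real_inner_self_eq_norm_sq, sum_inner]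
  apply Finset.sum_congr rfl
  intro x _
  rw [inner_sum]
  apply Finset.sum_congr rfl
  intro y _
  rw [real_inner_smul_left, real_inner_smul_right]
  ring

theorem exists_system [CompleteSpace H] (hH : ¬ FiniteDimensional ℝ H)
    {ι : Type} [Fintype ι] [DecidableEq ι] (G : Matrix ι ι ℝ) (hsymm : ∀ i j, G i j = G j i)
    (hd : ∀ i, G i i = 1) {t T : ℝ} (ht : 0 < t) (ht1 : t ≤ 1) (hT : 1 ≤ T)
    (hb : ∀ c : ι → ℝ, t * ∑ i, c i ^ 2 ≤ ∑ i, ∑ j, c i * G i j * c j ∧
      ∑ i, ∑ j, c i * G i j * c j ≤ T * ∑ i, c i ^ 2) :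
    ∃ (κ : Type u) (V : κ → H) (e : ι → κ), Function.Injective e ∧ Function.Injective V ∧
      (∀ x, ‖V x‖ = 1) ∧ Dense ((Submodule.span ℝ (Set.range V) : Submodule ℝ H) : Set H) ∧
      (∀ i j, ⟪V (e i), V (e j)⟫ = G i j) ∧
      (∀ x, x ∉ Set.range e → ∀ i, ⟪V (e i), V x⟫ = 0) ∧
      (∀ (s : Finset κ) (c : κ → ℝ), t * ∑ x ∈ s, c x ^ 2 ≤ ‖∑ x ∈ s, c x • V x‖ ^ 2 ∧
        ‖∑ x ∈ s, c x • V x‖ ^ 2 ≤ T * ∑ x ∈ s, c x ^ 2) := by
  classical
  -- the square root of the Gram matrix
  have hherm : G.IsHermitian := by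
    ext i j
    simp only [Matrix.conjTranspose_apply, star_trivial]
    exact hsymm j i
  have hquad : ∀ c : ι → ℝ, star c ⬝ᵥ (G.mulVec c) = ∑ i, ∑ j, c i * G i j * c j := by
    intro c
    simp only [star_trivial, dotProduct, Matrix.mulVec]
    apply Finset.sum_congr rfl
    intro i _
    rw [Finset.mul_sum]
    apply Finset.sum_congr rfl
    intro j _
    ring
  have hpsd : G.PosSemidef := by
    refine Matrix.PosSemidef.of_dotProduct_mulVec_nonneg hherm (fun c => ?_)
    rw [hquad]
    have h1 := (hb c).1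
    have h2 : 0 ≤ ∑ i, c i ^ 2 := Finset.sum_nonneg (fun i _ => sq_nonneg _)
    have h3 : 0 ≤ t * ∑ i, c i ^ 2 := by positivity
    linarith
  obtain ⟨P, hP⟩ := CStarAlgebra.nonneg_iff_eq_star_mul_self.mp hpsd.nonneg
  have hPG : ∀ i j, ∑ k, P k i * P k j = G i j := by
    intro i j
    rw [hP]
    simp only [Matrix.star_eq_conjTranspose, Matrix.mul_apply, Matrix.conjTranspose_apply,
      star_trivial]
  -- Hilbert basis
  obtain ⟨w, b, hbw⟩ := exists_hilbertBasis ℝ H
  have hw : Infinite w := by
    by_contra hfin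
    rw [not_infinite_iff_finite] at hfin
    apply hH
    have hden : (Submodule.span ℝ (Set.range b)).topologicalClosure = ⊤ := b.dense_span
    have hfr : (Set.range b).Finite := Set.finite_range b
    have hfd : FiniteDimensional ℝ (Submodule.span ℝ (Set.range b)) :=
      FiniteDimensional.span_of_finite ℝ hfr
    have hcl : IsClosed ((Submodule.span ℝ (Set.range b) : Submodule ℝ H) : Set H) :=
      Submodule.closed_of_finiteDimensional _
    rw [IsClosed.submodule_topologicalClosure_eq hcl] at hden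
    rw [hden] at hfd
    exact Module.Finite.of_surjective (Submodule.subtype (⊤ : Submodule ℝ H))
      (fun x => ⟨⟨x, trivial⟩, rfl⟩)
  obtain ⟨emb⟩ : Nonempty (ι ↪ w) := by
    exact ⟨(Fintype.equivFin ι).toEmbedding.trans (Fin.valEmbedding.trans (Infinite.natEmbedding w))⟩
  let v : ι → H := fun i => ∑ k, P k i • b (emb k)
  let V : w → H := fun x => if h : ∃ i, emb i = x then v h.choose else b x
  have hVe : ∀ i, V (emb i) = v i := by
    intro i
    have h : ∃ j, emb j = emb i := ⟨i, rfl⟩
    have h2 : h.choose = i := emb.injective h.choose_spec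
    simp only [V, h, dif_pos, h2]
  have hVn : ∀ x, x ∉ Set.range emb → V x = b x := by
    intro x hx
    have h : ¬ ∃ i, emb i = x := hx
    simp only [V, h, dif_neg, not_false_eq_true]
  have horth : Orthonormal ℝ b := b.orthonormal
  have hbb : ∀ x y, ⟪b x, b y⟫ = if x = y then (1 : ℝ) else 0 := by
    intro x y
    exact (orthonormal_iff_ite.mp horth) x y
  have hvb : ∀ i x, x ∉ Set.range emb → ⟪v i, b x⟫ = 0 := by
    intro i x hx
    simp only [v, sum_inner, real_inner_smul_left, hbb]
    apply Finset.sum_eq_zero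
    intro k _
    have : emb k ≠ x := fun h => hx ⟨k, h⟩
    simp [this]
  have hvv : ∀ i j, ⟪v i, v j⟫ = G i j := by
    intro i j
    simp only [v, sum_inner, inner_sum, real_inner_smul_left, real_inner_smul_right, hbb,
      emb.injective.eq_iff]
    rw [← hPG i j]
    simp [mul_comm]
  have hGram : ∀ i j, ⟪V (emb i), V (emb j)⟫ = G i j := by
    intro i j; rw [hVe, hVe, hvv]
  have hOut : ∀ x, x ∉ Set.range emb → ∀ i, ⟪V (emb i), V x⟫ = 0 := by
    intro x hx i; rw [hVe, hVn x hx, hvb i x hx]
  have hOO : ∀ x y, x ∉ Set.range emb → y ∉ Set.range emb →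
      ⟪V x, V y⟫ = if x = y then (1 : ℝ) else 0 := by
    intro x y hx hy; rw [hVn x hx, hVn y hy, hbb]
  -- the Riesz bounds
  have key : ∀ (s : Finset w) (c : w → ℝ), t * ∑ x ∈ s, c x ^ 2 ≤ ‖∑ x ∈ s, c x • V x‖ ^ 2 ∧
        ‖∑ x ∈ s, c x • V x‖ ^ 2 ≤ T * ∑ x ∈ s, c x ^ 2 := by
    intro s c
    -- reduce to a disjoint union
    let R : Finset w := Finset.univ.map emb
    let c' : w → ℝ := fun x => if x ∈ s then c x else 0
    let s' : Finset w := s \ R
    have hdisj : Disjoint R s' := Finset.disjoint_sdiff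
    have e1 : ∑ x ∈ s, c x • V x = ∑ x ∈ R ∪ s', c' x • V x := by
      have hsub : s ⊆ R ∪ s' := by
        intro x hx
        by_cases hR : x ∈ R
        · exact Finset.mem_union_left _ hR
        · exact Finset.mem_union_right _ (Finset.mem_sdiff.mpr ⟨hx, hR⟩)
      rw [← Finset.sum_subset hsub]
      · apply Finset.sum_congr rfl
        intro x hx
        simp [c', hx]
      · intro x _ hx
        simp [c', hx]
    have e2 : ∑ x ∈ s, c x ^ 2 = ∑ x ∈ R ∪ s', c' x ^ 2 := by
      have hsub : s ⊆ R ∪ s' := by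
        intro x hx
        by_cases hR : x ∈ R
        · exact Finset.mem_union_left _ hR
        · exact Finset.mem_union_right _ (Finset.mem_sdiff.mpr ⟨hx, hR⟩)
      rw [← Finset.sum_subset hsub]
      · apply Finset.sum_congr rfl
        intro x hx
        simp [c', hx]
      · intro x _ hx
        simp [c', hx]
    have hs' : ∀ x ∈ s', x ∉ Set.range emb := by
      intro x hx
      have := (Finset.mem_sdiff.mp hx).2
      intro ⟨i, hi⟩
      exact this (Finset.mem_map.mpr ⟨i, Finset.mem_univ _, hi⟩)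
    rw [e1, e2, Finset.sum_union hdisj, Finset.sum_union hdisj]
    have hR1 : ∑ x ∈ R, c' x • V x = ∑ i, c' (emb i) • V (emb i) := by
      simp only [R, Finset.sum_map]
    have hR2 : ∑ x ∈ R, c' x ^ 2 = ∑ i, c' (emb i) ^ 2 := by
      simp only [R, Finset.sum_map]
    rw [hR1, hR2]
    have horth2 : ⟪∑ i, c' (emb i) • V (emb i), ∑ x ∈ s', c' x • V x⟫ = 0 := by
      rw [sum_inner]
      apply Finset.sum_eq_zero
      intro i _
      rw [inner_sum]
      apply Finset.sum_eq_zero
      intro x hx
      rw [real_inner_smul_left, real_inner_smul_right, hOut x (hs' x hx) i]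
      simp
    have hn1 : ‖∑ i, c' (emb i) • V (emb i)‖ ^ 2
        = ∑ i, ∑ j, c' (emb i) * G i j * c' (emb j) := by
      have := norm_sum_sq (fun i => V (emb i)) Finset.univ (fun i => c' (emb i))
      rw [this]
      simp only [hGram]
    have hn2 : ‖∑ x ∈ s', c' x • V x‖ ^ 2 = ∑ x ∈ s', c' x ^ 2 := by
      rw [norm_sum_sq]
      apply Finset.sum_congr rfl
      intro x hx
      rw [Finset.sum_eq_single x]
      · rw [hOO x x (hs' x hx) (hs' x hx)]; simp; ring
      · intro y hy hyx
        rw [hOO x y (hs' x hx) (hs' y hy), if_neg (Ne.symm hyx)]; simp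
      · intro h; exact absurd hx h
    have hn : ‖(∑ i, c' (emb i) • V (emb i)) + ∑ x ∈ s', c' x • V x‖ ^ 2
        = ‖∑ i, c' (emb i) • V (emb i)‖ ^ 2 + ‖∑ x ∈ s', c' x • V x‖ ^ 2 := by
      rw [norm_add_sq_real, horth2]; ring
    rw [hn, hn1, hn2]
    have hbb' := hb (fun i => c' (emb i))
    have hnn : 0 ≤ ∑ x ∈ s', c' x ^ 2 := Finset.sum_nonneg (fun _ _ => sq_nonneg _)
    constructor
    · nlinarith [hbb'.1]
    · nlinarith [hbb'.2]
  have hnorm : ∀ x, ‖V x‖ = 1 := by
    intro x
    have : ‖V x‖ ^ 2 = 1 := by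
      rw [← real_inner_self_eq_norm_sq]
      by_cases hx : x ∈ Set.range emb
      · obtain ⟨i, rfl⟩ := hx
        rw [hGram, hd]
      · rw [hOO x x hx hx]; simp
    have h0 := norm_nonneg (V x)
    nlinarith
  refine ⟨w, V, emb, emb.injective, ?_, hnorm, ?_, hGram, hOut, key⟩
  · -- injectivity
    intro x y hxy
    by_contra hne
    have h1 := (key {x, y} (fun z => if z = x then 1 else -1)).1
    rw [Finset.sum_pair hne, Finset.sum_pair hne] at h1
    simp only [if_true, if_neg (Ne.symm hne), hxy] at h1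
    simp at h1
    linarith
  · -- density
    have hspan : Submodule.span ℝ (Set.range b) ≤ Submodule.span ℝ (Set.range V) := by
      rw [Submodule.span_le]
      rintro _ ⟨x, rfl⟩
      by_cases hx : x ∈ Set.range emb
      · obtain ⟨i, rfl⟩ := hx
        -- invert P
        have hPos : G.PosDef := by
          refine Matrix.PosDef.of_dotProduct_mulVec_pos hherm (fun c hc => ?_)
          rw [hquad]
          have h1 := (hb c).1
          have h2 : 0 < ∑ i, c i ^ 2 := by
            obtain ⟨j, hj⟩ := Function.ne_iff.mp hc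
            refine Finset.sum_pos' (fun i _ => sq_nonneg _) ⟨j, Finset.mem_univ _, ?_⟩
            have : c j ≠ 0 := by simpa using hj
            positivity
          have h3 : 0 < t * ∑ i, c i ^ 2 := by positivity
          linarith
        have hU : IsUnit G := hPos.isUnit
        have hUP : IsUnit P := by
          rw [Matrix.isUnit_iff_isUnit_det] at hU ⊢
          rw [hP, Matrix.det_mul] at hU
          exact isUnit_of_mul_isUnit_right hU
        have hinv : P * P⁻¹ = 1 := Matrix.mul_nonsing_inv P ((Matrix.isUnit_iff_isUnit_det P).mp hUP)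
        have : b (emb i) = ∑ j, (P⁻¹ j i) • v j := by
          simp only [v, Finset.smul_sum, smul_smul]
          rw [Finset.sum_comm]
          have h4 : ∀ k, ∑ j, (P⁻¹ j i * P k j) • b (emb k)
              = ((P * P⁻¹) k i) • b (emb k) := by
            intro k
            rw [← Finset.sum_smul, Matrix.mul_apply]
            congr 1
            apply Finset.sum_congr rfl
            intro j _
            ring
          simp only [h4, hinv, Matrix.one_apply]
          simp
        rw [this]
        refine Submodule.sum_mem _ (fun j _ => Submodule.smul_mem _ _ ?_)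
        rw [← hVe]
        exact Submodule.subset_span ⟨_, rfl⟩
      · rw [← hVn x hx]
        exact Submodule.subset_span ⟨_, rfl⟩
    have h1 : (Submodule.span ℝ (Set.range b)).topologicalClosure = ⊤ := b.dense_span
    have h2 : (Submodule.span ℝ (Set.range V)).topologicalClosure = ⊤ := by
      rw [eq_top_iff, ← h1]
      exact Submodule.topologicalClosure_mono hspan
    rw [← Submodule.dense_iff_topologicalClosure_eq_top] at h2
    exact h2

end Pool.Agent.Lib.MP_3cbb73_an.Slow
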