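import Mathlib

set_option autoImplicit false

/-!
# Integer list arithmetic with error bounds (for the numerical certificate)
-/

namespace Pool.Agent.Lib.MP_3cbb73_an.Slow

/-- Addition of integer lists, padded with zeros. -/
def ladd : List ℤ → List ℤ → List ℤ
  | [], ys => ys
  | x :: xs, [] => x :: xs
  | x :: xs, y :: ys => (x + y) :: ladd xs ys

/-- Scalar multiplication. -/
def lsmul (c : ℤ) : List ℤ → List ℤ
  | [] => []
  | x :: xs => (c * x) :: lsmul c xs

/-- Shift by `a` places. -/
def lshift : ℕ → List ℤ → List ℤ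
  | 0, xs => xs
  | a + 1, xs => 0 :: lshift a xs

/-- `⌊x_i * num^i / den^i⌋`. -/
def vpos (P Q : ℕ) : ℕ → ℕ → List ℤ → List ℤ
  | _, _, [] => []
  | num, den, x :: xs => (x * (num : ℤ) / (den : ℤ)) :: vpos P Q (num * P) (den * Q) xs

/-- The two-sided list `v(-L), …, v(L)`. -/
def vlist (P Q : ℕ) (G : List ℤ) : List ℤ :=
  (vpos Q P 1 1 G).tail.reverse ++ vpos P Q 1 1 G

/-- `∑ σ_s · shift a_s V`. -/
def qlist (V : List ℤ) : List (ℕ × ℤ) → List ℤ
  | [] => []
  | s :: rest => ladd (lshift s.1 (lsmul s.2 V)) (qlist V rest)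

/-- The backward recursion `y_j = ⌊p y_{j+1} / q⌋ + x_j`. -/
def rrec (p q : ℕ) : List ℤ → List ℤ
  | [] => []
  | x :: xs =>
    let ys := rrec p q xs
    ((p : ℤ) * ys.headD 0 / (q : ℤ) + x) :: ys

/-- `X` represents the sequence `f` at scale `c` up to an error `e`. -/
def Rep (X : List ℤ) (c e : ℝ) (f : ℕ → ℝ) : Prop := ∀ j, |(X.getD j 0 : ℝ) - c * f j| ≤ e

lemma getD_ladd (xs ys : List ℤ) (j : ℕ) :
    (ladd xs ys).getD j 0 = xs.getD j 0 + ys.getD j 0 := by
  induction xs generalizing ys j with
  | nil => simp [ladd]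
  | cons x xs ih =>
    cases ys with
    | nil => simp [ladd]
    | cons y ys =>
      cases j with
      | zero => simp [ladd]
      | succ j =>
        simp only [ladd, List.getD_cons_succ]
        exact ih ys j

lemma getD_lsmul (c : ℤ) (xs : List ℤ) (j : ℕ) : (lsmul c xs).getD j 0 = c * xs.getD j 0 := by
  induction xs generalizing j with
  | nil => simp [lsmul]
  | cons x xs ih =>
    cases j with
    | zero => simp [lsmul]
    | succ j =>
      simp only [lsmul, List.getD_cons_succ]
      exact ih j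

lemma getD_lshift (a : ℕ) (xs : List ℤ) (j : ℕ) :
    (lshift a xs).getD j 0 = if j < a then 0 else xs.getD (j - a) 0 := by
  induction a generalizing j with
  | zero => simp [lshift]
  | succ a ih =>
    cases j with
    | zero => simp [lshift]
    | succ j =>
      simp only [lshift, List.getD_cons_succ]
      rw [ih j]
      by_cases h : j < a
      · simp [h]
      · have h1 : ¬ (j + 1 < a + 1) := by omega
        simp only [h, h1, if_false]
        congr 1
        omega

lemma length_ladd (xs ys : List ℤ) : (ladd xs ys).length = max xs.length ys.length := by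
  induction xs generalizing ys with
  | nil => simp [ladd]
  | cons x xs ih =>
    cases ys with
    | nil => simp [ladd]
    | cons y ys => simp [ladd, ih]

lemma length_lsmul (c : ℤ) (xs : List ℤ) : (lsmul c xs).length = xs.length := by
  induction xs with
  | nil => simp [lsmul]
  | cons x xs ih => simp [lsmul, ih]

lemma length_lshift (a : ℕ) (xs : List ℤ) : (lshift a xs).length = a + xs.length := by
  induction a with
  | zero => simp [lshift]
  | succ a ih => simp [lshift, ih]; omega

lemma length_rrec (p q : ℕ) (xs : List ℤ) : (rrec p q xs).length = xs.length := by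
  induction xs with
  | nil => simp [rrec]
  | cons x xs ih => simp [rrec, ih]

lemma getD_rrec (p q : ℕ) (xs : List ℤ) (j : ℕ) :
    (rrec p q xs).getD j 0 = if j < xs.length then
      (p : ℤ) * (rrec p q xs).getD (j + 1) 0 / (q : ℤ) + xs.getD j 0 else 0 := by
  induction xs generalizing j with
  | nil => simp [rrec]
  | cons x xs ih =>
    cases j with
    | zero =>
      simp only [rrec, List.getD_cons_zero, List.getD_cons_succ, List.length_cons,
        Nat.zero_lt_succ, if_true]
      congr 3
      cases rrec p q xs <;> simp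
    | succ j =>
      simp only [rrec, List.getD_cons_succ, List.length_cons, Nat.add_lt_add_iff_right]
      exact ih j

lemma floor_err (x : ℤ) (q : ℕ) (hq : 0 < q) : |((x / (q : ℤ) : ℤ) : ℝ) - (x : ℝ) / q| ≤ 1 := by
  have h1 := Int.emod_nonneg x (show (q : ℤ) ≠ 0 by exact_mod_cast hq.ne')
  have h2 := Int.emod_lt_of_pos x (show (0 : ℤ) < q by exact_mod_cast hq)
  have h3 := Int.mul_ediv_add_emod x q
  have hq' : (0 : ℝ) < q := by exact_mod_cast hq
  have h4 : (x : ℝ) = (q : ℝ) * ((x / (q : ℤ) : ℤ) : ℝ) + ((x % (q : ℤ) : ℤ) : ℝ) := by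
    exact_mod_cast h3.symm
  have h5 : (0 : ℝ) ≤ ((x % (q : ℤ) : ℤ) : ℝ) := by exact_mod_cast h1
  have h6 : ((x % (q : ℤ) : ℤ) : ℝ) ≤ q := by exact_mod_cast h2.le
  have h7 : (x : ℝ) / q = ((x / (q : ℤ) : ℤ) : ℝ) + ((x % (q : ℤ) : ℤ) : ℝ) / q := by
    rw [div_eq_iff hq'.ne', add_mul, div_mul_cancel₀ _ hq'.ne']
    linarith
  rw [h7, abs_le]
  have h8 : 0 ≤ ((x % (q : ℤ) : ℤ) : ℝ) / q := by positivity
  have h9 : ((x % (q : ℤ) : ℤ) : ℝ) / q ≤ 1 := by rw [div_le_one hq']; exact h6
  constructor <;> linarith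

lemma getD_vpos (P Q : ℕ) (num den : ℕ) (xs : List ℤ) (j : ℕ) :
    (vpos P Q num den xs).getD j 0 = if j < xs.length then
      xs.getD j 0 * ((num * P ^ j : ℕ) : ℤ) / ((den * Q ^ j : ℕ) : ℤ) else 0 := by
  induction xs generalizing num den j with
  | nil => simp [vpos]
  | cons x xs ih =>
    cases j with
    | zero => simp [vpos]
    | succ j =>
      simp only [vpos, List.getD_cons_succ, List.length_cons, Nat.add_lt_add_iff_right]
      rw [ih]
      have e1 : num * P * P ^ j = num * P ^ (j + 1) := by ring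
      have e2 : den * Q * Q ^ j = den * Q ^ (j + 1) := by ring
      rw [e1, e2]

lemma length_vpos (P Q : ℕ) (num den : ℕ) (xs : List ℤ) :
    (vpos P Q num den xs).length = xs.length := by
  induction xs generalizing num den with
  | nil => simp [vpos]
  | cons x xs ih => simp [vpos, ih]

/-- error of the entries of `vpos` -/
lemma vpos_err (P Q : ℕ) (hQ : 0 < Q) (xs : List ℤ) (j : ℕ) (hj : j < xs.length) :
    |((vpos P Q 1 1 xs).getD j 0 : ℝ) - ((P : ℝ) / Q) ^ j * xs.getD j 0| ≤ 1 := by
  rw [getD_vpos, if_pos hj]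
  have h := floor_err (xs.getD j 0 * ((1 * P ^ j : ℕ) : ℤ)) (1 * Q ^ j) (by positivity)
  have e : (((xs.getD j 0 * ((1 * P ^ j : ℕ) : ℤ) : ℤ) : ℝ)) / ((1 * Q ^ j : ℕ) : ℝ)
      = ((P : ℝ) / Q) ^ j * xs.getD j 0 := by
    push_cast
    rw [div_pow]
    ring
  rw [e] at h
  exact h

lemma getD_vlist_pos (P Q : ℕ) (G : List ℤ) (L : ℕ) (hL : G.length = L + 1) (j : ℕ) :
    (vlist P Q G).getD (L + j) 0 = (vpos P Q 1 1 G).getD j 0 := by
  unfold vlist
  have h : ((vpos Q P 1 1 G).tail.reverse).length = L := by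
    rw [List.length_reverse, List.length_tail, length_vpos, hL]; omega
  rw [List.getD_append_right _ _ _ _ (by omega), h]
  congr 1
  omega

lemma getD_vlist_neg (P Q : ℕ) (G : List ℤ) (L : ℕ) (hL : G.length = L + 1) (j : ℕ) (hj : j < L) :
    (vlist P Q G).getD j 0 = (vpos Q P 1 1 G).getD (L - j) 0 := by
  unfold vlist
  have h : ((vpos Q P 1 1 G).tail.reverse).length = L := by
    rw [List.length_reverse, List.length_tail, length_vpos, hL]; omega
  rw [List.getD_append _ _ _ _ (by omega)]
  have h2 : ((vpos Q P 1 1 G).tail).length = L := by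
    rw [List.length_tail, length_vpos, hL]; omega
  rw [List.getD_reverse _ (by omega), h2]
  have e : L - 1 - j + 1 = L - j := by omega
  rw [← e]
  cases hv : vpos Q P 1 1 G with
  | nil =>
    have := length_vpos Q P 1 1 G
    rw [hv, hL] at this
    simp at this
  | cons y ys => simp

end Pool.Agent.Lib.MP_3cbb73_an.Slow
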