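import Mathlib

set_option autoImplicit false

/-!
# Legal paths of the pure greedy algorithm
-/

namespace Pool.Agent.Lib.MP_3cbb73_an.Slow

open scoped RealInnerProductSpace

variable {H : Type*} [NormedAddCommGroup H] [InnerProductSpace ℝ H]

/-- One legal step of the pure greedy algorithm. -/
def Step (D : Set H) (f f' : H) : Prop :=
  ∃ φ ∈ D, (∀ g ∈ D, |⟪f, g⟫| ≤ |⟪f, φ⟫|) ∧ f' = f - ⟪f, φ⟫ • φ

/-- `n` legal steps from `f` to `f'`. -/
def Reach (D : Set H) (n : ℕ) (f f' : H) : Prop :=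
  ∃ F : ℕ → H, F 0 = f ∧ F n = f' ∧ ∀ m < n, Step D (F m) (F (m + 1))

lemma Reach.refl (D : Set H) (f : H) : Reach D 0 f f :=
  ⟨fun _ => f, rfl, rfl, fun _ h => absurd h (Nat.not_lt_zero _)⟩

lemma Reach.trans {D : Set H} {n k : ℕ} {f f' f'' : H} (h1 : Reach D n f f')
    (h2 : Reach D k f' f'') : Reach D (n + k) f f'' := by
  obtain ⟨F, hF0, hFn, hF⟩ := h1
  obtain ⟨G, hG0, hGk, hG⟩ := h2
  refine ⟨fun m => if m ≤ n then F m else G (m - n), ?_, ?_, ?_⟩
  · simp [hF0]
  · by_cases hk : k = 0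
    · subst hk
      simp only [Nat.add_zero, le_refl, if_true]
      rw [hFn, ← hGk, hG0]
    · have : ¬ (n + k ≤ n) := by omega
      simp only [this, if_false]
      rw [Nat.add_sub_cancel_left, hGk]
  · intro m hm
    by_cases h : m < n
    · have h1 : m ≤ n := h.le
      have h2 : m + 1 ≤ n := h
      simp only [h1, h2, if_true]
      exact hF m h
    · have h2 : ¬ (m + 1 ≤ n) := by omega
      simp only [h2, if_false]
      have h3 : m + 1 - n = (m - n) + 1 := by omega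
      rw [h3]
      by_cases h4 : m ≤ n
      · have h5 : m = n := by omega
        subst h5
        simp only [le_refl, if_true, Nat.sub_self, Nat.zero_add]
        have := hG 0 (by omega)
        rwa [hG0, ← hFn, Nat.zero_add] at this
      · simp only [h4, if_false]
        exact hG (m - n) (by omega)

/-- A path can be continued to an infinite realization. -/
lemma Reach.extend {D : Set H} (S : Set H) (hS : ∀ f ∈ S, ∃ f' ∈ S, Step D f f')
    {n : ℕ} {f f' : H} (h : Reach D n f f') (hf' : f' ∈ S) :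
    ∃ F : ℕ → H, F 0 = f ∧ F n = f' ∧ ∀ m, Step D (F m) (F (m + 1)) := by
  classical
  obtain ⟨F, hF0, hFn, hF⟩ := h
  choose nx hnx hst using hS
  let G : ℕ → S := fun k => Nat.rec (⟨f', hf'⟩ : S) (fun _ x => ⟨nx x.1 x.2, hnx x.1 x.2⟩) k
  have hG0 : (G 0).1 = f' := rfl
  have hGs : ∀ k, Step D (G k).1 (G (k + 1)).1 := fun k => hst (G k).1 (G k).2
  refine ⟨fun m => if m ≤ n then F m else (G (m - n)).1, ?_, ?_, ?_⟩
  · simp [hF0]
  · simp [hFn]
  · intro m
    by_cases h : m < n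
    · have h1 : m ≤ n := h.le
      have h2 : m + 1 ≤ n := h
      simp only [h1, h2, if_true]
      exact hF m h
    · have h2 : ¬ (m + 1 ≤ n) := by omega
      simp only [h2, if_false]
      have h3 : m + 1 - n = (m - n) + 1 := by omega
      rw [h3]
      by_cases h4 : m ≤ n
      · have h5 : m = n := by omega
        subst h5
        simp only [le_refl, if_true, Nat.sub_self, Nat.zero_add]
        have := hGs 0
        rwa [hG0, ← hFn, Nat.zero_add] at this
      · simp only [h4, if_false]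
        exact hGs (m - n)

lemma Step.norm_le {D : Set H} (hD : ∀ g ∈ D, ‖g‖ = 1) {f f' : H} (h : Step D f f') :
    ‖f'‖ ≤ ‖f‖ := by
  obtain ⟨φ, hφ, -, rfl⟩ := h
  have h1 : ‖f - ⟪f, φ⟫ • φ‖ ^ 2 = ‖f‖ ^ 2 - ⟪f, φ⟫ ^ 2 := by
    rw [norm_sub_sq_real, norm_smul, inner_smul_right, hD φ hφ, mul_one, Real.norm_eq_abs, sq_abs]
    ring
  have h2 : ‖f - ⟪f, φ⟫ • φ‖ ^ 2 ≤ ‖f‖ ^ 2 := by
    rw [h1]; nlinarith [sq_nonneg (⟪f, φ⟫)]
  exact le_of_sq_le_sq h2 (norm_nonneg f) 

lemma norm_antitone {D : Set H} (hD : ∀ g ∈ D, ‖g‖ = 1) {F : ℕ → H}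
    (h : ∀ m, Step D (F m) (F (m + 1))) : Antitone (fun m => ‖F m‖) :=
  antitone_nat_of_succ_le (fun m => (h m).norm_le hD)

end Pool.Agent.Lib.MP_3cbb73_an.Slow
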