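import Pool.Agent.Lib.MP_3cbb73_an.Slow.Block
import Pool.Agent.Lib.MP_3cbb73_an.Slow.Dict

set_option autoImplicit false

/-!
# Self-similar schedules and slow realizations of the pure greedy algorithm
-/

namespace Pool.Agent.Lib.MP_3cbb73_an.Slow

open scoped RealInnerProductSpace
open Finset

/-- The coefficients at stage `s` of a cycle. -/
noncomputable def Est (a : ℕ → ℕ) (σ : ℕ → ℝ) (E : ℕ → ℝ) (s l : ℕ) : ℝ :=
  E l + ∑ s' ∈ range s, if a s' = l then σ s' else 0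

/-- The normalised residual at stage `s` and age `i`. -/
noncomputable def rr (I : ℕ) (μ : ℝ) (g : ℕ → ℝ) (a : ℕ → ℕ) (σ : ℕ → ℝ) (E : ℕ → ℝ)
    (s : ℕ) (i : ℤ) : ℝ :=
  -∑ l ∈ range (I + 1), Est a σ E s l * (μ ^ (i - l) * g (i - l).natAbs)

/-- A self-similar schedule. -/
structure Cert where
  I : ℕ
  N : ℕ
  μ : ℝ
  ρ : ℝ
  δ : ℝ
  t : ℝ
  T : ℝ
  κ : ℝ
  g : ℕ → ℝ
  a : ℕ → ℕ
  σ : ℕ → ℝ
  E : ℕ → ℝ
  hN : 0 < N
  hμ : 1 < μ
  hρ : 0 < ρ
  hρ1 : ρ ≤ 1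
  hρμ : μ ^ (-(1 + 2 * κ)) ≤ ρ
  hκ : 0 ≤ κ
  hδ : 0 < δ
  hδ1 : δ < 1
  ht : 0 < t
  ht1 : t ≤ 1
  hT : 1 ≤ T
  hg0 : g 0 = 1
  hQ : ∀ (J : ℕ) (u : Fin J → ℝ),
    t * ∑ k, u k ^ 2 ≤ ∑ k : Fin J, ∑ l : Fin J, u k * g ((k : ℤ) - l).natAbs * u l ∧
      ∑ k : Fin J, ∑ l : Fin J, u k * g ((k : ℤ) - l).natAbs * u l ≤ T * ∑ k, u k ^ 2
  hE0 : E 0 = 0
  hE1 : E 1 ≠ 0
  hEI : ∀ l, I < l → E l = 0
  ha : ∀ s, s < N → a s ≤ I
  hshift : ∀ l, ρ * E (l + 1) = E l + ∑ s ∈ range N, if a s = l then σ s else 0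
  hσ : ∀ s, s < N → σ s ≠ 0
  hsw : ∀ s, s < N → rr I μ g a σ E s (a s) = σ s
  hbd : ∀ s, s < N → ∀ i : ℤ, i ≠ a s → |rr I μ g a σ E s i| ≤ (1 - δ) * |σ s|
  hdec : ∀ s, s + 1 < N → |σ (s + 1)| ≤ (1 - δ) * |σ s|
  hlast : ρ * |σ 0| ≤ (1 - δ) * |σ (N - 1)|

namespace Cert

variable (C : Cert)

/-- The normalised residual. -/
noncomputable abbrev r (s : ℕ) (i : ℤ) : ℝ := rr C.I C.μ C.g C.a C.σ C.E s i

/-- The coefficients. -/
noncomputable abbrev Es (s l : ℕ) : ℝ := Est C.a C.σ C.E s l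

lemma Es_zero (l : ℕ) : C.Es 0 l = C.E l := by simp [Est]

lemma Es_succ (s l : ℕ) : C.Es (s + 1) l = C.Es s l + if C.a s = l then C.σ s else 0 := by
  simp only [Es, Est, Finset.sum_range_succ]; ring

lemma Es_last (l : ℕ) : C.Es C.N l = C.ρ * C.E (l + 1) := by
  rw [C.hshift]; rfl

lemma Es_big (s : ℕ) (hs : s ≤ C.N) (l : ℕ) (hl : C.I < l) : C.Es s l = 0 := by
  unfold Es Est
  rw [C.hEI l hl, zero_add]
  apply Finset.sum_eq_zero
  intro s' hs'
  have h1 : s' < C.N := lt_of_lt_of_le (Finset.mem_range.mp hs') hs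
  have h2 := C.ha s' h1
  have : C.a s' ≠ l := by omega
  simp [this]

lemma r_last (i : ℤ) : C.r C.N i = C.ρ * C.r 0 (i + 1) := by
  unfold r rr
  have h1 : ∀ l, Est C.a C.σ C.E C.N l = C.ρ * C.E (l + 1) := C.Es_last
  have h2 : ∀ l, Est C.a C.σ C.E 0 l = C.E l := C.Es_zero
  simp only [h1, h2]
  have h3 : ∑ l ∈ range (C.I + 1), C.E l * (C.μ ^ (i + 1 - (l : ℤ)) * C.g (i + 1 - (l : ℤ)).natAbs)
      = ∑ l ∈ range (C.I + 2), C.E l * (C.μ ^ (i + 1 - (l : ℤ)) * C.g (i + 1 - (l : ℤ)).natAbs) := by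
    rw [Finset.sum_range_succ _ (C.I + 1), C.hEI (C.I + 1) (by omega)]
    simp
  rw [h3, Finset.sum_range_succ' _ (C.I + 1), C.hE0, zero_mul, add_zero, mul_neg, Finset.mul_sum]
  congr 1
  apply Finset.sum_congr rfl
  intro l _
  have h4 : i + 1 - ((l + 1 : ℕ) : ℤ) = i - (l : ℤ) := by push_cast; ring
  rw [h4]; ring

/-- The Toeplitz matrix. -/
noncomputable def M (k l : ℕ) : ℝ := C.g ((k : ℤ) - l).natAbs

lemma M_symm (k l : ℕ) : C.M k l = C.M l k := by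
  unfold M
  congr 1
  omega

lemma M_self (k : ℕ) : C.M k k = 1 := by
  unfold M; simp [C.hg0]

/-- The block coordinates of the residual in cycle `K`, stage `s`. -/
noncomputable def uS (A : ℝ) (K s k : ℕ) : ℝ :=
  if k ≤ K then -(A * C.ρ ^ K * C.μ ^ k * C.Es s (K - k)) else 0

lemma res_uS (A : ℝ) (J K s k : ℕ) (hs : s ≤ C.N) (hK : C.I ≤ K) (hJ : K < J) :
    res J C.M (C.uS A K s) k = A * C.ρ ^ K * C.μ ^ k * C.r s ((K : ℤ) - k) := by
  unfold res
  rw [Fin.sum_univ_eq_sum_range (fun l => C.M k l * C.uS A K s l) J]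
  have hsub : range (K + 1) ⊆ range J := by
    intro x hx; rw [Finset.mem_range] at *; omega
  rw [← Finset.sum_subset hsub]
  swap
  · intro x _ hx
    rw [Finset.mem_range, not_lt] at hx
    unfold uS
    rw [if_neg (by omega), mul_zero]
  rw [← Finset.sum_range_reflect]
  have hsub2 : range (C.I + 1) ⊆ range (K + 1) := by
    intro x hx; rw [Finset.mem_range] at *; omega
  rw [← Finset.sum_subset hsub2]
  swap
  · intro x hx hx2
    rw [Finset.mem_range] at hx hx2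
    have e1 : K + 1 - 1 - x = K - x := by omega
    rw [e1]
    unfold uS
    rw [if_pos (by omega)]
    have e2 : K - (K - x) = x := by omega
    rw [e2, C.Es_big s hs x (by omega)]
    ring
  unfold r rr
  rw [mul_neg, Finset.mul_sum, ← Finset.sum_neg_distrib]
  apply Finset.sum_congr rfl
  intro x hx
  rw [Finset.mem_range] at hx
  have e1 : K + 1 - 1 - x = K - x := by omega
  rw [e1]
  unfold uS
  rw [if_pos (by omega)]
  have e2 : K - (K - x) = x := by omega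
  rw [e2]
  unfold M
  have e3 : ((k : ℤ) - ((K - x : ℕ) : ℤ)).natAbs = ((K : ℤ) - k - x).natAbs := by
    have : x ≤ K := by omega
    push_cast [this]
    omega
  rw [e3]
  have hμ0 : C.μ ≠ 0 := by have := C.hμ; linarith
  have e4 : C.μ ^ (K - x) = C.μ ^ k * C.μ ^ ((K : ℤ) - k - x) := by
    rw [← zpow_natCast, ← zpow_natCast, ← zpow_add₀ hμ0]
    congr 1
    have : x ≤ K := by omega
    push_cast [this]
    ring
  rw [e4]
  ring

/-- The block sizes. -/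
noncomputable def N0 : ℕ := ⌈1 / C.δ⌉₊

lemma N0_spec : 1 ≤ C.δ * C.N0 := by
  have h := Nat.le_ceil (1 / C.δ)
  have hδ := C.hδ
  have : 1 / C.δ ≤ C.N0 := h
  rw [div_le_iff₀ hδ] at this
  linarith

lemma N0_pos : (0 : ℝ) < C.N0 := by
  have h := C.N0_spec
  have hδ := C.hδ
  by_contra hc
  push Not at hc
  nlinarith

/-- The block sizes. -/
noncomputable def nn (k : ℕ) : ℕ := ⌈(C.N0 : ℝ) * (C.μ ^ k) ^ 2⌉₊

lemma mu_pow_pos (k : ℕ) : 0 < C.μ ^ k := by
  have := C.hμ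
  positivity

lemma one_le_mu_pow (k : ℕ) : 1 ≤ C.μ ^ k := one_le_pow₀ C.hμ.le

lemma nn_ge (k : ℕ) : (C.N0 : ℝ) * (C.μ ^ k) ^ 2 ≤ C.nn k := Nat.le_ceil _

lemma nn_le (k : ℕ) : (C.nn k : ℝ) ≤ (C.N0 + 1) * (C.μ ^ k) ^ 2 := by
  have h1 : (C.nn k : ℝ) < (C.N0 : ℝ) * (C.μ ^ k) ^ 2 + 1 :=
    Nat.ceil_lt_add_one (by have := C.N0_pos; positivity)
  have h2 : 1 ≤ (C.μ ^ k) ^ 2 := one_le_pow₀ (C.one_le_mu_pow k)
  nlinarith

lemma nn_pos (k : ℕ) : 0 < C.nn k := by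
  have h1 := C.nn_ge k
  have h2 : 0 < (C.N0 : ℝ) * (C.μ ^ k) ^ 2 := by
    have := C.N0_pos
    have := C.mu_pow_pos k
    positivity
  have : (0 : ℝ) < C.nn k := lt_of_lt_of_le h2 h1
  exact_mod_cast this

lemma nn_mono {k l : ℕ} (h : k ≤ l) : C.nn k ≤ C.nn l := by
  unfold nn
  apply Nat.ceil_mono
  have h1 : C.μ ^ k ≤ C.μ ^ l := pow_le_pow_right₀ C.hμ.le h
  have h2 := C.mu_pow_pos k
  have h3 := C.N0_pos
  gcongr

/-- comparison of the weights -/
lemma weight (k l : ℕ) : (1 - C.δ) * (C.μ ^ k / √(C.nn k)) ≤ C.μ ^ l / √(C.nn l) := by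
  have hk : (0 : ℝ) < C.nn k := by exact_mod_cast C.nn_pos k
  have hl : (0 : ℝ) < C.nn l := by exact_mod_cast C.nn_pos l
  have hsk : 0 < √(C.nn k : ℝ) := Real.sqrt_pos.mpr hk
  have hsl : 0 < √(C.nn l : ℝ) := Real.sqrt_pos.mpr hl
  have h1 := C.hδ
  have h2 := C.hδ1
  have hN0 := C.N0_pos
  have mk := C.mu_pow_pos k
  have ml := C.mu_pow_pos l
  -- square both sides
  have hA : ((1 - C.δ) * (C.μ ^ k / √(C.nn k))) ^ 2 ≤ (C.μ ^ l / √(C.nn l)) ^ 2 := by
    rw [mul_pow, div_pow, div_pow, Real.sq_sqrt hk.le, Real.sq_sqrt hl.le]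
    have e1 : (C.μ ^ k) ^ 2 / C.nn k ≤ 1 / C.N0 := by
      rw [div_le_div_iff₀ hk hN0]
      have := C.nn_ge k
      linarith
    have e2 : 1 / ((C.N0 : ℝ) + 1) ≤ (C.μ ^ l) ^ 2 / C.nn l := by
      rw [div_le_div_iff₀ (by linarith) hl]
      have := C.nn_le l
      linarith
    have e3 : (1 - C.δ) ^ 2 * (1 / C.N0) ≤ 1 / ((C.N0 : ℝ) + 1) := by
      rw [mul_one_div, div_le_div_iff₀ hN0 (by linarith)]
      have := C.N0_spec
      nlinarith [mul_pos h1 hN0]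
    calc (1 - C.δ) ^ 2 * ((C.μ ^ k) ^ 2 / C.nn k) ≤ (1 - C.δ) ^ 2 * (1 / C.N0) := by gcongr
      _ ≤ 1 / ((C.N0 : ℝ) + 1) := e3
      _ ≤ _ := e2
  have hB : 0 ≤ C.μ ^ l / √(C.nn l) := by positivity
  exact le_of_sq_le_sq hA hB

lemma sum_term_nonneg_aux (A : ℝ) (hA : 0 < A) (K k : ℕ) : 0 < A * C.ρ ^ K * C.μ ^ k := by
  have := C.hρ
  have := C.mu_pow_pos k
  positivity

variable {H : Type*} [NormedAddCommGroup H] [InnerProductSpace ℝ H]

/-- One sweep. -/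
lemma sweep_stage {A : ℝ} (hA : 0 < A) {J K : ℕ} (hK : C.I ≤ K) (hJ : K < J)
    (v : Idx J C.nn → H) (hv : ∀ x y, ⟪v x, v y⟫ = gram J C.nn C.M x y) (D : Set H)
    (hvD : ∀ x, v x ∈ D) (hD : ∀ g ∈ D, (∃ x, g = v x) ∨ ∀ x, ⟪v x, g⟫ = 0)
    {s : ℕ} (hs : s < C.N) :
    Reach D (C.nn (K - C.a s)) (vec J C.nn v (C.uS A K s)) (vec J C.nn v (C.uS A K (s + 1))) := by
  have has := C.ha s hs
  set l : Fin J := ⟨K - C.a s, by omega⟩ with hl
  have hlv : ((l : ℕ) : ℤ) = (K : ℤ) - C.a s := by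
    simp only [hl]; push_cast [show C.a s ≤ K by omega]; ring
  have hres : ∀ k : ℕ, res J C.M (C.uS A K s) k
      = A * C.ρ ^ K * C.μ ^ k * C.r s ((K : ℤ) - k) := fun k =>
    C.res_uS A J K s k hs.le hK hJ
  have hres' : ∀ k : ℕ, res J C.M (C.uS A K (s + 1)) k
      = A * C.ρ ^ K * C.μ ^ k * C.r (s + 1) ((K : ℤ) - k) := fun k =>
    C.res_uS A J K (s + 1) k hs hK hJ
  have hresl : res J C.M (C.uS A K s) l = A * C.ρ ^ K * C.μ ^ (l : ℕ) * C.σ s := by
    rw [hres l, hlv]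
    have : (K : ℤ) - ((K : ℤ) - C.a s) = C.a s := by ring
    rw [this]
    simp only [r]
    rw [C.hsw s hs]
  have hupd : Function.update (C.uS A K s) (l : ℕ) (C.uS A K s l - res J C.M (C.uS A K s) l)
      = C.uS A K (s + 1) := by
    funext k
    by_cases hk : k = l
    · subst hk
      rw [Function.update_self, hresl]
      unfold uS
      have h1 : (l : ℕ) ≤ K := by simp only [hl]; omega
      rw [if_pos h1, if_pos h1, C.Es_succ]
      have h2 : K - (l : ℕ) = C.a s := by simp only [hl]; omega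
      rw [h2, if_pos rfl]
      ring
    · rw [Function.update_of_ne hk]
      unfold uS
      by_cases h1 : k ≤ K
      · rw [if_pos h1, if_pos h1, C.Es_succ]
        have h2 : C.a s ≠ K - k := by
          intro h3
          apply hk
          simp only [hl]; omega
        rw [if_neg h2, add_zero]
      · rw [if_neg h1, if_neg h1]
  have hpos : ∀ k : ℕ, 0 < A * C.ρ ^ K * C.μ ^ k := C.sum_term_nonneg_aux A hA K
  have hAK : 0 < A * C.ρ ^ K := by have := C.hρ; positivity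
  have hσ0 : 0 ≤ |C.σ s| := abs_nonneg _
  have hsq : ∀ k, 0 < √(C.nn k : ℝ) := fun k =>
    Real.sqrt_pos.mpr (by exact_mod_cast C.nn_pos k)
  -- the general comparison
  have comp : ∀ (k : ℕ) (x : ℝ), |x| ≤ (1 - C.δ) * |C.σ s| →
      |A * C.ρ ^ K * C.μ ^ k * x| / √(C.nn k)
        ≤ |A * C.ρ ^ K * C.μ ^ (l : ℕ) * C.σ s| / √(C.nn l) := by
    intro k x hx
    rw [abs_mul (A * C.ρ ^ K * C.μ ^ k), abs_mul (A * C.ρ ^ K * C.μ ^ (l : ℕ)),
      abs_of_pos (hpos k), abs_of_pos (hpos l)]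
    have hw := C.weight k l
    have e1 : A * C.ρ ^ K * C.μ ^ k * |x| / √(C.nn k)
        = A * C.ρ ^ K * (C.μ ^ k / √(C.nn k)) * |x| := by ring
    have e2 : A * C.ρ ^ K * C.μ ^ (l : ℕ) * |C.σ s| / √(C.nn l)
        = A * C.ρ ^ K * (C.μ ^ (l : ℕ) / √(C.nn l)) * |C.σ s| := by ring
    rw [e1, e2]
    have hwk : 0 ≤ C.μ ^ k / √(C.nn k) := by
      have := C.mu_pow_pos k; have := hsq k; positivity
    calc A * C.ρ ^ K * (C.μ ^ k / √(C.nn k)) * |x|
        ≤ A * C.ρ ^ K * (C.μ ^ k / √(C.nn k)) * ((1 - C.δ) * |C.σ s|) := by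
          apply mul_le_mul_of_nonneg_left hx; positivity
      _ = A * C.ρ ^ K * ((1 - C.δ) * (C.μ ^ k / √(C.nn k))) * |C.σ s| := by ring
      _ ≤ A * C.ρ ^ K * (C.μ ^ (l : ℕ) / √(C.nn l)) * |C.σ s| := by
          apply mul_le_mul_of_nonneg_right _ hσ0
          apply mul_le_mul_of_nonneg_left hw hAK.le
  have key := sweep J C.nn C.nn_pos C.M C.M_symm C.M_self v hv D hvD hD (C.uS A K s) l ?_ ?_
  · rw [hupd] at key
    exact key
  · intro k
    rw [hresl]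
    by_cases hk : k = l
    · subst hk; rw [hresl]
    · rw [hres k]
      apply comp
      apply C.hbd s hs
      intro h
      apply hk
      apply Fin.ext
      have : (k : ℤ) = l := by rw [hlv]; omega
      exact_mod_cast this
  · intro k hk
    have e1 := res_update J C.M (C.uS A K s) l (res J C.M (C.uS A K s) l) k
    rw [hupd] at e1
    rw [← e1, hres' k, hresl]
    apply comp
    have hne : (K : ℤ) - k ≠ C.a s := by
      intro h
      apply hk
      apply Fin.ext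
      have : (k : ℤ) = l := by rw [hlv]; omega
      exact_mod_cast this
    have hδ0 : 0 ≤ 1 - C.δ := by have := C.hδ1; linarith
    have hδ1 : 1 - C.δ ≤ 1 := by have := C.hδ; linarith
    by_cases hs1 : s + 1 < C.N
    · have hd := C.hdec s hs1
      by_cases ha1 : (K : ℤ) - k = C.a (s + 1)
      · rw [ha1]
        simp only [r]
        rw [C.hsw (s + 1) hs1]
        exact hd
      · have h3 := C.hbd (s + 1) hs1 _ ha1
        refine h3.trans ?_
        have h4 : |C.σ (s + 1)| ≤ |C.σ s| := hd.trans (mul_le_of_le_one_left hσ0 hδ1)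
        exact mul_le_mul_of_nonneg_left h4 hδ0
    · have hsN : s + 1 = C.N := by omega
      have hsN' : s = C.N - 1 := by omega
      rw [hsN, C.r_last, abs_mul, abs_of_pos C.hρ]
      have hl' : C.ρ * |C.σ 0| ≤ (1 - C.δ) * |C.σ s| := by rw [hsN']; exact C.hlast
      refine le_trans ?_ hl'
      apply mul_le_mul_of_nonneg_left _ C.hρ.le
      by_cases ha0 : (K : ℤ) - k + 1 = C.a 0
      · rw [ha0]
        simp only [r]
        rw [C.hsw 0 C.hN]
      · exact (C.hbd 0 C.hN _ ha0).trans (mul_le_of_le_one_left (abs_nonneg _) hδ1)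

/-- The number of steps of a cycle. -/
noncomputable def cyc (K : ℕ) : ℕ := ∑ s ∈ range C.N, C.nn (K - C.a s)

lemma uS_next (A : ℝ) (K : ℕ) : C.uS A K C.N = C.uS A (K + 1) 0 := by
  funext k
  unfold uS
  by_cases h1 : k ≤ K
  · rw [if_pos h1, if_pos (by omega), C.Es_last, C.Es_zero]
    have : K + 1 - k = K - k + 1 := by omega
    rw [this]
    ring
  · rw [if_neg h1]
    by_cases h2 : k ≤ K + 1
    · rw [if_pos h2]
      have : K + 1 - k = 0 := by omega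
      rw [this, C.Es_zero, C.hE0]
      ring
    · rw [if_neg h2]

lemma cycle {A : ℝ} (hA : 0 < A) {J K : ℕ} (hK : C.I ≤ K) (hJ : K < J)
    (v : Idx J C.nn → H) (hv : ∀ x y, ⟪v x, v y⟫ = gram J C.nn C.M x y) (D : Set H)
    (hvD : ∀ x, v x ∈ D) (hD : ∀ g ∈ D, (∃ x, g = v x) ∨ ∀ x, ⟪v x, g⟫ = 0) :
    Reach D (C.cyc K) (vec J C.nn v (C.uS A K 0)) (vec J C.nn v (C.uS A (K + 1) 0)) := by
  have h : ∀ s, s ≤ C.N → Reach D (∑ s' ∈ range s, C.nn (K - C.a s'))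
      (vec J C.nn v (C.uS A K 0)) (vec J C.nn v (C.uS A K s)) := by
    intro s
    induction s with
    | zero => intro _; simp only [Finset.range_zero, Finset.sum_empty]; exact Reach.refl D _
    | succ s ih =>
      intro hs
      rw [Finset.sum_range_succ]
      exact (ih (by omega)).trans (C.sweep_stage hA hK hJ v hv D hvD hD (by omega))
  have := h C.N le_rfl
  rw [C.uS_next] at this
  exact this

/-- The number of steps from cycle `I` to cycle `K`. -/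
noncomputable def tot (K : ℕ) : ℕ := ∑ j ∈ Finset.Ico C.I K, C.cyc j

lemma total {A : ℝ} (hA : 0 < A) {J K : ℕ} (hK : C.I ≤ K) (hJ : K ≤ J)
    (v : Idx J C.nn → H) (hv : ∀ x y, ⟪v x, v y⟫ = gram J C.nn C.M x y) (D : Set H)
    (hvD : ∀ x, v x ∈ D) (hD : ∀ g ∈ D, (∃ x, g = v x) ∨ ∀ x, ⟪v x, g⟫ = 0) :
    Reach D (C.tot K) (vec J C.nn v (C.uS A C.I 0)) (vec J C.nn v (C.uS A K 0)) := by
  induction K, hK using Nat.le_induction with
  | base =>
    simp only [tot, Finset.Ico_self, Finset.sum_empty]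
    exact Reach.refl D _
  | succ K hK ih =>
    have e : C.tot (K + 1) = C.tot K + C.cyc K := by
      unfold tot
      rw [Finset.sum_Ico_succ_top hK]
    rw [e]
    exact (ih (by omega)).trans (C.cycle hA hK (by omega) v hv D hvD hD)

lemma tot_ge {K : ℕ} (hK : C.I < K) : (C.N0 : ℝ) * (C.μ ^ (K - 1 - C.I)) ^ 2 ≤ C.tot K := by
  have h1 : C.cyc (K - 1) ≤ C.tot K := by
    unfold tot
    exact Finset.single_le_sum (f := C.cyc) (fun _ _ => Nat.zero_le _)
      (Finset.mem_Ico.mpr ⟨by omega, by omega⟩)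
  have h2 : C.nn (K - 1 - C.a 0) ≤ C.cyc (K - 1) := by
    unfold cyc
    exact Finset.single_le_sum (f := fun s => C.nn (K - 1 - C.a s)) (fun _ _ => Nat.zero_le _)
      (Finset.mem_range.mpr C.hN)
  have h3 : C.nn (K - 1 - C.I) ≤ C.nn (K - 1 - C.a 0) := by
    apply C.nn_mono
    have := C.ha 0 C.hN
    omega
  have h4 := C.nn_ge (K - 1 - C.I)
  have h5 : (C.nn (K - 1 - C.I) : ℝ) ≤ C.tot K := by exact_mod_cast h3.trans (h2.trans h1)
  linarith

/-- `vec` as a linear combination of the vectors. -/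
lemma vec_eq (J : ℕ) (n : ℕ → ℕ) (v : Idx J n → H) (u : ℕ → ℝ) :
    vec J n v u = ∑ x : Idx J n, (u x.1 / √(n x.1)) • v x := by
  unfold vec
  rw [Fintype.sum_sigma]
  apply Finset.sum_congr rfl
  intro k _
  rw [Finset.smul_sum]

/-- The constant of the start vector. -/
noncomputable def SI : ℝ :=
  ∑ k ∈ range (C.I + 1), √(C.nn k) * (C.ρ ^ C.I * C.μ ^ k * |C.Es 0 (C.I - k)|)

lemma SI_nonneg : 0 ≤ C.SI := by
  unfold SI
  apply Finset.sum_nonneg
  intro k _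
  have := C.hρ
  have := C.mu_pow_pos k
  positivity

lemma start_sum {A : ℝ} (hA : 0 < A) {J : ℕ} (hJ : C.I < J) :
    ∑ x : Idx J C.nn, |C.uS A C.I 0 x.1 / √(C.nn x.1)| = A * C.SI := by
  rw [Fintype.sum_sigma]
  have h1 : ∀ k : Fin J, ∑ i : Fin (C.nn k), |C.uS A C.I 0 k / √(C.nn k)|
      = √(C.nn k) * |C.uS A C.I 0 k| := by
    intro k
    have hk : (0 : ℝ) < C.nn k := by exact_mod_cast C.nn_pos k
    have hsk : 0 < √(C.nn k : ℝ) := Real.sqrt_pos.mpr hk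
    rw [Finset.sum_const, Finset.card_univ, Fintype.card_fin, nsmul_eq_mul, abs_div,
      abs_of_pos hsk]
    rw [show (C.nn k : ℝ) = √(C.nn k : ℝ) * √(C.nn k : ℝ) from (Real.mul_self_sqrt hk.le).symm]
    rw [Real.sqrt_mul_self hsk.le]
    field_simp
  simp only [h1]
  rw [Fin.sum_univ_eq_sum_range (fun k => √(C.nn k : ℝ) * |C.uS A C.I 0 k|) J]
  have hsub : range (C.I + 1) ⊆ range J := by
    intro x hx; rw [Finset.mem_range] at *; omega
  rw [← Finset.sum_subset hsub]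
  swap
  · intro x _ hx
    rw [Finset.mem_range, not_lt] at hx
    unfold uS
    rw [if_neg (by omega)]; simp
  unfold SI
  rw [Finset.mul_sum]
  apply Finset.sum_congr rfl
  intro k hk
  rw [Finset.mem_range] at hk
  unfold uS
  rw [if_pos (by omega), abs_neg, abs_mul, abs_of_pos (C.sum_term_nonneg_aux A hA C.I k)]
  ring

end Cert

universe u

/-- A self-similar schedule yields slow realizations of the pure greedy algorithm. -/
theorem Cert.slow (C : Cert) : ∃ c : ℝ, 0 < c ∧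
    ∀ (H : Type u) [NormedAddCommGroup H] [InnerProductSpace ℝ H] [CompleteSpace H],
      ¬ FiniteDimensional ℝ H → ∀ m : ℕ, 1 ≤ m →
      ∃ (ι : Type u) (V : ι → H), Function.Injective V ∧ (∀ x, ‖V x‖ = 1) ∧
        Dense ((Submodule.span ℝ (Set.range V) : Submodule ℝ H) : Set H) ∧
        (∀ (s : Finset ι) (b : ι → ℝ), C.t * ∑ x ∈ s, b x ^ 2 ≤ ‖∑ x ∈ s, b x • V x‖ ^ 2 ∧
          ‖∑ x ∈ s, b x • V x‖ ^ 2 ≤ C.T * ∑ x ∈ s, b x ^ 2) ∧
        ∃ (s : Finset ι) (b : ι → ℝ), ∑ x ∈ s, |b x| ≤ 1 ∧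
          ∃ F : ℕ → H, F 0 = ∑ x ∈ s, b x • V x ∧
            (∀ j, Step (Set.range V) (F j) (F (j + 1))) ∧
            c * (m : ℝ) ^ (-C.κ) ≤ ‖F m‖ := by
  classical
  have hμ := C.hμ
  have hμ0 : 0 < C.μ := by linarith
  have hρ := C.hρ
  set A : ℝ := 1 / (1 + C.SI) with hAdef
  have hSI := C.SI_nonneg
  have hA : 0 < A := by positivity
  have hE1 := C.hE1
  have hE1' : 0 < |C.E 1| := abs_pos.mpr hE1
  have ht := C.ht
  refine ⟨√C.t * (A * |C.E 1|) * (C.μ ^ (-(1 + 2 * C.κ * (C.I + 2)))), by positivity, ?_⟩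
  intro H _ _ _ hH m hm
  have hm0 : (1 : ℝ) ≤ m := by exact_mod_cast hm
  -- choice of the number of cycles
  have hex : ∃ j : ℕ, (m : ℝ) ≤ (C.μ ^ j) ^ 2 := by
    have h1 : Filter.Tendsto (fun j : ℕ => C.μ ^ j) Filter.atTop Filter.atTop :=
      tendsto_pow_atTop_atTop_of_one_lt hμ
    obtain ⟨j, hj⟩ := (h1.eventually_ge_atTop (m : ℝ)).exists
    refine ⟨j, hj.trans ?_⟩
    have := C.one_le_mu_pow j
    nlinarith
  set j := Nat.find hex with hjdef
  have hj1 : (m : ℝ) ≤ (C.μ ^ j) ^ 2 := Nat.find_spec hex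
  have hj2 : (C.μ ^ j) ^ 2 ≤ C.μ ^ 2 * m := by
    rcases Nat.eq_zero_or_pos j with h0 | hpos
    · rw [h0]; simp; nlinarith
    · have := Nat.find_min hex (show j - 1 < j by omega)
      push Not at this
      have e : C.μ ^ j = C.μ * C.μ ^ (j - 1) := by
        rw [← pow_succ']; congr 1; omega
      rw [e, mul_pow]
      have h2 : 0 < C.μ ^ 2 := by positivity
      nlinarith
  set K := C.I + 1 + j with hK
  -- the system
  have hQ : ∀ u : Fin K → ℝ, C.t * ∑ k, u k ^ 2 ≤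
      ∑ k : Fin K, ∑ l : Fin K, u k * C.M k l * u l ∧
      ∑ k : Fin K, ∑ l : Fin K, u k * C.M k l * u l ≤ C.T * ∑ k, u k ^ 2 := C.hQ K
  obtain ⟨ι, V, e, he, hVinj, hVn, hVd, hVe, hVo, hVR⟩ :=
    exists_system hH (gram K C.nn C.M) (gram_symm K C.nn C.M C.M_symm) (gram_self K C.nn C.M)
      ht C.ht1 C.hT
      (gram_bounds K C.nn C.nn_pos C.M C.M_self C.ht1 C.hT hQ)
  refine ⟨ι, V, hVinj, hVn, hVd, hVR, ?_⟩
  set v : Idx K C.nn → H := fun x => V (e x) with hvdef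
  have hvD : ∀ x, v x ∈ Set.range V := fun x => ⟨e x, rfl⟩
  have hD : ∀ g ∈ Set.range V, (∃ x, g = v x) ∨ ∀ x, ⟪v x, g⟫ = 0 := by
    rintro _ ⟨y, rfl⟩
    by_cases hy : y ∈ Set.range e
    · obtain ⟨x, rfl⟩ := hy; exact Or.inl ⟨x, rfl⟩
    · exact Or.inr (fun x => hVo y hy x)
  have hreach := C.total hA (J := K) (K := K) (by omega) le_rfl v hVe (Set.range V) hvD hD
  -- continuation
  set S' : Submodule ℝ H := Submodule.span ℝ (Set.range v) with hSdef'
  set S : Set H := (S' : Set H) with hSdef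
  have hS0 : ∀ f ∈ S, ∀ g, (∀ x, ⟪v x, g⟫ = 0) → ⟪f, g⟫ = 0 := by
    intro f hf g hg
    refine Submodule.span_induction (p := fun f _ => ⟪f, g⟫ = 0) ?_ ?_ ?_ ?_ hf
    · rintro _ ⟨x, rfl⟩; exact hg x
    · simp
    · intro a b _ _ ha hb; rw [inner_add_left, ha, hb, add_zero]
    · intro a b _ hb; rw [real_inner_smul_left, hb, mul_zero]
  have hne : Nonempty (Idx K C.nn) := ⟨⟨⟨0, by omega⟩, ⟨0, C.nn_pos 0⟩⟩⟩
  have hS : ∀ f ∈ S, ∃ f' ∈ S, Step (Set.range V) f f' := by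
    intro f hf
    obtain ⟨x, hx⟩ := Finite.exists_max (fun x : Idx K C.nn => |⟪f, v x⟫|)
    refine ⟨f - ⟪f, v x⟫ • v x, ?_, v x, hvD x, ?_, rfl⟩
    · exact S'.sub_mem hf (S'.smul_mem _ (Submodule.subset_span ⟨x, rfl⟩))
    · intro g hg
      rcases hD g hg with ⟨y, rfl⟩ | h0
      · exact hx y
      · rw [hS0 f hf g h0]; simp
  have hvecS : ∀ u : ℕ → ℝ, vec K C.nn v u ∈ S := by
    intro u
    rw [Cert.vec_eq]
    exact S'.sum_mem (fun x _ => S'.smul_mem _ (Submodule.subset_span ⟨x, rfl⟩))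
  obtain ⟨F, hF0, hFt, hF⟩ := hreach.extend S hS (hvecS _)
  -- the coefficients of the start vector
  let cf : Idx K C.nn → ℝ := fun x => C.uS A C.I 0 x.1 / √(C.nn x.1)
  refine ⟨Finset.univ.map ⟨e, he⟩, Function.extend e cf 0, ?_, F, ?_, hF, ?_⟩
  · rw [Finset.sum_map]
    simp only [Function.Embedding.coeFn_mk, he.extend_apply]
    rw [show ∑ x, |cf x| = A * C.SI from C.start_sum hA (by omega)]
    rw [hAdef, one_div, inv_mul_le_iff₀ (by linarith)]
    linarith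
  · rw [hF0, Finset.sum_map]
    simp only [Function.Embedding.coeFn_mk, he.extend_apply]
    rw [Cert.vec_eq]
  · -- the norm
    have htot : m ≤ C.tot K := by
      have h1 := C.tot_ge (K := K) (by omega)
      have h2 : K - 1 - C.I = j := by omega
      rw [h2] at h1
      have h3 : (1 : ℝ) ≤ C.N0 := by
        have h4 : 0 < C.N0 := by exact_mod_cast C.N0_pos
        exact_mod_cast h4
      have h5 : (m : ℝ) ≤ C.tot K := by nlinarith
      exact_mod_cast h5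
    have hmono : ‖F (C.tot K)‖ ≤ ‖F m‖ :=
      norm_antitone (D := Set.range V) (by rintro _ ⟨x, rfl⟩; exact hVn x) hF htot
    rw [hFt] at hmono
    refine le_trans ?_ hmono
    -- lower bound of the norm of the state
    set u := C.uS A K 0 with hu
    have hlow : C.t * (u (K - 1)) ^ 2 ≤ ‖vec K C.nn v u‖ ^ 2 := by
      have h1 := (hVR (Finset.univ.map ⟨e, he⟩)
        (Function.extend e (fun x => u x.1 / √(C.nn x.1)) 0)).1
      rw [Finset.sum_map, Finset.sum_map] at h1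
      simp only [Function.Embedding.coeFn_mk, he.extend_apply] at h1
      rw [Cert.vec_eq]
      refine le_trans ?_ h1
      apply mul_le_mul_of_nonneg_left _ ht.le
      rw [Fintype.sum_sigma]
      let k0 : Fin K := ⟨K - 1, by omega⟩
      have h2 : ∑ i : Fin (C.nn k0), (u k0 / √(C.nn k0)) ^ 2
          ≤ ∑ k : Fin K, ∑ i : Fin (C.nn k), (u k / √(C.nn k)) ^ 2 :=
        Finset.single_le_sum (f := fun k : Fin K => ∑ i : Fin (C.nn k), (u k / √(C.nn k)) ^ 2)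
          (fun k _ => Finset.sum_nonneg (fun _ _ => sq_nonneg _)) (Finset.mem_univ k0)
      refine le_trans (le_of_eq ?_) h2
      have hk : (0 : ℝ) < C.nn k0 := by exact_mod_cast C.nn_pos k0
      rw [Finset.sum_const, Finset.card_univ, Fintype.card_fin, nsmul_eq_mul, div_pow,
        Real.sq_sqrt hk.le, mul_div_cancel₀ _ hk.ne']
    have hu1 : u (K - 1) = -(A * C.ρ ^ K * C.μ ^ (K - 1) * C.E 1) := by
      rw [hu]
      unfold Cert.uS
      rw [if_pos (by omega)]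
      have : K - (K - 1) = 1 := by omega
      rw [this, C.Es_zero]
    have hlow2 : √C.t * (A * C.ρ ^ K * C.μ ^ (K - 1) * |C.E 1|) ≤ ‖vec K C.nn v u‖ := by
      apply le_of_sq_le_sq _ (norm_nonneg _)
      rw [mul_pow, Real.sq_sqrt ht.le]
      refine le_trans (le_of_eq ?_) hlow
      rw [hu1, neg_sq, mul_pow _ (|C.E 1|), mul_pow _ (C.E 1), sq_abs]
    refine le_trans ?_ hlow2
    -- powers
    have hp1 : (C.μ ^ (-(1 + 2 * C.κ))) ^ K ≤ C.ρ ^ K :=
      pow_le_pow_left₀ (by positivity) C.hρμ K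
    have hκ := C.hκ
    have hp2 : C.μ ^ (-(1 + 2 * C.κ * (C.I + 2))) * (m : ℝ) ^ (-C.κ) ≤ C.ρ ^ K * C.μ ^ (K - 1) := by
      have e1 : C.μ ^ (K - 1) = C.μ ^ ((K : ℝ) - 1) := by
        rw [← Real.rpow_natCast]
        congr 1
        have : 1 ≤ K := by omega
        push_cast [this]
        ring
      have e2 : (C.μ ^ (-(1 + 2 * C.κ))) ^ K = C.μ ^ (-(1 + 2 * C.κ) * K) := by
        rw [← Real.rpow_natCast, ← Real.rpow_mul hμ0.le]
      have e3 : (C.μ ^ (-(1 + 2 * C.κ)) : ℝ) ^ K * C.μ ^ (K - 1)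
          = C.μ ^ (-(1 + 2 * C.κ * (C.I + 2))) * (C.μ ^ (2 * (j : ℝ) - 2)) ^ (-C.κ) := by
        rw [e1, e2, ← Real.rpow_mul hμ0.le, ← Real.rpow_add hμ0, ← Real.rpow_add hμ0]
        congr 1
        rw [hK]
        push_cast
        ring
      calc C.μ ^ (-(1 + 2 * C.κ * (C.I + 2))) * (m : ℝ) ^ (-C.κ)
          ≤ C.μ ^ (-(1 + 2 * C.κ * (C.I + 2))) * (C.μ ^ (2 * (j : ℝ) - 2)) ^ (-C.κ) := by
            apply mul_le_mul_of_nonneg_left _ (by positivity)
            apply Real.rpow_le_rpow_of_nonpos (by positivity) _ (by linarith)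
            have e4 : C.μ ^ (2 * (j : ℝ) - 2) = (C.μ ^ j) ^ 2 / C.μ ^ 2 := by
              rw [Real.rpow_sub hμ0, mul_comm (2 : ℝ), Real.rpow_mul hμ0.le, Real.rpow_natCast]
              norm_num
            rw [e4, div_le_iff₀ (by positivity)]
            linarith
        _ = (C.μ ^ (-(1 + 2 * C.κ)) : ℝ) ^ K * C.μ ^ (K - 1) := e3.symm
        _ ≤ C.ρ ^ K * C.μ ^ (K - 1) := by
            apply mul_le_mul_of_nonneg_right hp1 (by positivity)
    calc √C.t * (A * |C.E 1|) * C.μ ^ (-(1 + 2 * C.κ * (C.I + 2))) * (m : ℝ) ^ (-C.κ)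
        = √C.t * (A * |C.E 1|) * (C.μ ^ (-(1 + 2 * C.κ * (C.I + 2))) * (m : ℝ) ^ (-C.κ)) := by
          ring
      _ ≤ √C.t * (A * |C.E 1|) * (C.ρ ^ K * C.μ ^ (K - 1)) := by
          apply mul_le_mul_of_nonneg_left hp2 (by positivity)
      _ = √C.t * (A * C.ρ ^ K * C.μ ^ (K - 1) * |C.E 1|) := by ring

end Pool.Agent.Lib.MP_3cbb73_an.Slow
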