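import Pool.Agent.Lib.MP_3cbb73_an.Slow.Lists
import Pool.Agent.Lib.MP_3cbb73_an.Slow.Selfsim

set_option autoImplicit false

/-!
# Soundness of the residual tables
-/

namespace Pool.Agent.Lib.MP_3cbb73_an.Slow

open Finset

/-- The coefficient profile of a schedule. -/
noncomputable def Ecf (ρ : ℝ) (N : ℕ) (a : ℕ → ℕ) (σ : ℕ → ℝ) (l : ℕ) : ℝ :=
  if l = 0 then 0 else -∑ s ∈ range N, if l ≤ a s then σ s * ρ ^ (a s - l) else 0

lemma Ecf_zero (ρ : ℝ) (N : ℕ) (a : ℕ → ℕ) (σ : ℕ → ℝ) : Ecf ρ N a σ 0 = 0 := by simp [Ecf]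

lemma Ecf_big (ρ : ℝ) (N : ℕ) (a : ℕ → ℕ) (σ : ℕ → ℝ) (I : ℕ) (ha : ∀ s, s < N → a s ≤ I)
    (l : ℕ) (hl : I < l) : Ecf ρ N a σ l = 0 := by
  unfold Ecf
  rw [if_neg (by omega), neg_eq_zero]
  apply Finset.sum_eq_zero
  intro s hs
  have := ha s (Finset.mem_range.mp hs)
  rw [if_neg (by omega)]

lemma Ecf_shift (ρ : ℝ) (N : ℕ) (a : ℕ → ℕ) (σ : ℕ → ℝ)
    (hsum : ∑ s ∈ range N, σ s * ρ ^ a s = 0) (l : ℕ) :
    ρ * Ecf ρ N a σ (l + 1) = Ecf ρ N a σ l + ∑ s ∈ range N, if a s = l then σ s else 0 := by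
  unfold Ecf
  rw [if_neg (by omega)]
  by_cases hl : l = 0
  · subst hl
    rw [if_pos rfl, zero_add, mul_neg, Finset.mul_sum, neg_eq_iff_add_eq_zero,
      zero_add, ← Finset.sum_add_distrib]
    refine Eq.trans (Finset.sum_congr rfl ?_) hsum
    intro s _
    by_cases h : a s = 0
    · rw [if_neg (by omega), if_pos h, h]; ring
    · rw [if_pos (by omega), if_neg h]
      have : a s = (a s - 1) + 1 := by omega
      conv_rhs => rw [this, pow_succ]
      ring
  · rw [if_neg hl, mul_neg, Finset.mul_sum, neg_eq_iff_add_eq_zero, ← add_assoc,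
      ← sub_eq_add_neg, ← Finset.sum_sub_distrib, ← Finset.sum_add_distrib]
    apply Finset.sum_eq_zero
    intro s _
    rcases lt_trichotomy (a s) l with h | h | h
    · rw [if_neg (by omega), if_neg (by omega), if_neg (by omega)]; ring
    · rw [if_neg (by omega), if_pos (by omega), if_pos h, h]; simp
    · rw [if_pos (by omega), if_pos (by omega), if_neg (by omega)]
      have : a s - l = (a s - (l + 1)) + 1 := by omega
      rw [this, pow_succ]
      ring

lemma abs_Ecf_le (ρ : ℝ) (hρ0 : 0 ≤ ρ) (hρ1 : ρ ≤ 1) (N : ℕ) (a : ℕ → ℕ) (σ : ℕ → ℝ)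
    (hσ : ∀ s, s < N → |σ s| ≤ 2) (l : ℕ) : |Ecf ρ N a σ l| ≤ 2 * N := by
  unfold Ecf
  split_ifs
  · simp
  · rw [abs_neg]
    refine (Finset.abs_sum_le_sum_abs _ _).trans ?_
    have : ∀ s ∈ range N, |if l ≤ a s then σ s * ρ ^ (a s - l) else 0| ≤ 2 := by
      intro s hs
      split_ifs
      · rw [abs_mul, abs_of_nonneg (pow_nonneg hρ0 _)]
        have h1 := hσ s (Finset.mem_range.mp hs)
        have h2 : ρ ^ (a s - l) ≤ 1 := pow_le_one₀ hρ0 hρ1
        have h3 : 0 ≤ ρ ^ (a s - l) := pow_nonneg hρ0 _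
        nlinarith [abs_nonneg (σ s)]
      · simp
    refine (Finset.sum_le_sum this).trans ?_
    simp [mul_comm]

lemma abs_Est_le (ρ : ℝ) (hρ0 : 0 ≤ ρ) (hρ1 : ρ ≤ 1) (N : ℕ) (a : ℕ → ℕ) (σ : ℕ → ℝ)
    (hσ : ∀ s, s < N → |σ s| ≤ 2) (s : ℕ) (hs : s ≤ N) (l : ℕ) :
    |Est a σ (Ecf ρ N a σ) s l| ≤ 4 * N := by
  unfold Est
  refine (abs_add_le _ _).trans ?_
  have h1 := abs_Ecf_le ρ hρ0 hρ1 N a σ hσ l
  have h2 : |∑ s' ∈ range s, if a s' = l then σ s' else 0| ≤ 2 * N := by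
    refine (Finset.abs_sum_le_sum_abs _ _).trans ?_
    have : ∀ s' ∈ range s, |if a s' = l then σ s' else 0| ≤ 2 := by
      intro s' hs'
      split_ifs
      · exact hσ s' (lt_of_lt_of_le (Finset.mem_range.mp hs') hs)
      · simp
    refine (Finset.sum_le_sum this).trans ?_
    simp only [Finset.sum_const, Finset.card_range, nsmul_eq_mul]
    have : (s : ℝ) ≤ N := by exact_mod_cast hs
    linarith
  linarith

section rr

variable (I : ℕ) (μ : ℝ) (g : ℕ → ℝ) (a : ℕ → ℕ) (σ : ℕ → ℝ) (E : ℕ → ℝ)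

lemma rr_succ (s : ℕ) (hs : a s ≤ I) (i : ℤ) :
    rr I μ g a σ E (s + 1) i
      = rr I μ g a σ E s i - σ s * (μ ^ (i - a s) * g (i - a s).natAbs) := by
  unfold rr
  have h : ∀ l, Est a σ E (s + 1) l = Est a σ E s l + if a s = l then σ s else 0 := by
    intro l
    simp only [Est, Finset.sum_range_succ]; ring
  simp only [h, add_mul, Finset.sum_add_distrib, ite_mul, zero_mul]
  rw [Finset.sum_ite_eq, if_pos (Finset.mem_range.mpr (by omega))]
  ring

lemma rr_sum (s : ℕ) (hs : ∀ s', s' < s → a s' ≤ I) (i : ℤ) :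
    rr I μ g a σ E s i
      = rr I μ g a σ E 0 i - ∑ s' ∈ range s, σ s' * (μ ^ (i - a s') * g (i - a s').natAbs) := by
  induction s with
  | zero => simp
  | succ s ih =>
    rw [rr_succ I μ g a σ E s (hs s (by omega)), ih (fun s' h => hs s' (by omega)),
      Finset.sum_range_succ]
    ring

lemma rr_last (ρ : ℝ) (N : ℕ) (hE0 : E 0 = 0) (hEI : E (I + 1) = 0)
    (hshift : ∀ l, ρ * E (l + 1) = E l + ∑ s ∈ range N, if a s = l then σ s else 0) (i : ℤ) :
    rr I μ g a σ E N i = ρ * rr I μ g a σ E 0 (i + 1) := by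
  unfold rr
  have h1 : ∀ l, Est a σ E N l = ρ * E (l + 1) := by
    intro l; rw [hshift]; rfl
  have h2 : ∀ l, Est a σ E 0 l = E l := by intro l; simp [Est]
  simp only [h1, h2]
  have h3 : ∑ l ∈ range (I + 1), E l * (μ ^ (i + 1 - (l : ℤ)) * g (i + 1 - (l : ℤ)).natAbs)
      = ∑ l ∈ range (I + 2), E l * (μ ^ (i + 1 - (l : ℤ)) * g (i + 1 - (l : ℤ)).natAbs) := by
    rw [Finset.sum_range_succ _ (I + 1), hEI]
    simp
  rw [h3, Finset.sum_range_succ' _ (I + 1), hE0, zero_mul, add_zero, mul_neg, Finset.mul_sum]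
  congr 1
  apply Finset.sum_congr rfl
  intro l _
  have h4 : i + 1 - ((l + 1 : ℕ) : ℤ) = i - (l : ℤ) := by push_cast; ring
  rw [h4]; ring

lemma rr_zero_of (L : ℕ) (hg : ∀ k, L < k → g k = 0) (s : ℕ) (i : ℤ)
    (hi : i < -L ∨ (I : ℤ) + L < i) : rr I μ g a σ E s i = 0 := by
  unfold rr
  rw [neg_eq_zero]
  apply Finset.sum_eq_zero
  intro l hl
  rw [Finset.mem_range] at hl
  rw [hg _ (by omega)]
  ring

/-- crude bound -/
lemma abs_rr_le (hμ : 1 ≤ μ) (L : ℕ) (hg : ∀ k, L < k → g k = 0) (hg1 : ∀ k, |g k| ≤ 1)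
    {B : ℝ} (hB : 0 ≤ B) (s : ℕ) (hE : ∀ l, |Est a σ E s l| ≤ B) (i : ℤ) :
    |rr I μ g a σ E s i| ≤ (I + 1) * (B * μ ^ L) := by
  unfold rr
  rw [abs_neg]
  refine (Finset.abs_sum_le_sum_abs _ _).trans ?_
  have hμ0 : 0 < μ := by linarith
  have : ∀ l ∈ range (I + 1), |Est a σ E s l * (μ ^ (i - l) * g (i - l).natAbs)| ≤ B * μ ^ L := by
    intro l _
    rw [abs_mul]
    apply mul_le_mul (hE l) _ (abs_nonneg _) hB
    by_cases h : L < (i - l).natAbs
    · rw [hg _ h]; simp; positivity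
    · rw [abs_mul, abs_of_pos (zpow_pos hμ0 _)]
      have h1 : μ ^ (i - (l : ℤ)) ≤ μ ^ (L : ℤ) := zpow_le_zpow_right₀ hμ (by omega)
      rw [zpow_natCast] at h1
      have h2 := hg1 (i - l).natAbs
      have h3 : 0 < μ ^ (i - (l : ℤ)) := zpow_pos hμ0 _
      calc μ ^ (i - (l : ℤ)) * |g (i - l).natAbs| ≤ μ ^ (i - (l : ℤ)) * 1 := by gcongr
        _ ≤ μ ^ L := by rw [mul_one]; exact h1
  refine (Finset.sum_le_sum this).trans ?_
  simp [mul_comm]

end rr

lemma rr_linear (I : ℕ) (μ : ℝ) (a : ℕ → ℕ) (σ : ℕ → ℝ) (E : ℕ → ℝ) {n : ℕ}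
    (g0 : ℕ → ℝ) (d : Fin n → ℕ → ℝ) (z : Fin n → ℝ) (s : ℕ) (i : ℤ) :
    rr I μ (fun k => g0 k + ∑ j, z j * d j k) a σ E s i
      = rr I μ g0 a σ E s i + ∑ j, z j * rr I μ (d j) a σ E s i := by
  unfold rr
  simp only [mul_add, Finset.sum_add_distrib, neg_add, mul_neg, Finset.mul_sum,
    Finset.sum_neg_distrib]
  congr 2
  rw [Finset.sum_comm]
  apply Finset.sum_congr rfl
  intro j _
  apply Finset.sum_congr rfl
  intro l _
  ring

/-! ### Tables -/

/-- The data of a schedule. -/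
structure Sch where
  P : ℕ
  Q : ℕ
  p : ℕ
  q : ℕ
  L : ℕ
  I : ℕ
  /-- the scale -/
  c : ℕ
  /-- bound for `μ^L` -/
  Vm : ℕ
  /-- ages and signed thresholds -/
  st : List (ℕ × ℤ)

namespace Sch

variable (S : Sch)

/-- age of stage `s` -/
def a (s : ℕ) : ℕ := (S.st.getD s (0, 0)).1

/-- scaled signed threshold of stage `s` -/
def sg (s : ℕ) : ℤ := (S.st.getD s (0, 0)).2

/-- number of stages -/
def N : ℕ := S.st.length

/-- `μ` -/
noncomputable def μ : ℝ := (S.P : ℝ) / S.Q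

/-- `ρ` -/
noncomputable def ρ : ℝ := (S.p : ℝ) / S.q

/-- Validity of the real thresholds -/
structure Valid (σ : ℕ → ℝ) : Prop where
  hQ : 0 < S.Q
  hQP : S.Q < S.P
  hp : 0 < S.p
  hpq : S.p < S.q
  hc : 0 < S.c
  hVm : S.P ^ S.L ≤ S.Vm * S.Q ^ S.L
  ha : ∀ s, s < S.N → S.a s ≤ S.I
  hsg : ∀ s, s < S.N → |(S.sg s : ℝ) - S.c * σ s| ≤ 1
  hsg1 : ∀ s, s < S.N → |S.sg s| ≤ S.c
  hsum : ∑ s ∈ range S.N, σ s * S.ρ ^ S.a s = 0

variable {S} {σ : ℕ → ℝ}

lemma Valid.μ_gt (h : S.Valid σ) : 1 < S.μ := by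
  have h1 : (0 : ℝ) < S.Q := by exact_mod_cast h.hQ
  unfold μ
  rw [lt_div_iff₀ h1, one_mul]
  exact_mod_cast h.hQP

lemma Valid.ρ_pos (h : S.Valid σ) : 0 < S.ρ := by
  have h1 : (0 : ℝ) < S.p := by exact_mod_cast h.hp
  have h2 : (0 : ℝ) < S.q := by exact_mod_cast (h.hp.trans h.hpq)
  unfold ρ
  positivity

lemma Valid.q_pos (h : S.Valid σ) : (0 : ℝ) < S.q := by exact_mod_cast (h.hp.trans h.hpq)

lemma Valid.c_pos (h : S.Valid σ) : (1 : ℝ) ≤ S.c := by exact_mod_cast h.hc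

lemma Valid.ρ_lt (h : S.Valid σ) : S.ρ < 1 := by
  unfold ρ
  rw [div_lt_one h.q_pos]
  exact_mod_cast h.hpq

lemma Valid.μL (h : S.Valid σ) : S.μ ^ S.L ≤ S.Vm := by
  unfold μ
  have h1 : (0 : ℝ) < (S.Q : ℝ) ^ S.L := by
    have : (0 : ℝ) < S.Q := by exact_mod_cast h.hQ
    positivity
  rw [div_pow, div_le_iff₀ h1]
  exact_mod_cast h.hVm

/-- admissible kernel lists -/
structure Ker (S : Sch) (G : List ℤ) (g : ℕ → ℝ) : Prop where
  hlen : G.length = S.L + 1
  hg : ∀ k, (G.getD k 0 : ℝ) = S.c * g k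
  hG1 : ∀ k, |g k| ≤ 1

lemma Ker.supp {G : List ℤ} {g : ℕ → ℝ} (hS : S.Valid σ) (hK : Ker S G g) (k : ℕ)
    (hk : S.L < k) : g k = 0 := by
  have h1 := hK.hg k
  have h2 : G.getD k 0 = 0 := by
    rw [List.getD_eq_default _ _ (by rw [hK.hlen]; omega)]
  rw [h2] at h1
  have h3 := hS.c_pos
  simp only [Int.cast_zero] at h1
  rcases mul_eq_zero.mp h1.symm with h4 | h4
  · linarith
  · exact h4

lemma rep_vlist {G : List ℤ} {g : ℕ → ℝ} (hS : S.Valid σ) (hK : Ker S G g) :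
    Rep (vlist S.P S.Q G) S.c 1
      (fun j => S.μ ^ ((j : ℤ) - S.L) * g ((j : ℤ) - S.L).natAbs) := by
  intro j
  have hP : 0 < S.P := lt_trans hS.hQ hS.hQP
  have hPr : (0 : ℝ) < S.P := by exact_mod_cast hP
  have hQr : (0 : ℝ) < S.Q := by exact_mod_cast hS.hQ
  rcases lt_or_ge j S.L with hj | hj
  · -- negative ages
    rw [getD_vlist_neg S.P S.Q G S.L hK.hlen j hj]
    have h1 := vpos_err S.Q S.P hP G (S.L - j) (by rw [hK.hlen]; omega)
    have e1 : ((j : ℤ) - S.L).natAbs = S.L - j := by omega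
    have e2 : S.μ ^ ((j : ℤ) - S.L) = ((S.Q : ℝ) / S.P) ^ (S.L - j) := by
      unfold μ
      have : (j : ℤ) - S.L = -((S.L - j : ℕ) : ℤ) := by omega
      rw [this, zpow_neg, zpow_natCast, ← inv_pow, inv_div]
    simp only [e1, e2]
    rw [hK.hg] at h1
    rw [show (S.c : ℝ) * (((S.Q : ℝ) / S.P) ^ (S.L - j) * g (S.L - j))
      = ((S.Q : ℝ) / S.P) ^ (S.L - j) * (S.c * g (S.L - j)) by ring]
    exact h1
  · obtain ⟨k, rfl⟩ := Nat.exists_eq_add_of_le hj
    rw [getD_vlist_pos S.P S.Q G S.L hK.hlen k]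
    have e1 : (((S.L + k : ℕ) : ℤ) - S.L).natAbs = k := by omega
    have e2 : S.μ ^ (((S.L + k : ℕ) : ℤ) - S.L) = ((S.P : ℝ) / S.Q) ^ k := by
      unfold μ
      have : ((S.L + k : ℕ) : ℤ) - S.L = (k : ℤ) := by push_cast; ring
      rw [this, zpow_natCast]
    simp only [e1, e2]
    rcases lt_or_ge k G.length with hk | hk
    · have h1 := vpos_err S.P S.Q hS.hQ G k hk
      rw [hK.hg] at h1
      rw [show (S.c : ℝ) * (((S.P : ℝ) / S.Q) ^ k * g k)
        = ((S.P : ℝ) / S.Q) ^ k * (S.c * g k) by ring]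
      exact h1
    · rw [List.getD_eq_default _ _ (by rw [length_vpos]; exact hk),
        hK.supp hS k (by rw [hK.hlen] at hk; omega)]
      simp

/-- bound of the kernel -/
lemma abs_v_le {g : ℕ → ℝ} {G : List ℤ} (hS : S.Valid σ) (hK : Ker S G g) (i : ℤ) :
    |S.μ ^ i * g i.natAbs| ≤ S.Vm := by
  by_cases h : S.L < i.natAbs
  · rw [hK.supp hS _ h]; simp
  · have hμ := hS.μ_gt
    have hμ0 : 0 < S.μ := by linarith
    rw [abs_mul, abs_of_pos (zpow_pos hμ0 _)]
    have h1 : S.μ ^ i ≤ S.μ ^ (S.L : ℤ) := zpow_le_zpow_right₀ hμ.le (by omega)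
    rw [zpow_natCast] at h1
    have h2 := hK.hG1 i.natAbs
    have h3 : 0 < S.μ ^ i := zpow_pos hμ0 _
    calc S.μ ^ i * |g i.natAbs| ≤ S.μ ^ i * 1 := by gcongr
      _ ≤ S.Vm := by rw [mul_one]; exact h1.trans hS.μL

/-- one shifted and scaled copy of the kernel -/
lemma rep_term {G : List ℤ} {g : ℕ → ℝ} (hS : S.Valid σ) (hK : Ker S G g) (s : ℕ) (hs : s < S.N) :
    Rep (lshift (S.a s) (lsmul (S.sg s) (vlist S.P S.Q G))) ((S.c : ℝ) ^ 2)
      (S.c * (1 + S.Vm))
      (fun j => σ s * (S.μ ^ ((j : ℤ) - S.L - S.a s) * g ((j : ℤ) - S.L - S.a s).natAbs)) := by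
  intro j
  have hc := hS.c_pos
  rw [getD_lshift]
  split_ifs with hj
  · have hz : g ((j : ℤ) - S.L - S.a s).natAbs = 0 := hK.supp hS _ (by omega)
    simp only [hz]
    simp
    positivity
  · rw [getD_lsmul]
    have h1 := rep_vlist hS hK (j - S.a s)
    have e : ((j - S.a s : ℕ) : ℤ) - S.L = (j : ℤ) - S.L - S.a s := by omega
    simp only [e] at h1
    set v := S.μ ^ ((j : ℤ) - S.L - S.a s) * g ((j : ℤ) - S.L - S.a s).natAbs with hv
    have hvb : |v| ≤ S.Vm := abs_v_le hS hK _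
    have h2 := hS.hsg s hs
    have h3 : |(S.sg s : ℝ)| ≤ S.c := by exact_mod_cast hS.hsg1 s hs
    set X : ℝ := ((vlist S.P S.Q G).getD (j - S.a s) 0 : ℝ) with hX
    push_cast
    have e2 : (S.sg s : ℝ) * X - (S.c : ℝ) ^ 2 * (σ s * v)
        = S.sg s * (X - S.c * v) + S.c * v * (S.sg s - S.c * σ s) := by ring
    rw [e2]
    refine (abs_add_le _ _).trans ?_
    rw [abs_mul, abs_mul, abs_mul, abs_of_nonneg (by linarith : (0 : ℝ) ≤ S.c)]
    have b1 : |(S.sg s : ℝ)| * |X - S.c * v| ≤ S.c * 1 :=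
      mul_le_mul h3 h1 (abs_nonneg _) (by linarith)
    have b2 : S.c * |v| * |(S.sg s : ℝ) - S.c * σ s| ≤ S.c * S.Vm * 1 :=
      mul_le_mul (mul_le_mul_of_nonneg_left hvb (by linarith)) h2 (abs_nonneg _) (by positivity)
    linarith

/-- partial sums -/
lemma rep_qlist_aux {G : List ℤ} {g : ℕ → ℝ} (hS : S.Valid σ) (hK : Ker S G g) :
    ∀ (rest : List (ℕ × ℤ)) (s0 : ℕ), (∀ s, s < rest.length → rest.getD s (0, 0)
        = S.st.getD (s0 + s) (0, 0)) → s0 + rest.length ≤ S.N →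
      Rep (qlist (vlist S.P S.Q G) rest) ((S.c : ℝ) ^ 2) (rest.length * (S.c * (1 + S.Vm)))
        (fun j => ∑ s ∈ range rest.length, σ (s0 + s) *
          (S.μ ^ ((j : ℤ) - S.L - S.a (s0 + s)) * g ((j : ℤ) - S.L - S.a (s0 + s)).natAbs)) := by
  intro rest
  induction rest with
  | nil =>
    intro s0 _ _ j
    simp [qlist]
  | cons x rest ih =>
    intro s0 h1 h2 j
    simp only [List.length_cons] at h2
    have hx : x = S.st.getD s0 (0, 0) := by
      have := h1 0 (by simp)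
      simpa using this
    have ih' := ih (s0 + 1) (fun s hs => by
      have := h1 (s + 1) (by simpa using hs)
      rw [List.getD_cons_succ] at this
      rw [this]; congr 1; omega) (by omega) j
    have ht := rep_term hS hK s0 (by omega) j
    simp only [qlist, getD_ladd, List.length_cons]
    rw [Finset.sum_range_succ', Nat.add_zero]
    have e1 : x.1 = S.a s0 := by rw [hx]; rfl
    have e2 : x.2 = S.sg s0 := by rw [hx]; rfl
    rw [e1, e2]
    have e3 : ∀ s, s0 + 1 + s = s0 + (s + 1) := fun s => by omega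
    simp only [e3] at ih'
    push_cast
    rw [abs_le] at *
    constructor <;> linarith [ih'.1, ih'.2, ht.1, ht.2]

variable (S σ) in
/-- the real residual functions of a kernel `g` -/
noncomputable def rf (g : ℕ → ℝ) (s : ℕ) (i : ℤ) : ℝ :=
  rr S.I S.μ g S.a σ (Ecf S.ρ S.N S.a σ) s i

lemma rf_rec (hS : S.Valid σ) (g : ℕ → ℝ) (i : ℤ) :
    rf S σ g 0 i = S.ρ * rf S σ g 0 (i + 1)
      + ∑ s ∈ range S.N, σ s * (S.μ ^ (i - S.a s) * g (i - S.a s).natAbs) := by
  unfold rf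
  have h1 := rr_last S.I S.μ g S.a σ (Ecf S.ρ S.N S.a σ) S.ρ S.N (Ecf_zero _ _ _ _)
    (Ecf_big _ _ _ _ S.I hS.ha _ (by omega)) (Ecf_shift _ _ _ _ hS.hsum) i
  have h2 := rr_sum S.I S.μ g S.a σ (Ecf S.ρ S.N S.a σ) S.N hS.ha i
  linarith

lemma rf_zero {G : List ℤ} {g : ℕ → ℝ} (hS : S.Valid σ) (hK : Ker S G g) (s : ℕ) (i : ℤ)
    (hi : i < -S.L ∨ (S.I : ℤ) + S.L < i) : rf S σ g s i = 0 :=
  rr_zero_of S.I S.μ g S.a σ _ S.L (fun k hk => hK.supp hS k hk) s i hi

/-- the start table -/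
def R0 (S : Sch) (G : List ℤ) : List ℤ := rrec S.p S.q (qlist (vlist S.P S.Q G) S.st)

lemma rep_R0 {G : List ℤ} {g : ℕ → ℝ} (hS : S.Valid σ) (hK : Ker S G g)
    (hlen : (R0 S G).length = S.I + 2 * S.L + 1) {eY : ℝ} (heY0 : 0 ≤ eY)
    (heY : 1 + S.N * (S.c * (1 + S.Vm)) ≤ (1 - S.ρ) * eY) :
    Rep (R0 S G) ((S.c : ℝ) ^ 2) eY (fun j => rf S σ g 0 ((j : ℤ) - S.L)) := by
  have hX := rep_qlist_aux hS hK S.st 0 (fun s _ => by simp) (by simp [N])
  simp only [Nat.zero_add] at hX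
  have hlen' : (qlist (vlist S.P S.Q G) S.st).length = S.I + 2 * S.L + 1 := by
    rw [← hlen, R0, length_rrec]
  have key : ∀ n j : ℕ, S.I + 2 * S.L + 1 ≤ j + n →
      |((R0 S G).getD j 0 : ℝ) - (S.c : ℝ) ^ 2 * rf S σ g 0 ((j : ℤ) - S.L)| ≤ eY := by
    intro n
    induction n with
    | zero =>
      intro j hj
      rw [rf_zero hS hK 0 _ (by right; omega),
        List.getD_eq_default _ _ (by rw [hlen]; omega)]
      simpa using heY0
    | succ n ih =>
      intro j hj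
      by_cases hj2 : S.I + 2 * S.L + 1 ≤ j
      · rw [rf_zero hS hK 0 _ (by right; omega),
          List.getD_eq_default _ _ (by rw [hlen]; omega)]
        simpa using heY0
      · have ih' := ih (j + 1) (by omega)
        have hx := hX j
        unfold R0 at *
        rw [getD_rrec, if_pos (by rw [hlen']; omega)]
        have hq : 0 < S.q := hS.hp.trans hS.hpq
        have hfl := floor_err ((S.p : ℤ) * (rrec S.p S.q (qlist (vlist S.P S.Q G) S.st)).getD
          (j + 1) 0) S.q hq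
        rw [rf_rec hS g]
        set Y1 : ℤ := (rrec S.p S.q (qlist (vlist S.P S.Q G) S.st)).getD (j + 1) 0
        have e1 : (((j + 1 : ℕ) : ℤ) - S.L) = (j : ℤ) - S.L + 1 := by push_cast; ring
        rw [e1] at ih'
        set f1 := rf S σ g 0 ((j : ℤ) - S.L + 1)
        have e2 : ((((S.p : ℤ) * Y1 : ℤ)) : ℝ) / (S.q : ℝ) = S.ρ * Y1 := by
          unfold ρ; push_cast; ring
        rw [e2] at hfl
        have hρ := hS.ρ_pos
        have h3 : |S.ρ * ((Y1 : ℝ) - (S.c : ℝ) ^ 2 * f1)| ≤ S.ρ * eY := by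
          rw [abs_mul, abs_of_pos hρ]
          exact mul_le_mul_of_nonneg_left ih' hρ.le
        have hxN : |((qlist (vlist S.P S.Q G) S.st).getD j 0 : ℝ) - (S.c : ℝ) ^ 2 *
            ∑ s ∈ range S.N, σ s * (S.μ ^ ((j : ℤ) - S.L - S.a s) *
              g ((j : ℤ) - S.L - S.a s).natAbs)| ≤ S.N * (S.c * (1 + S.Vm)) := hx
        push_cast
        rw [abs_le] at *
        constructor <;> nlinarith [hfl.1, hfl.2, h3.1, h3.2, hxN.1, hxN.2]
  intro j
  exact key (S.I + 2 * S.L + 1) j (by omega)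

/-- the next table -/
def nextR (V : List ℤ) (x : ℕ × ℤ) (R : List ℤ) : List ℤ := ladd R (lshift x.1 (lsmul (-x.2) V))

lemma getD_nextR (V : List ℤ) (x : ℕ × ℤ) (R : List ℤ) (j : ℕ) :
    (nextR V x R).getD j 0 = R.getD j 0 - (lshift x.1 (lsmul x.2 V)).getD j 0 := by
  unfold nextR
  rw [getD_ladd, getD_lshift, getD_lshift]
  split_ifs
  · ring
  · rw [getD_lsmul, getD_lsmul]; ring

lemma rep_nextR {G : List ℤ} {g : ℕ → ℝ} (hS : S.Valid σ) (hK : Ker S G g) {s : ℕ}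
    (hs : s < S.N) {R : List ℤ} {e : ℝ}
    (hR : Rep R ((S.c : ℝ) ^ 2) e (fun j => rf S σ g s ((j : ℤ) - S.L))) :
    Rep (nextR (vlist S.P S.Q G) (S.st.getD s (0, 0)) R) ((S.c : ℝ) ^ 2)
      (e + S.c * (1 + S.Vm)) (fun j => rf S σ g (s + 1) ((j : ℤ) - S.L)) := by
  intro j
  have h1 := hR j
  have h2 := rep_term hS hK s hs j
  rw [getD_nextR]
  have h3 : rf S σ g (s + 1) ((j : ℤ) - S.L) = rf S σ g s ((j : ℤ) - S.L)
      - σ s * (S.μ ^ ((j : ℤ) - S.L - S.a s) * g ((j : ℤ) - S.L - S.a s).natAbs) :=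
    rr_succ _ _ _ _ _ _ s (hS.ha s hs) _
  simp only [h3]
  have e1 : (S.st.getD s (0, 0)).1 = S.a s := rfl
  have e2 : (S.st.getD s (0, 0)).2 = S.sg s := rfl
  rw [e1, e2]
  push_cast
  rw [abs_le] at *
  constructor <;> nlinarith [h1.1, h1.2, h2.1, h2.2]

/-- check of one table -/
def okL (pos : ℕ) (tgt : ℤ) (tol bnd : ℕ) : ℕ → List ℤ → Bool
  | _, [] => true
  | k, x :: xs => (if k = pos then Nat.ble (x - tgt).natAbs tol else Nat.ble x.natAbs bnd) &&
      okL pos tgt tol bnd (k + 1) xs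

lemma okL_spec (pos : ℕ) (tgt : ℤ) (tol bnd : ℕ) (xs : List ℤ) (k0 : ℕ)
    (h : okL pos tgt tol bnd k0 xs = true) (j : ℕ) :
    (k0 + j = pos → j < xs.length → (xs.getD j 0 - tgt).natAbs ≤ tol) ∧
      (k0 + j ≠ pos → (xs.getD j 0).natAbs ≤ bnd) := by
  induction xs generalizing k0 j with
  | nil => simp
  | cons x xs ih =>
    simp only [okL, Bool.and_eq_true] at h
    obtain ⟨h1, h2⟩ := h
    cases j with
    | zero =>
      simp only [Nat.add_zero, List.getD_cons_zero]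
      constructor
      · intro h3 _
        rw [if_pos h3] at h1
        exact Nat.le_of_ble_eq_true h1
      · intro h3
        rw [if_neg h3] at h1
        exact Nat.le_of_ble_eq_true h1
    | succ j =>
      have := ih (k0 + 1) h2 j
      simp only [List.getD_cons_succ, List.length_cons, Nat.add_lt_add_iff_right]
      have e : k0 + 1 + j = k0 + (j + 1) := by omega
      rwa [e] at this

/-- check of all tables -/
def chkSt (L : ℕ) (V : List ℤ) (c tol bs : ℕ) : List (ℕ × ℤ) → List ℤ → Bool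
  | [], _ => true
  | x :: rest, R => (Nat.blt (x.1 + L) R.length &&
      okL (x.1 + L) (x.2 * c) tol (x.2.natAbs * bs) 0 R) && chkSt L V c tol bs rest (nextR V x R)

lemma chkSt_spec {G : List ℤ} {g : ℕ → ℝ} (hS : S.Valid σ) (hK : Ker S G g) (tol bs : ℕ) :
    ∀ (rest : List (ℕ × ℤ)) (s0 : ℕ), (∀ s, s < rest.length → rest.getD s (0, 0)
        = S.st.getD (s0 + s) (0, 0)) → s0 + rest.length ≤ S.N → ∀ (R : List ℤ) (e : ℝ), 0 ≤ e →
      Rep R ((S.c : ℝ) ^ 2) e (fun j => rf S σ g s0 ((j : ℤ) - S.L)) →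
      chkSt S.L (vlist S.P S.Q G) S.c tol bs rest R = true →
      ∀ s, s < rest.length →
        |(S.c : ℝ) ^ 2 * rf S σ g (s0 + s) (S.a (s0 + s)) - S.c * S.sg (s0 + s)|
            ≤ tol + (e + s * (S.c * (1 + S.Vm))) ∧
        ∀ i : ℤ, i ≠ S.a (s0 + s) → (S.c : ℝ) ^ 2 * |rf S σ g (s0 + s) i|
            ≤ |(S.sg (s0 + s) : ℝ)| * bs + (e + s * (S.c * (1 + S.Vm))) := by
  intro rest
  induction rest with
  | nil => intro s0 _ _ R e _ _ _ s hs; simp at hs
  | cons x rest ih =>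
    intro s0 h1 h2 R e he hR hchk s hs
    simp only [List.length_cons] at h2
    simp only [chkSt, Bool.and_eq_true] at hchk
    obtain ⟨⟨hb, hok⟩, hrest⟩ := hchk
    have hc := hS.c_pos
    have hx : x = S.st.getD s0 (0, 0) := by
      have := h1 0 (by simp)
      simpa using this
    cases s with
    | zero =>
      have hb' : x.1 + S.L < R.length := by
        unfold Nat.blt at hb
        exact Nat.le_of_ble_eq_true hb
      have e1 : x.1 = S.a s0 := by rw [hx]; rfl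
      have e2 : x.2 = S.sg s0 := by rw [hx]; rfl
      rw [e1] at hb'
      rw [e1, e2] at hok
      simp only [Nat.add_zero, Nat.cast_zero, zero_mul, add_zero]
      have hok' := okL_spec _ _ _ _ _ _ hok
      constructor
      · have h3 := (hok' (S.a s0 + S.L)).1 (by omega) hb'
        have h4 := hR (S.a s0 + S.L)
        have e3 : (((S.a s0 + S.L : ℕ) : ℤ) - S.L) = S.a s0 := by push_cast; ring
        simp only [e3] at h4
        have h5 : |((R.getD (S.a s0 + S.L) 0 : ℤ) : ℝ) - S.sg s0 * S.c| ≤ tol := by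
          have : |(R.getD (S.a s0 + S.L) 0 - S.sg s0 * S.c : ℤ)| ≤ tol := by
            rw [Int.abs_eq_natAbs]; exact_mod_cast h3
          exact_mod_cast this
        rw [abs_le] at *
        constructor <;> linarith [h4.1, h4.2, h5.1, h5.2]
      · intro i hi
        by_cases hi2 : i < -S.L
        · rw [rf_zero hS hK _ _ (Or.inl hi2)]
          simp only [abs_zero, mul_zero]
          positivity
        · push Not at hi2
          obtain ⟨j, hj⟩ : ∃ j : ℕ, (j : ℤ) = i + S.L := ⟨(i + S.L).toNat, by omega⟩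
          have hj' : (j : ℤ) - S.L = i := by omega
          have h4 := hR j
          simp only [hj'] at h4
          have h3 := (hok' j).2 (by
            intro h
            apply hi
            have : (j : ℤ) = S.a s0 + S.L := by exact_mod_cast (by omega : j = S.a s0 + S.L)
            omega)
          have h5 : |((R.getD j 0 : ℤ) : ℝ)| ≤ |(S.sg s0 : ℝ)| * bs := by
            have : |(R.getD j 0 : ℤ)| ≤ |S.sg s0| * bs := by
              rw [Int.abs_eq_natAbs, Int.abs_eq_natAbs]; exact_mod_cast h3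
            exact_mod_cast this
          have h6 : (S.c : ℝ) ^ 2 * |rf S σ g s0 i| = |(S.c : ℝ) ^ 2 * rf S σ g s0 i| := by
            rw [abs_mul, abs_of_nonneg (by positivity : (0 : ℝ) ≤ (S.c : ℝ) ^ 2)]
          rw [h6]
          have h7 : |(S.c : ℝ) ^ 2 * rf S σ g s0 i|
              ≤ |((R.getD j 0 : ℤ) : ℝ)| + |((R.getD j 0 : ℤ) : ℝ) - (S.c : ℝ) ^ 2 * rf S σ g s0 i| := by
            have := abs_sub_abs_le_abs_sub ((S.c : ℝ) ^ 2 * rf S σ g s0 i) ((R.getD j 0 : ℤ) : ℝ)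
            rw [abs_sub_comm] at this
            linarith
          linarith
    | succ s =>
      have hR' := rep_nextR hS hK (s := s0) (by omega) hR
      rw [← hx] at hR'
      have := ih (s0 + 1) (fun s hs => by
        have := h1 (s + 1) (by simpa using hs)
        rw [List.getD_cons_succ] at this
        rw [this]; congr 1; omega) (by omega) _ _ (by positivity) hR' hrest s
        (by simpa using hs)
      have e3 : s0 + 1 + s = s0 + (s + 1) := by omega
      rw [e3] at this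
      push_cast
      have e4 : e + S.c * (1 + (S.Vm : ℝ)) + s * (S.c * (1 + S.Vm))
          = e + (s + 1) * (S.c * (1 + S.Vm)) := by ring
      rw [e4] at this
      exact this

/-- the diagonal entries -/
def diagL (L : ℕ) (V : List ℤ) : List (ℕ × ℤ) → List ℤ → List ℤ
  | [], _ => []
  | x :: rest, R => R.getD (x.1 + L) 0 :: diagL L V rest (nextR V x R)

lemma diagL_spec {G : List ℤ} {g : ℕ → ℝ} (hS : S.Valid σ) (hK : Ker S G g) :
    ∀ (rest : List (ℕ × ℤ)) (s0 : ℕ), (∀ s, s < rest.length → rest.getD s (0, 0)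
        = S.st.getD (s0 + s) (0, 0)) → s0 + rest.length ≤ S.N → ∀ (R : List ℤ) (e : ℝ),
      Rep R ((S.c : ℝ) ^ 2) e (fun j => rf S σ g s0 ((j : ℤ) - S.L)) →
      ∀ s, s < rest.length →
        |((diagL S.L (vlist S.P S.Q G) rest R).getD s 0 : ℝ)
          - (S.c : ℝ) ^ 2 * rf S σ g (s0 + s) (S.a (s0 + s))| ≤ e + s * (S.c * (1 + S.Vm)) := by
  intro rest
  induction rest with
  | nil => intro s0 _ _ R e _ s hs; simp at hs
  | cons x rest ih =>
    intro s0 h1 h2 R e hR s hs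
    simp only [List.length_cons] at h2
    have hx : x = S.st.getD s0 (0, 0) := by
      have := h1 0 (by simp)
      simpa using this
    cases s with
    | zero =>
      have e1 : x.1 = S.a s0 := by rw [hx]; rfl
      simp only [diagL, List.getD_cons_zero, Nat.add_zero, Nat.cast_zero, zero_mul, add_zero, e1]
      have h4 := hR (S.a s0 + S.L)
      have e3 : (((S.a s0 + S.L : ℕ) : ℤ) - S.L) = S.a s0 := by push_cast; ring
      simp only [e3] at h4
      exact h4
    | succ s =>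
      have hR' := rep_nextR hS hK (s := s0) (by omega) hR
      rw [← hx] at hR'
      have := ih (s0 + 1) (fun s hs => by
        have := h1 (s + 1) (by simpa using hs)
        rw [List.getD_cons_succ] at this
        rw [this]; congr 1; omega) (by omega) _ _ hR' s
        (by simpa using hs)
      have e3 : s0 + 1 + s = s0 + (s + 1) := by omega
      rw [e3] at this
      simp only [diagL, List.getD_cons_succ]
      push_cast
      have e4 : e + S.c * (1 + (S.Vm : ℝ)) + s * (S.c * (1 + S.Vm))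
          = e + (s + 1) * (S.c * (1 + S.Vm)) := by ring
      rw [e4] at this
      exact this

end Sch

end Pool.Agent.Lib.MP_3cbb73_an.Slow
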